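import Pool.Agent.H643R2.SH.Schutz

/-! # Counter-free automata and counting marked edges -/

namespace Pool.Agent.H643R2.SH

variable {α : Type}

/-- Kleisli endomorphisms of a set of states. -/
def KEnd (Q : Type) : Type := Q → Option Q

instance {Q : Type} : Monoid (KEnd Q) where
  mul f g := fun q => (f q).bind g
  one := fun q => some q
  mul_assoc f g h := by
    funext q
    show ((f q).bind g).bind h = (f q).bind (fun q' => (g q').bind h)
    exact Option.bind_assoc _ _ _
  one_mul f := by
    funext q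
    rfl
  mul_one f := by
    funext q
    show (f q).bind (fun q => some q) = f q
    cases f q <;> rfl

theorem KEnd.mul_apply {Q : Type} (f g : KEnd Q) (q : Q) : (f * g) q = (f q).bind g := rfl

theorem KEnd.one_apply {Q : Type} (q : Q) : (1 : KEnd Q) q = some q := rfl

instance {Q : Type} [Finite Q] : Finite (KEnd Q) := by
  unfold KEnd
  infer_instance

theorem prun_append {Q : Type} (δ : Q → α → Option Q) (q : Q) (u v : List α) :
    prun δ q (u ++ v) = (prun δ q u).bind (fun q' => prun δ q' v) := by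
  induction u generalizing q with
  | nil => rfl
  | cons a u ih =>
    show (δ q a).bind (fun q' => prun δ q' (u ++ v)) =
      ((δ q a).bind (fun q' => prun δ q' u)).bind (fun q' => prun δ q' v)
    rw [Option.bind_assoc]
    congr 1
    funext q'
    exact ih q'

/-- The transition morphism. -/
def trans {Q : Type} (δ : Q → α → Option Q) : FreeMonoid α →* KEnd Q where
  toFun w := fun q => prun δ q (FreeMonoid.toList w)
  map_one' := rfl
  map_mul' u v := by
    funext q
    exact prun_append δ q _ _

theorem trans_apply {Q : Type} (δ : Q → α → Option Q) (w : FreeMonoid α) (q : Q) :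
    trans δ w q = prun δ q (FreeMonoid.toList w) := rfl

theorem toList_pow (w : FreeMonoid α) (k : ℕ) :
    FreeMonoid.toList (w ^ k) = (List.replicate k (FreeMonoid.toList w)).flatten := by
  induction k with
  | zero => simp
  | succ k ih => rw [pow_succ', FreeMonoid.toList_mul, ih, List.replicate_succ, List.flatten_cons]

theorem starFree_prun [Finite α] {Q : Type} [Finite Q] (δ : Q → α → Option Q)
    (h : CounterFree δ) (q q' : Q) : HeightLE 0 {w : List α | prun δ q w = some q'} := by
  classical
  set f := (trans δ).mrangeRestrict with hf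
  have hM : ∀ x : MonoidHom.mrange (trans δ), ∃ n : ℕ, x ^ (n + 1) = x ^ n := by
    rintro ⟨x, w, rfl⟩
    obtain ⟨i, j, hij, he⟩ := Finite.exists_ne_map_eq_of_infinite
      (fun n : ℕ => (trans δ w) ^ n)
    wlog hlt : i < j generalizing i j
    · exact this j i hij.symm he.symm (lt_of_le_of_ne (not_lt.1 hlt) hij.symm)
    refine ⟨i, ?_⟩
    apply Subtype.ext
    show (trans δ w) ^ (i + 1) = (trans δ w) ^ i
    funext s
    rw [pow_succ, KEnd.mul_apply]
    cases hs : ((trans δ w) ^ i) s with
    | none => rfl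
    | some t =>
      show trans δ w t = some t
      apply h _ t (j - i) (by omega)
      rw [← toList_pow, ← trans_apply, map_pow]
      have h2 : ((trans δ w) ^ j) s = (((trans δ w) ^ i) s).bind ((trans δ w) ^ (j - i)) := by
        rw [← KEnd.mul_apply, ← pow_add, Nat.add_sub_cancel' hlt.le]
      rw [hs] at h2
      have h3 : ((trans δ w) ^ j) s = some t := by
        rw [← hs]
        exact (congrFun he s).symm
      rw [h3] at h2
      exact h2.symm
  have e : {w : List α | prun δ q w = some q'} =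
      {w | ∃ m : MonoidHom.mrange (trans δ), (m : KEnd Q) q = some q' ∧
        w ∈ {w : List α | f (FreeMonoid.ofList w) = m}} := by
    ext w
    rw [Set.mem_ofPred_eq, Set.mem_ofPred_eq]
    constructor
    · intro hw
      exact ⟨f (FreeMonoid.ofList w), hw, rfl⟩
    · rintro ⟨m, hm, hw⟩
      rw [Set.mem_ofPred_eq] at hw
      rw [← hw] at hm
      exact hm
  rw [e]
  exact HeightLE.biUnion _ (fun m _ => starFree_of_aperiodic hM f m)

section cnt

variable {Q : Type} (δ : Q → α → Q) (mk : Q → α → Bool)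

theorem cnt_append (q : Q) (u v : List α) :
    cnt δ mk q (u ++ v) = cnt δ mk q u + cnt δ mk (u.foldl δ q) v := by
  induction u generalizing q with
  | nil => simp [cnt]
  | cons a u ih => simp only [List.cons_append, cnt, List.foldl_cons]; rw [ih]; ring

theorem prun_unmarked (q q' : Q) (w : List α) :
    prun (unmarked δ mk) q w = some q' ↔ cnt δ mk q w = 0 ∧ w.foldl δ q = q' := by
  induction w generalizing q with
  | nil => simp [prun, cnt]
  | cons a w ih =>
    simp only [prun, cnt, List.foldl_cons]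
    by_cases h : mk q a
    · simp [unmarked, h]
    · have h2 : unmarked δ mk q a = some (δ q a) := by simp [unmarked, h]
      rw [h2]
      simp only [Option.bind_some, h, Bool.false_eq_true, if_false, zero_add]
      exact ih (δ q a)

/-- The language of the words leading from `q` to `q'`. -/
def runLang (d : Q → α → Option Q) (q q' : Q) : Language α := {w : List α | prun d q w = some q'}

/-- The language of one letter. -/
def chLang (a : α) : Language α := ({[a]} : Set (List α))

/-- Words whose last edge is the only marked edge. -/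
def firstMark (q : Q) : Language α :=
  {w : List α | ∃ p : Q × α, mk p.1 p.2 = true ∧
    w ∈ runLang (unmarked δ mk) q p.1 * chLang p.2}

theorem mem_firstMark (q : Q) (w : List α) : w ∈ firstMark δ mk q ↔
    ∃ u a, w = u ++ [a] ∧ cnt δ mk q u = 0 ∧ mk (u.foldl δ q) a = true := by
  unfold firstMark
  constructor
  · rintro ⟨p, hp, u, hu, v, hv, rfl⟩
    have hv' : v = [p.2] := hv
    subst hv'
    have hu' := (prun_unmarked δ mk q p.1 u).1 hu
    exact ⟨u, p.2, rfl, hu'.1, by rw [hu'.2]; exact hp⟩
  · rintro ⟨u, a, rfl, h1, h2⟩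
    exact ⟨(u.foldl δ q, a), h2, u, (prun_unmarked δ mk q _ u).2 ⟨h1, rfl⟩, [a], rfl, rfl⟩

theorem firstMark_height [Finite α] [Finite Q] (h : CounterFree (unmarked δ mk)) (q : Q) :
    HeightLE 0 (firstMark δ mk q) :=
  HeightLE.biUnion _ (fun p _ => (starFree_prun _ h q p.1).mul (HeightLE.char 0 p.2))

variable (qs : Q) (hmk : ∀ q a, mk q a = true → δ q a = qs)

include hmk in
theorem exists_firstMark (q : Q) (w : List α) (n : ℕ) (hw : cnt δ mk q w = n + 1) :
    ∃ u v, w = u ++ v ∧ u ∈ firstMark δ mk q ∧ cnt δ mk qs v = n ∧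
      v.foldl δ qs = w.foldl δ q := by
  induction w generalizing q with
  | nil => simp [cnt] at hw
  | cons a w ih =>
    by_cases h : mk q a = true
    · refine ⟨[a], w, rfl, (mem_firstMark δ mk q _).2 ⟨[], a, rfl, rfl, h⟩, ?_, ?_⟩
      · simp only [cnt, h, if_true] at hw
        rw [hmk q a h] at hw
        omega
      · rw [List.foldl_cons, hmk q a h]
    · simp only [cnt, h, Bool.false_eq_true, if_false, zero_add] at hw
      obtain ⟨u, v, rfl, hu, hv1, hv2⟩ := ih (δ q a) hw
      obtain ⟨u', b, rfl, h1, h2⟩ := (mem_firstMark δ mk _ _).1 hu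
      refine ⟨a :: (u' ++ [b]), v, rfl, (mem_firstMark δ mk q _).2 ⟨a :: u', b, rfl, ?_, h2⟩,
        hv1, ?_⟩
      · simp only [cnt, h, Bool.false_eq_true, if_false, zero_add]
        exact h1
      · rw [hv2]
        rfl

include hmk in
theorem firstMark_spec (q : Q) (u : List α) (hu : u ∈ firstMark δ mk q) :
    cnt δ mk q u = 1 ∧ u.foldl δ q = qs := by
  obtain ⟨u', b, rfl, h1, h2⟩ := (mem_firstMark δ mk _ _).1 hu
  refine ⟨?_, ?_⟩
  · rw [cnt_append, h1]
    simp [cnt, h2]
  · rw [List.foldl_append]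
    exact hmk _ _ h2

include hmk in
theorem mem_pow_firstMark (j : ℕ) (w : List α) (q' : Q) :
    w ∈ ((firstMark δ mk qs) ^ j * (runLang (unmarked δ mk) qs q') : Language α) ↔ cnt δ mk qs w = j ∧ w.foldl δ qs = q' := by
  induction j generalizing w with
  | zero =>
    rw [pow_zero, one_mul]
    exact prun_unmarked δ mk qs q' w
  | succ j ih =>
    rw [pow_succ', mul_assoc]
    constructor
    · rintro ⟨u, hu, v, hv, rfl⟩
      obtain ⟨h1, h2⟩ := firstMark_spec δ mk qs hmk qs u hu
      obtain ⟨h3, h4⟩ := (ih v).1 hv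
      refine ⟨?_, ?_⟩
      · show cnt δ mk qs (u ++ v) = j + 1
        rw [cnt_append, h1, h2, h3, add_comm]
      · show (u ++ v).foldl δ qs = q'
        rw [List.foldl_append, h2, h4]
    · rintro ⟨h1, h2⟩
      obtain ⟨u, v, rfl, hu, hv1, hv2⟩ := exists_firstMark δ mk qs hmk qs w j h1
      exact ⟨u, hu, v, (ih v).2 ⟨hv1, hv2.trans h2⟩, rfl⟩

include hmk in
theorem mem_mul_pow_firstMark (q : Q) (j : ℕ) (w : List α) (q' : Q) :
    w ∈ (firstMark δ mk q * ((firstMark δ mk qs) ^ j *
      (runLang (unmarked δ mk) qs q')) : Language α) ↔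
      cnt δ mk q w = j + 1 ∧ w.foldl δ q = q' := by
  constructor
  · rintro ⟨u, hu, v, hv, rfl⟩
    obtain ⟨h1, h2⟩ := firstMark_spec δ mk qs hmk q u hu
    obtain ⟨h3, h4⟩ := (mem_pow_firstMark δ mk qs hmk j v q').1 hv
    refine ⟨?_, ?_⟩
    · show cnt δ mk q (u ++ v) = j + 1
      rw [cnt_append, h1, h2, h3, add_comm]
    · show (u ++ v).foldl δ q = q'
      rw [List.foldl_append, h2, h4]
  · rintro ⟨h1, h2⟩
    obtain ⟨u, v, rfl, hu, hv1, hv2⟩ := exists_firstMark δ mk qs hmk q w j h1
    exact ⟨u, hu, v, (mem_pow_firstMark δ mk qs hmk j v q').2 ⟨hv1, hv2.trans h2⟩, rfl⟩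

end cnt

theorem cnt_height [Finite α] {Q : Type} [Finite Q] (δ : Q → α → Q) (mk : Q → α → Bool) (qs : Q)
    (hmk : ∀ q a, mk q a = true → δ q a = qs) (h : CounterFree (unmarked δ mk))
    (m : ℕ) (hm : 0 < m) (r : ℕ) (q q' : Q) :
    HeightLE 1 {w : List α | cnt δ mk q w % m = r ∧ w.foldl δ q = q'} := by
  by_cases hr : r < m
  swap
  · have e : {w : List α | cnt δ mk q w % m = r ∧ w.foldl δ q = q'} = ∅ := by
      ext w
      rw [Set.mem_ofPred_eq]
      constructor
      · rintro ⟨h1, _⟩
        exact hr (h1 ▸ Nat.mod_lt _ hm)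
      · intro h; exact h.elim
    rw [e]
    exact HeightLE.empty 1
  set F := firstMark δ mk q
  set K := firstMark δ mk qs
  set U : Language α := runLang (unmarked δ mk) qs q'
  set j0 := (r + (m - 1)) % m with hj0
  have hF : HeightLE 0 F := firstMark_height δ mk h q
  have hK : HeightLE 0 K := firstMark_height δ mk h qs
  have hU : HeightLE 0 U := starFree_prun _ h qs q'
  have hV : HeightLE 0 (runLang (unmarked δ mk) q q') :=
    starFree_prun _ h q q'
  have hmain : HeightLE 1 (F * (K ^ j0 * (KStar.kstar (K ^ m) * U)) : Language α) :=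
    (hF.mono (Nat.zero_le 1)).mul (((hK.pow j0).mono (Nat.zero_le 1)).mul
      (((hK.pow m).kstar).mul (hU.mono (Nat.zero_le 1))))
  have hmem : ∀ w, w ∈ (F * (K ^ j0 * (KStar.kstar (K ^ m) * U)) : Language α) ↔
      (cnt δ mk q w ≠ 0 ∧ cnt δ mk q w % m = r ∧ w.foldl δ q = q') := by
    intro w
    have e1 : (F * (K ^ j0 * (KStar.kstar (K ^ m) * U)) : Language α) =
        ⨆ t : ℕ, (F * (K ^ (j0 + m * t) * U) : Language α) := by
      rw [Language.kstar_eq_iSup_pow, Language.iSup_mul, Language.mul_iSup, Language.mul_iSup]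
      congr 1
      funext t
      rw [← mul_assoc (K ^ j0), ← pow_mul, ← pow_add]
    rw [e1, Language.mem_iSup]
    constructor
    · rintro ⟨t, ht⟩
      obtain ⟨h1, h2⟩ := (mem_mul_pow_firstMark δ mk qs hmk q _ w q').1 ht
      refine ⟨by omega, ?_, h2⟩
      rw [h1, show j0 + m * t + 1 = (j0 + 1) + m * t by ring, Nat.add_mul_mod_self_left, hj0,
        Nat.add_mod, Nat.mod_mod, ← Nat.add_mod, show r + (m - 1) + 1 = r + m by omega,
        Nat.add_mod_right, Nat.mod_eq_of_lt hr]
    · rintro ⟨h0, h1, h2⟩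
      refine ⟨(cnt δ mk q w - 1) / m, ?_⟩
      refine (mem_mul_pow_firstMark δ mk qs hmk q _ w q').2 ⟨?_, h2⟩
      have h3 : (cnt δ mk q w - 1) % m = j0 := by
        rw [hj0, ← h1, Nat.mod_add_mod]
        have : cnt δ mk q w + (m - 1) = (cnt δ mk q w - 1) + m := by omega
        rw [this, Nat.add_mod_right]
      have h4 := Nat.mod_add_div (cnt δ mk q w - 1) m
      rw [h3] at h4
      omega
  by_cases hr0 : r = 0
  · have e : {w : List α | cnt δ mk q w % m = r ∧ w.foldl δ q = q'} =
        ((runLang (unmarked δ mk) q q') ⊔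
          (F * (K ^ j0 * (KStar.kstar (K ^ m) * U))) : Language α) := by
      ext w
      show _ ↔ (prun (unmarked δ mk) q w = some q' ∨
        w ∈ (F * (K ^ j0 * (KStar.kstar (K ^ m) * U)) : Language α))
      rw [hmem, Set.mem_ofPred_eq, prun_unmarked]
      constructor
      · rintro ⟨h1, h2⟩
        by_cases h0 : cnt δ mk q w = 0
        · exact Or.inl ⟨h0, h2⟩
        · exact Or.inr ⟨h0, h1, h2⟩
      · rintro (⟨h1, h2⟩ | ⟨_, h1, h2⟩)
        · exact ⟨by rw [h1, hr0, Nat.zero_mod], h2⟩
        · exact ⟨h1, h2⟩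
    rw [e]
    exact (hV.mono (Nat.zero_le 1)).union hmain
  · have e : {w : List α | cnt δ mk q w % m = r ∧ w.foldl δ q = q'} =
        ((F * (K ^ j0 * (KStar.kstar (K ^ m) * U))) : Language α) := by
      ext w
      show _ ↔ w ∈ (F * (K ^ j0 * (KStar.kstar (K ^ m) * U)) : Language α)
      rw [hmem, Set.mem_ofPred_eq]
      constructor
      · rintro ⟨h1, h2⟩
        refine ⟨fun h0 => ?_, h1, h2⟩
        rw [h0, Nat.zero_mod] at h1
        exact hr0 h1.symm
      · rintro ⟨_, h1, h2⟩
        exact ⟨h1, h2⟩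
    rw [e]
    exact hmain

end Pool.Agent.H643R2.SH
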