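import Pool.Agent.H643R2.SH.Meas
import Pool.Agent.H643R2.SH.Auto

/-! TASK D (helper911): cyclic automata with steps in `{-1,0,1}`. -/

namespace Pool.Agent.H643R2.SH

variable {α : Type}

namespace Cyc

theorem prunAppend1 {Q : Type} (δ : Q → α → Option Q) (q : Q) (u v : List α) :
    prun δ q (u ++ v) = (prun δ q u).bind fun q' => prun δ q' v := by
  induction u generalizing q with
  | nil => rfl
  | cons a u ih =>
    simp only [List.cons_append, prun]
    cases h : δ q a with
    | none => rfl
    | some q1 => simp [ih]

theorem sum_flatten (l : α → ℤ) (u : List α) (k : ℕ) :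
    ((List.replicate k u).flatten.map l).sum = k * (u.map l).sum := by
  induction k with
  | zero => simp
  | succ k ih =>
    rw [List.replicate_succ, List.flatten_cons, List.map_append, List.sum_append, ih]
    push_cast
    ring

theorem cf_of_potential {Q : Type} (δ : Q → α → Option Q) (S : Q → Prop) (Φ : Q → ℤ)
    (l l' : α → ℤ)
    (h1 : ∀ q a q', δ q a = some q' → S q → S q')
    (h2 : ∀ q a q', δ q a = some q' → S q → Φ q' = Φ q + l a)
    (h2' : ∀ q a q', δ q a = some q' → ¬ S q' → Φ q' = Φ q + l' a)
    (h3 : ∀ q q', (S q ↔ S q') → Φ q = Φ q' → q = q') : CounterFree δ := by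
  have A : ∀ (v : List α) (q q' : Q), prun δ q v = some q' → S q →
      S q' ∧ Φ q' = Φ q + (v.map l).sum := by
    intro v
    induction v with
    | nil =>
      intro q q' h hS
      simp only [prun, Option.some.injEq] at h
      subst h
      simp [hS]
    | cons a v ih =>
      intro q q' h hS
      simp only [prun] at h
      cases hq : δ q a with
      | none => rw [hq] at h; simp at h
      | some q1 =>
        rw [hq] at h
        simp only [Option.bind_some] at h
        obtain ⟨h4, h5⟩ := ih q1 q' h (h1 q a q1 hq hS)
        refine ⟨h4, ?_⟩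
        rw [h5, h2 q a q1 hq hS, List.map_cons, List.sum_cons]
        ring
  have B : ∀ (v : List α) (q q' : Q), prun δ q v = some q' → ¬ S q' →
      ¬ S q ∧ Φ q' = Φ q + (v.map l').sum := by
    intro v
    induction v with
    | nil =>
      intro q q' h hS
      simp only [prun, Option.some.injEq] at h
      subst h
      simp [hS]
    | cons a v ih =>
      intro q q' h hS
      simp only [prun] at h
      cases hq : δ q a with
      | none => rw [hq] at h; simp at h
      | some q1 =>
        rw [hq] at h
        simp only [Option.bind_some] at h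
        obtain ⟨h4, h5⟩ := ih q1 q' h hS
        refine ⟨fun h => h4 (h1 q a q1 hq h), ?_⟩
        rw [h5, h2' q a q1 hq h4, List.map_cons, List.sum_cons]
        ring
  intro u q k hk hrun
  obtain ⟨k, rfl⟩ : ∃ k', k = k' + 1 := ⟨k - 1, by omega⟩
  have hrun0 := hrun
  rw [List.replicate_succ, List.flatten_cons, prunAppend1] at hrun
  cases hu : prun δ q u with
  | none => rw [hu] at hrun; simp at hrun
  | some q1 =>
    rw [hu] at hrun
    simp only [Option.bind_some] at hrun
    congr 1
    by_cases hS : S q
    · obtain ⟨hS1, hΦ1⟩ := A u q q1 hu hS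
      obtain ⟨-, hΦ⟩ := A _ q q hrun0 hS
      rw [sum_flatten] at hΦ
      have h0 : ((k + 1 : ℕ) : ℤ) * (u.map l).sum = 0 := by linarith
      have h0' : (u.map l).sum = 0 := by
        rcases mul_eq_zero.1 h0 with h | h
        · exfalso; have : (k + 1 : ℕ) = 0 := by exact_mod_cast h
          omega
        · exact h
      exact h3 q1 q (by simp [hS, hS1]) (by rw [hΦ1, h0']; ring)
    · obtain ⟨hS1, -⟩ := B _ q1 q hrun hS
      obtain ⟨-, hΦ1⟩ := B u q q1 hu hS1
      obtain ⟨-, hΦ⟩ := B _ q q hrun0 hS
      rw [sum_flatten] at hΦ
      have h0 : ((k + 1 : ℕ) : ℤ) * (u.map l').sum = 0 := by linarith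
      have h0' : (u.map l').sum = 0 := by
        rcases mul_eq_zero.1 h0 with h | h
        · exfalso; have : (k + 1 : ℕ) = 0 := by exact_mod_cast h
          omega
        · exact h
      exact h3 q1 q (by simp [hS, hS1]) (by rw [hΦ1, h0']; ring)

theorem prun_mono {Q : Type} {δ1 δ2 : Q → α → Option Q}
    (h : ∀ q a q', δ1 q a = some q' → δ2 q a = some q') (w : List α) :
    ∀ q q', prun δ1 q w = some q' → prun δ2 q w = some q' := by
  induction w with
  | nil => intro q q' hw; exact hw
  | cons a w ih =>
    intro q q' hw
    simp only [prun] at hw ⊢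
    cases hq : δ1 q a with
    | none => rw [hq] at hw; simp at hw
    | some q1 =>
      rw [hq] at hw
      rw [h q a q1 hq]
      simp only [Option.bind_some] at hw ⊢
      exact ih q1 q' hw

theorem cf_mono {Q : Type} {δ1 δ2 : Q → α → Option Q}
    (h : ∀ q a q', δ1 q a = some q' → δ2 q a = some q') (hc : CounterFree δ2) :
    CounterFree δ1 := by
  intro u q k hk hrun
  have h2 := hc u q k hk (prun_mono h _ q q hrun)
  obtain ⟨k, rfl⟩ : ∃ k', k = k' + 1 := ⟨k - 1, by omega⟩
  rw [List.replicate_succ, List.flatten_cons, prunAppend1] at hrun
  cases hu : prun δ1 q u with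
  | none => rw [hu] at hrun; simp at hrun
  | some q1 =>
    have h3 := prun_mono h _ q q1 hu
    rw [h2] at h3
    exact h3.symm

theorem unmarked_eq_some {Q : Type} {δ : Q → α → Q} {mk : Q → α → Bool} {q : Q} {a : α} {q' : Q} :
    unmarked δ mk q a = some q' ↔ mk q a = false ∧ δ q a = q' := by
  unfold unmarked
  by_cases h : mk q a = true
  · simp [h]
  · simp [h]

theorem meas_cnt [Finite α] {Q : Type} [Finite Q] (δ : Q → α → Q) (mk : Q → α → Bool) (qs : Q)
    (hmk : ∀ q a, mk q a = true → δ q a = qs) (h : CounterFree (unmarked δ mk)) (q : Q) :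
    Meas (fun w => (cnt δ mk q w : ℤ)) := by
  intro m hm r
  have hE : {w : List α | (cnt δ mk q w : ℤ) ≡ r [ZMOD (m : ℤ)]} =
      {w | ∃ q' : Q, True ∧
        w ∈ {w : List α | cnt δ mk q w % m = (r % m).toNat ∧ w.foldl δ q = q'}} := by
    ext w
    simp only [Set.mem_ofPred_eq, true_and, exists_and_left, exists_eq', and_true]
    have h1 : ((cnt δ mk q w : ℤ)) % m = ((cnt δ mk q w % m : ℕ) : ℤ) := by
      rw [Int.natCast_mod]
    have h2 : 0 ≤ r % (m : ℤ) := Int.emod_nonneg _ (by omega)
    unfold Int.ModEq
    rw [h1]
    omega
  rw [hE]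
  exact HeightLE.biUnion _ fun q' _ => cnt_height δ mk qs hmk h m hm _ q q'

theorem cntAppend1 {Q : Type} (δ : Q → α → Q) (mk : Q → α → Bool) (w : List α) (a : α) :
    ∀ q, cnt δ mk q (w ++ [a]) = cnt δ mk q w + (if mk (w.foldl δ q) a then 1 else 0) := by
  induction w with
  | nil => intro q; by_cases h : mk q a = true <;> simp [cnt, h]
  | cons b w ih =>
    intro q
    by_cases h1 : mk q b = true <;> by_cases h2 : mk (List.foldl δ (δ q b) w) a = true <;>
      simp [cnt, ih, h1, h2, add_assoc]

theorem evAppend1 [DecidableEq α] (x : α) (g : List α → ℤ) (w : List α) (a : α) :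
    ev x g (w ++ [a]) = ev x g w + if a = x then g w else 0 := by
  unfold ev
  rw [List.length_append, List.length_singleton, Finset.sum_range_succ]
  congr 1
  · apply Finset.sum_congr rfl
    intro i hi
    rw [Finset.mem_range] at hi
    rw [List.getElem?_append_left hi, List.take_append_of_le_length hi.le]
  · simp

theorem evNil1 [DecidableEq α] (x : α) (g : List α → ℤ) : ev x g [] = 0 := by
  simp [ev]

/-- `val` along a step which does not wrap -/
theorem val_succ {N : ℕ} [NeZero N] (j : ZMod N) (h1 : j + 1 ≠ 0) :
    (j + 1).val = j.val + 1 := by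
  have h2 : j + 1 = ((j.val + 1 : ℕ) : ZMod N) := by
    push_cast
    rw [ZMod.natCast_zmod_val]
  have h3 : j.val < N := ZMod.val_lt j
  have h4 : j.val + 1 < N := by
    rcases Nat.lt_or_ge (j.val + 1) N with h | h
    · exact h
    · exfalso
      apply h1
      rw [h2, show j.val + 1 = N by omega, ZMod.natCast_self]
  rw [h2, ZMod.val_cast_of_lt h4]

end Cyc

open Cyc

theorem stepCount [Finite α] [DecidableEq α] (l : α → ℤ)
    (hl : ∀ a, l a = -1 ∨ l a = 0 ∨ l a = 1) (x : α) (hx : l x = 0) (N : ℕ) (hN : 0 < N)
    (s : ZMod N) :
    Meas (ev x (fun w => if (((w.map l).sum : ℤ) : ZMod N) = s then 1 else 0)) := by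
  have : NeZero N := ⟨by omega⟩
  have hfin : Finite (ZMod N) := inferInstance
  let δ : ZMod N → α → ZMod N := fun q a => q + ((l a : ℤ) : ZMod N)
  let mk1 : ZMod N → α → Bool := fun q a => decide (q + ((l a : ℤ) : ZMod N) = s ∧ (q ≠ s ∨ a = x))
  let mk2 : ZMod N → α → Bool := fun q a => decide (q + ((l a : ℤ) : ZMod N) = s ∧ q ≠ s)
  have hfold : ∀ w : List α, ∀ q, w.foldl δ q = q + (((w.map l).sum : ℤ) : ZMod N) := by
    intro w
    induction w with
    | nil => intro q; simp
    | cons a w ih =>
      intro q
      rw [List.foldl_cons, ih, List.map_cons, List.sum_cons]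
      simp only [δ]
      push_cast
      ring
  have key : ev x (fun w => if (((w.map l).sum : ℤ) : ZMod N) = s then 1 else 0) =
      fun w => (cnt δ mk1 0 w : ℤ) + -(cnt δ mk2 0 w : ℤ) := by
    funext w
    induction w using List.reverseRecOn with
    | nil => simp [evNil1, cnt]
    | append_singleton w a ih =>
      rw [evAppend1, ih, cntAppend1, cntAppend1, hfold, zero_add]
      set q : ZMod N := (((w.map l).sum : ℤ) : ZMod N) with hq
      by_cases hax : a = x
      · subst hax
        by_cases hqs : q = s
        · simp [mk1, mk2, hqs, hx]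
          try ring
        · simp [mk1, mk2, hqs, hx]
      · by_cases hqs : q = s
        · simp [mk1, mk2, hqs, hax]
        · simp [mk1, mk2, hqs, hax]
          try ring
  have hcf2 : CounterFree (unmarked δ mk2) := by
    apply cf_of_potential (unmarked δ mk2) (fun q => q ≠ s) (fun q => ((q - s).val : ℤ)) l
      (fun _ => 0)
    · intro q a q' h hS
      rw [unmarked_eq_some] at h
      obtain ⟨h1, h2⟩ := h
      simp only [mk2, decide_eq_false_iff_not, not_and, not_not] at h1
      intro h3
      exact hS (h1 (by rw [← h3, ← h2]))
    · intro q a q' h hS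
      rw [unmarked_eq_some] at h
      obtain ⟨h1, h2⟩ := h
      simp only [mk2, decide_eq_false_iff_not, not_and, not_not] at h1
      have h3 : q' ≠ s := fun h3 => hS (h1 (by rw [← h3, ← h2]))
      have h2' : q' = q + ((l a : ℤ) : ZMod N) := h2.symm
      rcases hl a with h4 | h4 | h4
      · rw [h4] at h2' ⊢
        have h5 : q - s = (q' - s) + 1 := by rw [h2']; push_cast; ring
        have h6 := val_succ (q' - s) (by rw [← h5]; exact sub_ne_zero.2 hS)
        rw [h5, h6]; push_cast; ring
      · rw [h4] at h2' ⊢
        have h5 : q' = q := by rw [h2']; simp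
        rw [h5]; ring
      · rw [h4] at h2' ⊢
        have h5 : q' - s = (q - s) + 1 := by rw [h2']; push_cast; ring
        have h6 := val_succ (q - s) (by rw [← h5]; exact sub_ne_zero.2 h3)
        rw [h5, h6]; push_cast; ring
    · intro q a q' h hS
      rw [unmarked_eq_some] at h
      obtain ⟨h1, h2⟩ := h
      simp only [mk2, decide_eq_false_iff_not, not_and, not_not] at h1
      rw [not_not] at hS
      have h3 : q = s := h1 (by rw [← hS, ← h2])
      rw [hS, h3]; ring
    · intro q q' _ h
      have h1 : (q - s).val = (q' - s).val := by exact_mod_cast h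
      have h2 := ZMod.val_injective N h1
      exact sub_left_injective h2
  have hcf1 : CounterFree (unmarked δ mk1) := by
    apply cf_mono _ hcf2
    intro q a q' h
    rw [unmarked_eq_some] at h ⊢
    refine ⟨?_, h.2⟩
    have h1 := h.1
    simp only [mk1, mk2, decide_eq_false_iff_not, not_and, not_not, not_or] at h1 ⊢
    exact fun h3 => (h1 h3).1
  rw [key]
  apply Meas.add
  · apply meas_cnt δ mk1 s _ hcf1 0
    intro q a h
    simp only [mk1, decide_eq_true_eq] at h
    exact h.1
  · apply Meas.neg
    apply meas_cnt δ mk2 s _ hcf2 0
    intro q a h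
    simp only [mk2, decide_eq_true_eq] at h
    exact h.1

namespace Cyc

/-- the level -/
def bb [DecidableEq α] (x z : α) (N : ℕ) (w : List α) : ZMod N :=
  (((w.count x : ℤ) - (w.count z : ℤ) : ℤ) : ZMod N)

/-- the last moving letter -/
def lst [DecidableEq α] (x z : α) (w : List α) : Option α :=
  w.foldl (fun o a => if a = x ∨ a = z then some a else o) none

theorem lst_append [DecidableEq α] (x z : α) (w : List α) (a : α) :
    lst x z (w ++ [a]) = if a = x ∨ a = z then some a else lst x z w := by
  simp [lst, List.foldl_append]

theorem bb_append [DecidableEq α] (x z : α) (hxz : x ≠ z) (N : ℕ) (w : List α) (a : α) :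
    bb x z N (w ++ [a]) = bb x z N w + (if a = x then 1 else if a = z then -1 else 0) := by
  unfold bb
  rw [List.count_append, List.count_append]
  by_cases h1 : a = x
  · subst h1
    simp [hxz]
    ring
  · by_cases h2 : a = z
    · subst h2
      simp [h1]
      ring
    · simp [h1, h2]

theorem pair_lemma [Finite α] [DecidableEq α] (x z : α) (hxz : x ≠ z) (N : ℕ) (hN : 2 ≤ N)
    (j0 : ZMod N) :
    Meas (ev x (fun w => if bb x z N w = j0 ∧ lst x z w = some z then 1 else 0)) := by
  have : NeZero N := ⟨by omega⟩
  have : Fact (1 < N) := ⟨by omega⟩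
  have hfin : Finite (Option (ZMod N)) := inferInstance
  have h10 : (1 : ZMod N) ≠ 0 := one_ne_zero
  let lev : Option (ZMod N) → ZMod N := fun q => q.getD j0
  let st : α → ZMod N := fun a => if a = x then 1 else if a = z then -1 else 0
  let δ : Option (ZMod N) → α → Option (ZMod N) := fun q a =>
    if a = x then some (lev q + 1) else
      if a = z then (if lev q - 1 = j0 then none else some (lev q - 1)) else q
  let mkA : Option (ZMod N) → α → Bool := fun q a =>
    decide ((a = x ∧ lev q = j0) ∨ (a = z ∧ lev q - 1 = j0 + 1))
  let mkB : Option (ZMod N) → α → Bool := fun q a =>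
    decide (((a = x ∧ lev q = j0) ∨ (a = z ∧ lev q - 1 = j0 + 1)) ∧ ¬ (q = none ∧ a = x))
  have hj : j0 + 1 ≠ j0 := by
    intro h
    exact h10 (by simpa using h)
  -- semantics of the state
  have hsem : ∀ w : List α, lev (w.foldl δ (some 0)) = bb x z N w ∧
      (w.foldl δ (some 0) = none ↔ (bb x z N w = j0 ∧ lst x z w = some z)) := by
    intro w
    induction w using List.reverseRecOn with
    | nil => simp [bb, lst, lev]
    | append_singleton w a ih =>
      obtain ⟨ih1, ih2⟩ := ih
      rw [List.foldl_append, List.foldl_cons, List.foldl_nil, bb_append x z hxz, lst_append]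
      set q := w.foldl δ (some 0) with hq
      by_cases h1 : a = x
      · subst h1
        simp only [δ, if_true]
        refine ⟨by simp [lev, ← ih1], ?_⟩
        simp [hxz]
      · by_cases h2 : a = z
        · subst h2
          simp only [δ, if_neg h1, if_true]
          by_cases h3 : lev q - 1 = j0
          · rw [if_pos h3]
            refine ⟨?_, ?_⟩
            · simp only [lev, Option.getD_none]
              rw [← h3, ih1]; ring
            · simp only [true_iff]
              refine ⟨?_, by simp⟩
              rw [← ih1, ← h3]; ring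
          · rw [if_neg h3]
            refine ⟨?_, ?_⟩
            · simp only [lev, Option.getD_some] at ih1 ⊢
              rw [ih1]; ring
            · simp only [reduceCtorEq, false_iff, not_and]
              intro h4
              exfalso
              apply h3
              rw [ih1, ← h4]; ring
        · simp only [δ, if_neg h1, if_neg h2, h1, h2, or_self, if_false, add_zero]
          exact ⟨ih1, ih2⟩
  have key : ev x (fun w => if bb x z N w = j0 ∧ lst x z w = some z then 1 else 0) =
      fun w => (cnt δ mkA (some 0) w : ℤ) + -(cnt δ mkB (some 0) w : ℤ) := by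
    funext w
    induction w using List.reverseRecOn with
    | nil => simp [evNil1, cnt]
    | append_singleton w a ih =>
      rw [evAppend1, ih, cntAppend1, cntAppend1]
      obtain ⟨h1, h2⟩ := hsem w
      set q := w.foldl δ (some 0) with hq
      by_cases hax : a = x
      · subst hax
        by_cases hqn : q = none
        · have h3 := h2.1 hqn
          have h4 : lev q = j0 := by rw [hqn]; rfl
          simp [mkA, mkB, hqn, h3, lev]; ring
        · have h3 : ¬ (bb a z N w = j0 ∧ lst a z w = some z) := fun h => hqn (h2.2 h)
          rw [if_neg h3]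
          by_cases h5 : lev q = j0
          · simp [mkA, mkB, hqn, h5]
          · simp [mkA, mkB, hqn, h5, hxz]
      · have : mkA q a = mkB q a := by
          simp [mkA, mkB, hax]
        rw [this]
        simp [hax]
  have hlevn : lev none = j0 := rfl
  have hB : ∀ q a, mkB q a = false → ((a = x ∧ lev q = j0) ∨ (a = z ∧ lev q - 1 = j0 + 1)) →
      (q = none ∧ a = x) := by
    intro q a h h'
    by_contra h''
    simp only [mkB, decide_eq_false_iff_not] at h
    exact h ⟨h', h''⟩
  have hcfB : CounterFree (unmarked δ mkB) := by
    let l : α → ℤ := fun a => if a = x then 1 else if a = z then -1 else 0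
    apply cf_of_potential (unmarked δ mkB) (fun q => ∃ j, q = some j ∧ j ≠ j0 + 1)
      (fun q => match q with
        | none => -1
        | some j => ((j - (j0 + 1)).val : ℤ)) l l
    · rintro q a q' h ⟨j, rfl, hj1⟩
      rw [unmarked_eq_some] at h
      obtain ⟨h1, h2⟩ := h
      replace h1 := hB _ _ h1
      by_cases hx : a = x
      · subst hx
        simp only [δ, if_true, lev, Option.getD_some] at h2
        refine ⟨j + 1, h2.symm, ?_⟩
        intro h3
        have h4 : j = j0 := by simpa using h3
        exact Option.some_ne_none _ (h1 (Or.inl ⟨rfl, by simpa [lev] using h4⟩)).1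
      · by_cases hz : a = z
        · subst hz
          simp only [δ, if_neg hx, if_true, lev, Option.getD_some] at h2
          have h3 : ¬ (j - 1 = j0) := by
            intro h3
            apply hj1
            rw [← h3]; ring
          rw [if_neg h3] at h2
          refine ⟨j - 1, h2.symm, ?_⟩
          intro h4
          exact Option.some_ne_none _ (h1 (Or.inr ⟨rfl, by simpa [lev] using h4⟩)).1
        · simp only [δ, if_neg hx, if_neg hz] at h2
          exact ⟨j, h2.symm, hj1⟩
    · rintro q a q' h ⟨j, rfl, hj1⟩
      rw [unmarked_eq_some] at h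
      obtain ⟨h1, h2⟩ := h
      replace h1 := hB _ _ h1
      by_cases hx : a = x
      · subst hx
        simp only [δ, if_true, lev, Option.getD_some] at h2
        have h4 : j ≠ j0 := fun h4 =>
          Option.some_ne_none _ (h1 (Or.inl ⟨rfl, by simpa [lev] using h4⟩)).1
        subst h2
        simp only [l, if_true]
        have h5 : j + 1 - (j0 + 1) = (j - (j0 + 1)) + 1 := by ring
        have h6 := val_succ (j - (j0 + 1)) (by
          rw [← h5]
          intro h7
          exact h4 (by simpa [sub_eq_zero] using h7))
        rw [h5, h6]; push_cast; ring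
      · by_cases hz : a = z
        · subst hz
          simp only [δ, if_neg hx, if_true, lev, Option.getD_some] at h2
          have h3 : ¬ (j - 1 = j0) := by
            intro h3
            apply hj1
            rw [← h3]; ring
          rw [if_neg h3] at h2
          subst h2
          simp only [l, if_neg hx, if_true]
          have h5 : j - (j0 + 1) = (j - 1 - (j0 + 1)) + 1 := by ring
          have h6 := val_succ (j - 1 - (j0 + 1)) (by
            rw [← h5]
            exact sub_ne_zero.2 hj1)
          rw [h5, h6]; push_cast; ring
        · simp only [δ, if_neg hx, if_neg hz] at h2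
          subst h2
          simp [l, hx, hz]
    · intro q a q' h hS
      rw [unmarked_eq_some] at h
      obtain ⟨h1, h2⟩ := h
      replace h1 := hB _ _ h1
      by_cases hx : a = x
      · subst hx
        simp only [δ, if_true] at h2
        subst h2
        have h3 : lev q + 1 = j0 + 1 := by
          by_contra h3
          exact hS ⟨_, rfl, h3⟩
        have h4 : lev q = j0 := by simpa using h3
        have h5 := h1 (Or.inl ⟨rfl, h4⟩)
        rw [h5.1]
        simp [l, lev]
      · by_cases hz : a = z
        · subst hz
          simp only [δ, if_neg hx, if_true] at h2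
          by_cases h3 : lev q - 1 = j0
          · rw [if_pos h3] at h2
            subst h2
            cases q with
            | none =>
              exfalso
              simp only [lev, Option.getD_none] at h3
              have : (1 : ZMod N) = 0 := by
                have h4 : j0 - 1 - j0 = 0 := by rw [h3]; ring
                have h5 : -(1 : ZMod N) = 0 := by rw [← h4]; ring
                simpa using h5
              exact h10 this
            | some j =>
              simp only [lev, Option.getD_some] at h3
              have h4 : j = j0 + 1 := by rw [← h3]; ring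
              subst h4
              simp [l, hx]
          · rw [if_neg h3] at h2
            subst h2
            exfalso
            have h4 : lev q - 1 = j0 + 1 := by
              by_contra h4
              exact hS ⟨_, rfl, h4⟩
            exact hx (h1 (Or.inr ⟨rfl, h4⟩)).2
        · simp only [δ, if_neg hx, if_neg hz] at h2
          subst h2
          simp [l, hx, hz]
    · intro q q' hiff hΦ
      cases q with
      | none =>
        cases q' with
        | none => rfl
        | some j' =>
          exfalso
          simp only at hΦ
          have : (0 : ℤ) ≤ ((j' - (j0 + 1)).val : ℤ) := by positivity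
          omega
      | some j =>
        cases q' with
        | none =>
          exfalso
          simp only at hΦ
          have : (0 : ℤ) ≤ ((j - (j0 + 1)).val : ℤ) := by positivity
          omega
        | some j' =>
          simp only at hΦ
          have h1 : (j - (j0 + 1)).val = (j' - (j0 + 1)).val := by exact_mod_cast hΦ
          have h2 := ZMod.val_injective N h1
          rw [sub_left_injective h2]
  have hcfA : CounterFree (unmarked δ mkA) := by
    apply cf_mono _ hcfB
    intro q a q' h
    rw [unmarked_eq_some] at h ⊢
    refine ⟨?_, h.2⟩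
    have h1 := h.1
    simp only [mkA, mkB, decide_eq_false_iff_not, not_and, not_not] at h1 ⊢
    exact fun h3 => absurd h3 h1
  have henter : ∀ q a, mkA q a = true → δ q a = some (j0 + 1) := by
    intro q a h
    simp only [mkA, decide_eq_true_eq] at h
    rcases h with ⟨h1, h2⟩ | ⟨h1, h2⟩
    · simp only [δ, if_pos h1, h2]
    · have hx : ¬ a = x := by rw [h1]; exact hxz.symm
      simp only [δ, if_neg hx, if_pos h1, h2, if_neg hj]
  rw [key]
  apply Meas.add
  · exact meas_cnt δ mkA (some (j0 + 1)) henter hcfA _
  · apply Meas.neg
    apply meas_cnt δ mkB (some (j0 + 1)) _ hcfB _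
    intro q a h
    apply henter q a
    simp only [mkA, mkB, decide_eq_true_eq] at h ⊢
    exact h.1

theorem meas_count [Finite α] [DecidableEq α] (x : α) :
    Meas (fun w : List α => (w.count x : ℤ)) := by
  have key : (fun w : List α => (w.count x : ℤ)) =
      fun w => (cnt (fun (_ : Unit) (_ : α) => ()) (fun _ a => decide (a = x)) () w : ℤ) := by
    funext w
    congr 1
    induction w with
    | nil => rfl
    | cons a w ih =>
      rw [List.count_cons, ih]
      by_cases h : a = x
      · simp [cnt, h]; omega
      · simp [cnt, h]
  rw [key]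
  apply meas_cnt _ _ ()
  · intro q a _; rfl
  · apply cf_of_potential _ (fun _ => True) (fun _ => 0) (fun _ => 0) (fun _ => 0)
    · intros; trivial
    · intros; rfl
    · intro q a q' _ h; exact absurd trivial h
    · intros; rfl

theorem lst_cases [DecidableEq α] (x z : α) (w : List α) :
    lst x z w = none ∨ lst x z w = some x ∨ lst x z w = some z := by
  induction w using List.reverseRecOn with
  | nil => left; rfl
  | append_singleton w a ih =>
    rw [lst_append]
    by_cases h : a = x ∨ a = z
    · rw [if_pos h]
      rcases h with h | h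
      · right; left; rw [h]
      · right; right; rw [h]
    · rw [if_neg h]; exact ih

theorem identity [DecidableEq α] (x z : α) (hxz : x ≠ z) (N : ℕ) (s : ZMod N) (w : List α) :
    ev x (fun w => if bb x z N w = s then 1 else 0) w -
      ev x (fun w => if bb x z N w = s + 1 then 1 else 0) w =
    ev z (fun w => if bb x z N w = s + 1 ∧ lst x z w = some x then 1 else 0) w +
      (if bb x z N w = s + 1 ∧ lst x z w = some x then 1 else 0) -
      ev x (fun w => if bb x z N w = s + 1 ∧ lst x z w = some z then 1 else 0) w -
      ev x (fun w => if bb x z N w = s + 1 ∧ lst x z w = none then 1 else 0) w := by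
  induction w using List.reverseRecOn with
  | nil => simp [evNil1, lst]
  | append_singleton w a ih =>
    rw [evAppend1, evAppend1, evAppend1, evAppend1, evAppend1, lst_append, bb_append x z hxz]
    by_cases h1 : a = x
    · subst h1
      simp only [if_true, true_or, if_neg hxz, and_true, add_left_inj, add_zero]
      rcases lst_cases a z w with h | h | h
      · rw [h] at ih ⊢
        simp only [reduceCtorEq, and_false, if_false, and_true] at ih ⊢
        linarith
      · rw [h] at ih ⊢
        have h2 : ¬ (a = z) := hxz
        simp only [Option.some.injEq, h2, reduceCtorEq, and_false, if_false, and_true] at ih ⊢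
        linarith
      · rw [h] at ih ⊢
        have h2 : ¬ (z = a) := fun h => hxz h.symm
        simp only [Option.some.injEq, h2, reduceCtorEq, and_false, if_false, and_true] at ih ⊢
        linarith
    · by_cases h2 : a = z
      · subst h2
        simp only [if_neg h1, if_true, or_true, Option.some.injEq, h1, and_false, if_false,
          add_zero]
        linarith
      · simp only [if_neg h1, if_neg h2, h1, h2, or_self, if_false, add_zero]
        exact ih

/-- all words, as a language -/
def LU (α : Type) : Language α := (Set.univ : Set (List α))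

/-- the word `x`, as a language -/
def LX (x : α) : Language α := ({[x]} : Set (List α))

/-- words without moving letters -/
def Fix (x z : α) : Set (List α) := {w | ∀ a ∈ w, a ≠ x ∧ a ≠ z}

/-- words without moving letters, as a language -/
def LF (x z : α) : Language α := Fix x z

theorem height_has (h : ℕ) (x : α) : HeightLE h ({w : List α | x ∈ w} : Set (List α)) := by
  have h1 := ((HeightLE.univ (α := α) h).mul (HeightLE.char h x)).mul (HeightLE.univ (α := α) h)
  have h2 : ({w : List α | x ∈ w} : Set (List α)) =
      (LU α * LX x * LU α : Language α) := by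
    ext w
    constructor
    · intro hw
      obtain ⟨u, v, rfl⟩ := List.append_of_mem hw
      exact ⟨u ++ [x], ⟨u, Set.mem_univ _, [x], rfl, rfl⟩, v, Set.mem_univ _, by simp⟩
    · rintro ⟨u', ⟨u, -, y, hy, rfl⟩, v, -, rfl⟩
      have hy' : y = [x] := hy
      subst hy'
      show x ∈ (u ++ [x] ++ v : List α)
      simp
  rw [h2]
  exact h1

theorem height_fix (h : ℕ) (x z : α) : HeightLE h (Fix x z) := by
  have h1 := ((height_has h x).union (height_has h z)).compl
  have h2 : Fix x z =
      (((({w : List α | x ∈ w} : Set (List α)) : Language α) ⊔ ({w : List α | z ∈ w} : Set (List α)) :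
        Language α)ᶜ : Language α) := by
    show _ = ((({w : List α | x ∈ w} : Set (List α)) ∪ {w : List α | z ∈ w})ᶜ : Set (List α))
    ext w
    simp only [Fix, Set.mem_ofPred_eq, Set.mem_compl_iff, Set.mem_union, not_or]
    constructor
    · intro hw
      exact ⟨fun hx => (hw x hx).1 rfl, fun hz => (hw z hz).2 rfl⟩
    · rintro ⟨h3, h4⟩ a ha
      exact ⟨fun h => h3 (h ▸ ha), fun h => h4 (h ▸ ha)⟩
  rw [h2]
  exact h1

theorem lst_none [DecidableEq α] (x z : α) (w : List α) : lst x z w = none ↔ w ∈ Fix x z := by
  induction w using List.reverseRecOn with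
  | nil => simp [lst, Fix]
  | append_singleton w a ih =>
    rw [lst_append]
    by_cases h : a = x ∨ a = z
    · rw [if_pos h]
      simp only [reduceCtorEq, false_iff]
      intro hw
      have := hw a (by simp)
      tauto
    · rw [if_neg h, ih]
      rw [not_or] at h
      constructor
      · intro hw b hb
        rw [List.mem_append, List.mem_singleton] at hb
        rcases hb with hb | rfl
        · exact hw b hb
        · exact h
      · intro hw b hb
        exact hw b (by simp [hb])

theorem lst_some [DecidableEq α] (x z : α) (w : List α) :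
    lst x z w = some x ↔ ∃ u v, v ∈ Fix x z ∧ w = u ++ x :: v := by
  induction w using List.reverseRecOn with
  | nil => simp [lst]
  | append_singleton w a ih =>
    rw [lst_append]
    constructor
    · intro h
      by_cases h1 : a = x ∨ a = z
      · rw [if_pos h1, Option.some.injEq] at h
        subst h
        exact ⟨w, [], by simp [Fix], rfl⟩
      · rw [if_neg h1, ih] at h
        obtain ⟨u, v, hv, rfl⟩ := h
        refine ⟨u, v ++ [a], ?_, by simp⟩
        intro b hb
        rw [List.mem_append, List.mem_singleton] at hb
        rcases hb with hb | rfl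
        · exact hv b hb
        · exact not_or.1 h1
    · rintro ⟨u, v, hv, h⟩
      rcases List.eq_nil_or_concat v with rfl | ⟨v', b, rfl⟩
      · have h2 := List.append_inj_right' h (by simp)
        have h3 : a = x := by simpa using h2
        simp [h3]
      · have h2 : w ++ [a] = (u ++ x :: v') ++ [b] := by rw [h]; simp
        have h3 := List.append_inj_left' h2 (by simp)
        have h4 := List.append_inj_right' h2 (by simp)
        have h5 : a = b := by simpa using h4
        subst h5
        have h6 := hv a (by simp)
        have h7 : ¬ (a = x ∨ a = z) := not_or.2 h6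
        rw [if_neg h7, ih]
        exact ⟨u, v', fun c hc => hv c (by simp [hc]), h3⟩

theorem height_lst [DecidableEq α] (h : ℕ) (x z : α) :
    HeightLE h ({w : List α | lst x z w = some x} : Set (List α)) := by
  have h1 := ((HeightLE.univ (α := α) h).mul (HeightLE.char h x)).mul (height_fix h x z)
  have h2 : ({w : List α | lst x z w = some x} : Set (List α)) =
      (LU α * LX x * LF x z : Language α) := by
    ext w
    constructor
    · intro hw
      obtain ⟨u, v, hv, rfl⟩ := (lst_some x z w).1 hw
      exact ⟨u ++ [x], ⟨u, Set.mem_univ _, [x], rfl, rfl⟩, v, hv, by simp⟩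
    · rintro ⟨u', ⟨u, -, y, hy, rfl⟩, v, hv, rfl⟩
      have hy' : y = [x] := hy
      subst hy'
      exact (lst_some x z _).2 ⟨u, v, hv, by simp⟩
  rw [h2]
  exact h1

/-- words whose first moving letter is `x` -/
def Fst (x z : α) : Set (List α) := {w | ∃ u v, u ∈ Fix x z ∧ w = u ++ x :: v}

theorem height_fst (h : ℕ) (x z : α) : HeightLE h (Fst x z) := by
  have h1 := ((height_fix h x z).mul (HeightLE.char h x)).mul (HeightLE.univ (α := α) h)
  have h2 : Fst x z =
      (LF x z * LX x * LU α : Language α) := by
    ext w
    constructor
    · rintro ⟨u, v, hu, rfl⟩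
      exact ⟨u ++ [x], ⟨u, hu, [x], rfl, rfl⟩, v, Set.mem_univ _, by simp⟩
    · rintro ⟨u', ⟨u, hu, y, hy, rfl⟩, v, -, rfl⟩
      have hy' : y = [x] := hy
      subst hy'
      exact ⟨u, v, hu, by simp⟩
  rw [h2]
  exact h1

theorem fst_append (x z : α) (w : List α) (a : α) :
    w ++ [a] ∈ Fst x z ↔ w ∈ Fst x z ∨ (a = x ∧ w ∈ Fix x z) := by
  constructor
  · rintro ⟨u, v, hu, h⟩
    rcases List.eq_nil_or_concat v with rfl | ⟨v', b, rfl⟩
    · right
      have h2 := List.append_inj_right' h (by simp)
      have h3 := List.append_inj_left' h (by simp)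
      exact ⟨by simpa using h2, h3 ▸ hu⟩
    · left
      have h2 : w ++ [a] = (u ++ x :: v') ++ [b] := by rw [h]; simp
      exact ⟨u, v', hu, List.append_inj_left' h2 (by simp)⟩
  · rintro (⟨u, v, hu, rfl⟩ | ⟨rfl, h⟩)
    · exact ⟨u, v ++ [a], hu, by simp⟩
    · exact ⟨w, [], h, rfl⟩

theorem fst_not_fix (x z : α) (w : List α) (h : w ∈ Fst x z) : w ∉ Fix x z := by
  obtain ⟨u, v, _, rfl⟩ := h
  intro h
  exact (h x (by simp)).1 rfl

theorem bb_fix [DecidableEq α] (x z : α) (N : ℕ) (w : List α) (h : w ∈ Fix x z) :
    bb x z N w = 0 := by
  unfold bb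
  have h1 : w.count x = 0 := List.count_eq_zero.2 fun hx => (h x hx).1 rfl
  have h2 : w.count z = 0 := List.count_eq_zero.2 fun hz => (h z hz).2 rfl
  simp [h1, h2]

open Classical in
theorem first_eq [DecidableEq α] (x z : α) (N : ℕ) (s : ZMod N) (w : List α) :
    ev x (fun w => if bb x z N w = s ∧ lst x z w = none then 1 else 0) w =
      if 0 = s then (if w ∈ Fst x z then 1 else 0) else 0 := by
  induction w using List.reverseRecOn with
  | nil =>
    have : ([] : List α) ∉ Fst x z := by
      rintro ⟨u, v, _, h⟩
      simp at h
    simp [evNil1, this]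
  | append_singleton w a ih =>
    rw [evAppend1, ih]
    by_cases hs : (0 : ZMod N) = s
    · simp only [if_pos hs]
      by_cases ha : a = x
      · rw [if_pos ha]
        by_cases hw : w ∈ Fix x z
        · have h1 : w ∉ Fst x z := fun h => fst_not_fix x z w h hw
          have h2 : w ++ [a] ∈ Fst x z := (fst_append x z w a).2 (Or.inr ⟨ha, hw⟩)
          rw [if_neg h1, if_pos h2, if_pos ⟨by rw [bb_fix x z N w hw, hs], (lst_none x z w).2 hw⟩]
          rfl
        · have h1 : ¬ (bb x z N w = s ∧ lst x z w = none) := fun h => hw ((lst_none x z w).1 h.2)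
          rw [if_neg h1, add_zero]
          have h2 : (w ++ [a] ∈ Fst x z) = (w ∈ Fst x z) := by
            rw [fst_append]; simp [hw]
          simp only [h2]
      · rw [if_neg ha, add_zero]
        have h2 : (w ++ [a] ∈ Fst x z) = (w ∈ Fst x z) := by
          rw [fst_append]; simp [ha]
        simp only [h2]
    · simp only [if_neg hs, zero_add]
      split_ifs with h1 h2
      · exfalso
        apply hs
        rw [← h2.1, bb_fix x z N w ((lst_none x z w).1 h2.2)]
      · rfl
      · rfl

theorem meas_zero [Finite α] : Meas (fun _ : List α => (0 : ℤ)) := Meas.const 0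

theorem height_bb [Finite α] [DecidableEq α] (x z : α) (N : ℕ) (hN : 0 < N) (s : ZMod N) :
    HeightLE 1 ({w : List α | bb x z N w = s} : Set (List α)) := by
  have : NeZero N := ⟨by omega⟩
  have h1 := ((meas_count x).add (meas_count z).neg) N hN (s.val : ℤ)
  have h2 : ({w : List α | bb x z N w = s} : Set (List α)) =
      {w : List α | (w.count x : ℤ) + -(w.count z : ℤ) ≡ (s.val : ℤ) [ZMOD (N : ℤ)]} := by
    ext w
    show bb x z N w = s ↔ _ ≡ _ [ZMOD _]
    unfold bb
    rw [← ZMod.intCast_eq_intCast_iff, Int.cast_natCast, ZMod.natCast_zmod_val]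
    rfl
  rw [h2]
  exact h1

open Classical in
theorem meas_diff1 [Finite α] [DecidableEq α] (x z : α) (hxz : x ≠ z) (N : ℕ) (hN : 2 ≤ N)
    (s : ZMod N) :
    Meas (fun w => ev x (fun w => if bb x z N w = s then 1 else 0) w -
      ev x (fun w => if bb x z N w = s + 1 then 1 else 0) w) := by
  have h0 : (fun w => ev x (fun w => if bb x z N w = s then 1 else 0) w -
      ev x (fun w => if bb x z N w = s + 1 then 1 else 0) w) =
      fun w => ((ev z (fun w => if bb z x N w = -(s + 1) ∧ lst z x w = some x then 1 else 0) w +
      (if w ∈ ({w : List α | bb x z N w = s + 1} : Set (List α)) then 1 else 0) *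
        (if w ∈ ({w : List α | lst x z w = some x} : Set (List α)) then 1 else 0)) +
      -ev x (fun w => if bb x z N w = s + 1 ∧ lst x z w = some z then 1 else 0) w) +
      -(if 0 = s + 1 then (if w ∈ Fst x z then 1 else 0) else 0) := by
    funext w
    rw [identity x z hxz, first_eq]
    have h1 : ∀ w : List α, bb z x N w = - bb x z N w := by
      intro w; unfold bb; push_cast; ring
    have h2 : ∀ w : List α, lst z x w = lst x z w := by
      intro w; unfold lst; congr 1; funext o a
      simp only [or_comm]
    have h3 : (fun w : List α => if bb z x N w = -(s + 1) ∧ lst z x w = some x then (1 : ℤ) else 0) =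
        (fun w : List α => if bb x z N w = s + 1 ∧ lst x z w = some x then (1 : ℤ) else 0) := by
      funext w
      rw [h1, h2]
      simp only [neg_inj]
    rw [h3]
    have h4 : (if bb x z N w = s + 1 ∧ lst x z w = some x then (1 : ℤ) else 0) =
        (if w ∈ ({w : List α | bb x z N w = s + 1} : Set (List α)) then 1 else 0) *
        (if w ∈ ({w : List α | lst x z w = some x} : Set (List α)) then 1 else 0) := by
      simp only [Set.mem_ofPred_eq]
      by_cases h5 : bb x z N w = s + 1 <;> by_cases h6 : lst x z w = some x <;> simp [h5, h6]
    rw [h4]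
    ring
  rw [h0]
  refine Meas.add (Meas.add (Meas.add ?_ (Meas.mul ?_ ?_)) (Meas.neg ?_)) (Meas.neg ?_)
  · exact pair_lemma z x hxz.symm N hN _
  · exact Meas.indicator (height_bb x z N (by omega) (s + 1))
  · exact Meas.indicator (height_lst 1 x z)
  · exact pair_lemma x z hxz N hN _
  · by_cases h : (0 : ZMod N) = s + 1
    · simp only [if_pos h]
      exact Meas.indicator (height_fst 1 x z)
    · simp only [if_neg h]
      exact Meas.const 0

theorem meas_diff [Finite α] [DecidableEq α] (x z : α) (hxz : x ≠ z) (N : ℕ) (hN : 2 ≤ N)
    (s : ZMod N) (j : ℕ) :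
    Meas (fun w => ev x (fun w => if bb x z N w = s then 1 else 0) w -
      ev x (fun w => if bb x z N w = s + j then 1 else 0) w) := by
  induction j with
  | zero =>
    simp only [Nat.cast_zero, add_zero, sub_self]
    exact Meas.const 0
  | succ j ih =>
    have h := ih.add (meas_diff1 x z hxz N hN (s + j))
    convert h using 2
    push_cast
    rw [← add_assoc]
    ring

theorem sum_ev [DecidableEq α] (x z : α) (N : ℕ) [NeZero N] (w : List α) :
    ∑ t : ZMod N, ev x (fun w => if bb x z N w = t then 1 else 0) w = w.count x := by
  induction w using List.reverseRecOn with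
  | nil => simp [evNil1]
  | append_singleton w a ih =>
    simp only [evAppend1]
    rw [Finset.sum_add_distrib, ih, List.count_append]
    by_cases h : a = x
    · simp [h]
    · simp [h]

end Cyc

theorem movingCount [Finite α] [DecidableEq α] (x z : α) (hxz : x ≠ z) (N : ℕ) (hN : 0 < N)
    (s : ZMod N) :
    Meas (ev x (fun w => if (((w.count x : ℤ) - (w.count z : ℤ) : ℤ) : ZMod N) = s
      then 1 else 0)) := by
  have : NeZero N := ⟨by omega⟩
  change Meas (ev x (fun w => if bb x z N w = s then 1 else 0))
  rcases Nat.lt_or_ge N 2 with h | h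
  · obtain rfl : N = 1 := by omega
    have h1 : (ev x (fun w => if bb x z 1 w = s then 1 else 0)) = fun w => (w.count x : ℤ) := by
      funext w
      rw [← sum_ev x z 1 w]
      symm
      apply Fintype.sum_eq_single s
      intro t ht
      exact absurd (Subsingleton.elim t s) ht
    rw [h1]
    exact meas_count x
  · apply Meas.of_mul (N : ℤ) (by omega)
    have h1 : (fun w => (N : ℤ) * ev x (fun w => if bb x z N w = s then 1 else 0) w) =
        fun w => (∑ t : ZMod N, (ev x (fun w => if bb x z N w = s then 1 else 0) w -
          ev x (fun w => if bb x z N w = t then 1 else 0) w)) + (w.count x : ℤ) := by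
      funext w
      rw [Finset.sum_sub_distrib, sum_ev x z N w, Finset.sum_const, Finset.card_univ, ZMod.card,
        nsmul_eq_mul]
      ring
    rw [h1]
    apply Meas.add _ (meas_count x)
    apply Meas.sum
    intro t _
    have h2 := meas_diff x z hxz N h s (t - s).val
    rw [ZMod.natCast_zmod_val, add_sub_cancel] at h2
    exact h2

end Pool.Agent.H643R2.SH
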