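import Mathlib

/-! # Generalized regular expressions and generalized star height -/

namespace Pool.Agent.H643R2.SH

/-- Generalized regular expressions over `α`. -/
inductive GRE (α : Type) : Type
  | zero : GRE α
  | one : GRE α
  | char (a : α) : GRE α
  | union (E F : GRE α) : GRE α
  | inter (E F : GRE α) : GRE α
  | cat (E F : GRE α) : GRE α
  | compl (E : GRE α) : GRE α
  | star (E : GRE α) : GRE α

variable {α : Type}

/-- Star height of a generalized regular expression. -/
def GRE.height : GRE α → ℕ
  | .zero => 0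
  | .one => 0
  | .char _ => 0
  | .union E F => max E.height F.height
  | .inter E F => max E.height F.height
  | .cat E F => max E.height F.height
  | .compl E => E.height
  | .star E => E.height + 1

/-- The language denoted by a generalized regular expression (complement taken in `α*`). -/
def GRE.lang : GRE α → Language α
  | .zero => 0
  | .one => 1
  | .char a => {[a]}
  | .union E F => E.lang ⊔ F.lang
  | .inter E F => E.lang ⊓ F.lang
  | .cat E F => E.lang * F.lang
  | .compl E => E.langᶜ
  | .star E => KStar.kstar E.lang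

/-- `L` is denoted by a generalized regular expression of star height at most `h`. -/
def HeightLE (h : ℕ) (L : Language α) : Prop :=
  ∃ E : GRE α, E.height ≤ h ∧ E.lang = L

theorem HeightLE.mono {h k : ℕ} {L : Language α} (hL : HeightLE h L) (hk : h ≤ k) :
    HeightLE k L := by
  obtain ⟨E, h1, h2⟩ := hL
  exact ⟨E, h1.trans hk, h2⟩

theorem HeightLE.empty (h : ℕ) : HeightLE h (∅ : Set (List α)) :=
  ⟨.zero, Nat.zero_le _, rfl⟩

theorem HeightLE.nil (h : ℕ) : HeightLE h ({[]} : Set (List α)) :=
  ⟨.one, Nat.zero_le _, rfl⟩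

theorem HeightLE.char (h : ℕ) (a : α) : HeightLE h ({[a]} : Set (List α)) :=
  ⟨.char a, Nat.zero_le _, rfl⟩

theorem HeightLE.compl {h : ℕ} {L : Language α} (hL : HeightLE h L) : HeightLE h Lᶜ := by
  obtain ⟨E, h1, h2⟩ := hL
  exact ⟨.compl E, h1, by simp [GRE.lang, h2]⟩

theorem HeightLE.union {h : ℕ} {L K : Language α} (hL : HeightLE h L) (hK : HeightLE h K) :
    HeightLE h (L ⊔ K) := by
  obtain ⟨E, h1, h2⟩ := hL
  obtain ⟨F, h3, h4⟩ := hK
  exact ⟨.union E F, max_le h1 h3, by simp [GRE.lang, h2, h4]⟩

theorem HeightLE.inter {h : ℕ} {L K : Language α} (hL : HeightLE h L) (hK : HeightLE h K) :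
    HeightLE h (L ⊓ K) := by
  obtain ⟨E, h1, h2⟩ := hL
  obtain ⟨F, h3, h4⟩ := hK
  exact ⟨.inter E F, max_le h1 h3, by simp [GRE.lang, h2, h4]⟩

theorem HeightLE.mul {h : ℕ} {L K : Language α} (hL : HeightLE h L) (hK : HeightLE h K) :
    HeightLE h (L * K) := by
  obtain ⟨E, h1, h2⟩ := hL
  obtain ⟨F, h3, h4⟩ := hK
  exact ⟨.cat E F, max_le h1 h3, by simp [GRE.lang, h2, h4]⟩

theorem HeightLE.kstar {h : ℕ} {L : Language α} (hL : HeightLE h L) :
    HeightLE (h + 1) (KStar.kstar L) := by
  obtain ⟨E, h1, h2⟩ := hL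
  exact ⟨.star E, by simpa [GRE.height] using h1, by simp [GRE.lang, h2]⟩

theorem HeightLE.univ (h : ℕ) : HeightLE h (Set.univ : Set (List α)) := by
  obtain ⟨E, h1, h2⟩ := HeightLE.empty (α := α) h
  refine ⟨.compl E, h1, ?_⟩
  show (E.lang)ᶜ = _
  rw [h2]
  exact Set.compl_empty

theorem HeightLE.pow {h : ℕ} {L : Language α} (hL : HeightLE h L) (n : ℕ) :
    HeightLE h (L ^ n) := by
  induction n with
  | zero => rw [pow_zero]; exact HeightLE.nil h
  | succ n ih => rw [pow_succ]; exact ih.mul hL

/-- Finite unions. -/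
theorem HeightLE.iUnion {h : ℕ} {ι : Type*} [Finite ι] {L : ι → Set (List α)}
    (hL : ∀ i, HeightLE h (L i)) : HeightLE h (⋃ i, L i) := by
  classical
  have key : ∀ s : Finset ι, HeightLE h (⋃ i ∈ s, L i) := by
    intro s
    induction s using Finset.induction_on with
    | empty => simpa using HeightLE.empty (α := α) h
    | insert a s ha ih =>
      rw [Finset.set_biUnion_insert]
      exact (hL a).union ih
  have := Fintype.ofFinite ι
  simpa using key Finset.univ

/-- Finite intersections. -/
theorem HeightLE.iInter {h : ℕ} {ι : Type*} [Finite ι] {L : ι → Set (List α)}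
    (hL : ∀ i, HeightLE h (L i)) : HeightLE h (⋂ i, L i) := by
  have := (HeightLE.iUnion (fun i => (hL i).compl)).compl
  have h2 : (((⋃ i, ((L i : Language α)ᶜ : Set (List α)) : Set (List α)) : Language α)ᶜ) =
      (⋂ i, L i : Set (List α)) := by
    show (⋃ i, (L i)ᶜ)ᶜ = ⋂ i, L i
    simp [Set.compl_iUnion]
  rw [← h2]
  exact this

/-- A finite union of members of a family, indexed by a predicate. -/
theorem HeightLE.biUnion {h : ℕ} {ι : Type*} [Finite ι] {L : ι → Set (List α)} (P : ι → Prop)
    (hL : ∀ i, P i → HeightLE h (L i)) : HeightLE h {w | ∃ i, P i ∧ w ∈ L i} := by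
  classical
  have : {w | ∃ i, P i ∧ w ∈ L i} = ⋃ i, (if P i then L i else ∅) := by
    ext w
    simp only [Set.mem_iUnion]
    constructor
    · rintro ⟨i, hi, hw⟩
      exact ⟨i, by simpa [hi] using hw⟩
    · rintro ⟨i, hw⟩
      by_cases hi : P i
      · exact ⟨i, hi, by simpa [hi] using hw⟩
      · simp [hi] at hw
  rw [this]
  apply HeightLE.iUnion
  intro i
  by_cases hi : P i
  · simpa [hi] using hL i hi
  · simpa [hi] using HeightLE.empty (α := α) h

/-- Number of marked edges `mk q a = true` on the path of the word from `q`. -/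
def cnt {Q : Type} (δ : Q → α → Q) (mk : Q → α → Bool) : Q → List α → ℕ
  | _, [] => 0
  | q, a :: w => (if mk q a then 1 else 0) + cnt δ mk (δ q a) w

/-- Run of a deterministic automaton with missing edges. -/
def prun {Q : Type} (δ : Q → α → Option Q) : Q → List α → Option Q
  | q, [] => some q
  | q, a :: w => (δ q a).bind fun q' => prun δ q' w

/-- No word induces a nontrivial cycle of states. -/
def CounterFree {Q : Type} (δ : Q → α → Option Q) : Prop :=
  ∀ (w : List α) (q : Q) (k : ℕ), 0 < k →
    prun δ q (List.replicate k w).flatten = some q → prun δ q w = some q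

/-- The automaton left after deleting the marked edges. -/
def unmarked {Q : Type} (δ : Q → α → Q) (mk : Q → α → Bool) : Q → α → Option Q :=
  fun q a => if mk q a then none else some (δ q a)

/-- `f` has all its residue languages of generalized star height at most one. -/
def Meas (f : List α → ℤ) : Prop :=
  ∀ m : ℕ, 0 < m → ∀ r : ℤ, HeightLE 1 {w : List α | f w ≡ r [ZMOD (m : ℤ)]}

/-- Sum of `g (w_1 … w_{i-1})` over the positions `i` of `w` with `w_i = x`. -/
def ev [DecidableEq α] (x : α) (g : List α → ℤ) (w : List α) : ℤ :=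
  ∑ i ∈ Finset.range w.length, if w[i]? = some x then g (w.take i) else 0

end Pool.Agent.H643R2.SH
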