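import Pool.Agent.H643R2.SH.Meas

/-! # Languages recognised by abelian-by-elementary-abelian groups -/

namespace Pool.Agent.H643R2.SH

variable {α : Type}

namespace Elem

/-- `ev` after appending a letter -/
theorem ev_concat [DecidableEq α] (x : α) (g : List α → ℤ) (w : List α) (y : α) :
    ev x g (w ++ [y]) = ev x g w + (if y = x then g w else 0) := by
  unfold ev
  rw [List.length_append, List.length_singleton, Finset.sum_range_succ]
  congr 1
  · apply Finset.sum_congr rfl
    intro i hi
    rw [Finset.mem_range] at hi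
    rw [List.getElem?_append_left hi, List.take_append_of_le_length hi.le]
  · rw [List.getElem?_append_right (le_refl _)]
    simp

theorem ev_nil [DecidableEq α] (x : α) (g : List α → ℤ) : ev x g [] = 0 := by
  simp [ev]

theorem ev_add [DecidableEq α] (x : α) (g h : List α → ℤ) (w : List α) :
    ev x (fun w => g w + h w) w = ev x g w + ev x h w := by
  unfold ev
  rw [← Finset.sum_add_distrib]
  apply Finset.sum_congr rfl
  intro i _
  split_ifs <;> simp

theorem ev_smul [DecidableEq α] (x : α) (c : ℤ) (g : List α → ℤ) (w : List α) :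
    ev x (fun w => c * g w) w = c * ev x g w := by
  unfold ev
  rw [Finset.mul_sum]
  apply Finset.sum_congr rfl
  intro i _
  split_ifs <;> simp

theorem ev_sum [DecidableEq α] {ι : Type*} (s : Finset ι) (x : α) (g : ι → List α → ℤ)
    (w : List α) : ev x (fun w => ∑ i ∈ s, g i w) w = ∑ i ∈ s, ev x (g i) w := by
  unfold ev
  rw [Finset.sum_comm]
  apply Finset.sum_congr rfl
  intro i _
  split_ifs <;> simp

theorem finite_dual (p : ℕ) [Fact p.Prime] {V : Type} [AddCommGroup V] [Module (ZMod p) V]
    [Finite V] : Finite (Module.Dual (ZMod p) V) :=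
  Finite.of_injective (fun (χ : Module.Dual (ZMod p) V) (v : V) => χ v)
    (fun _ _ h => LinearMap.ext fun v => congrFun h v)

/-- the number of linear forms vanishing at a nonzero vector -/
theorem card_dual (p : ℕ) [Fact p.Prime] {V : Type} [AddCommGroup V] [Module (ZMod p) V] [Finite V]
    (v : V) (hv : v ≠ 0) :
    p * Nat.card {χ : Module.Dual (ZMod p) V // χ v = 0} = Nat.card (Module.Dual (ZMod p) V) := by
  have h1 : ∃ χ0 : Module.Dual (ZMod p) V, χ0 v = 1 := by
    by_contra hcon
    push Not at hcon
    apply hv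
    rw [← Module.forall_dual_apply_eq_zero_iff (ZMod p)]
    intro χ
    by_contra hχ
    apply hcon ((χ v)⁻¹ • χ)
    simp [hχ]
  obtain ⟨χ0, hχ0⟩ := h1
  let e : Module.Dual (ZMod p) V ≃ ZMod p × {χ : Module.Dual (ZMod p) V // χ v = 0} :=
    { toFun := fun χ => (χ v, ⟨χ - (χ v) • χ0, by simp [hχ0]⟩)
      invFun := fun q => q.2.1 + q.1 • χ0
      left_inv := fun χ => by simp
      right_inv := fun q => by
        obtain ⟨c, χ, hχ⟩ := q
        apply Prod.ext
        · simp [hχ, hχ0]
        · apply Subtype.ext
          simp [hχ, hχ0] }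
  rw [Nat.card_congr e, Nat.card_prod, Nat.card_zmod]

/-- products with exponents -/
theorem prod_exp {B H : Type} [Fintype B] [DecidableEq B] [Fintype α] [DecidableEq α] [CommGroup H]
    (bw : List α → B) (k : B → α → H) (Φ : List α → H) (h0 : Φ [] = 1)
    (h1 : ∀ w x, Φ (w ++ [x]) = Φ w * k (bw w) x) (w : List α) :
    Φ w = ∏ b, ∏ y, k b y ^ (ev y (fun w => if bw w = b then 1 else 0) w) := by
  induction w using List.reverseRecOn with
  | nil => simp [ev_nil, h0]
  | append_singleton w x ih =>
    rw [h1, ih]
    simp only [ev_concat, zpow_add]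
    simp only [Finset.prod_mul_distrib]
    congr 1
    rw [Finset.prod_eq_single (bw w), Finset.prod_eq_single x]
    · simp
    · intro y _ hy
      simp [Ne.symm hy]
    · simp
    · intro b _ hb
      apply Finset.prod_eq_one
      intro y _
      simp [Ne.symm hb]
    · simp

theorem zpow_congr {H : Type} [Group H] (h : H) (m : ℕ) (hm : h ^ m = 1) {a b : ℤ}
    (hab : a ≡ b [ZMOD (m : ℤ)]) : h ^ a = h ^ b := by
  obtain ⟨c, hc⟩ := hab.dvd
  have : b = a + m * c := by linarith
  rw [this, zpow_add, zpow_mul, zpow_natCast, hm, one_zpow, mul_one]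

/-- counting with respect to an elementary abelian group -/
theorem meas_of_zmod [DecidableEq α] (p : ℕ) [Fact p.Prime] {V : Type} [AddCommGroup V]
    [Module (ZMod p) V] [Finite V] [DecidableEq V] (β : α → V)
    (hE : ∀ (e : α → ZMod p) (x : α) (s : ZMod p),
      Meas (ev x (fun w => if (w.map e).sum = s then 1 else 0))) (b : V) (x : α) :
    Meas (ev x (fun w => if (w.map β).sum = b then 1 else 0)) := by
  classical
  have hXfin : Finite (Module.Dual (ZMod p) V) := finite_dual p
  have := Fintype.ofFinite (Module.Dual (ZMod p) V)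
  have hp := (Fact.out : p.Prime)
  set X := Module.Dual (ZMod p) V with hX
  have hbV : ∀ (χ : Module.Dual (ZMod p) V) (w : List α),
      (w.map (fun a => χ (β a))).sum = χ (w.map β).sum := by
    intro χ w
    rw [map_list_sum, List.map_map]
    rfl
  have hcount : ∀ w : List α, (p : ℤ) * ∑ χ : Module.Dual (ZMod p) V,
      (if (w.map (fun a => χ (β a))).sum = χ b then (1 : ℤ) else 0) =
      ((p : ℤ) - 1) * Nat.card X * (if (w.map β).sum = b then 1 else 0) + Nat.card X := by
    intro w
    have h1 : ∑ χ : Module.Dual (ZMod p) V, (if (w.map (fun a => χ (β a))).sum = χ b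
        then (1 : ℤ) else 0) =
        Nat.card {χ : Module.Dual (ZMod p) V // χ ((w.map β).sum - b) = 0} := by
      rw [Finset.sum_boole, Nat.card_eq_fintype_card, Fintype.card_subtype]
      congr 2
      ext χ
      simp only [Finset.mem_filter, Finset.mem_univ, true_and, hbV, map_sub, sub_eq_zero]
    rw [h1]
    by_cases hwb : (w.map β).sum = b
    · rw [if_pos hwb, hwb, sub_self]
      have h2 : Nat.card {χ : Module.Dual (ZMod p) V // χ (0 : V) = 0} = Nat.card X := by
        apply Nat.card_congr
        exact Equiv.subtypeUnivEquiv fun χ => map_zero χ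
      rw [h2]
      ring
    · rw [if_neg hwb]
      have h2 := card_dual p ((w.map β).sum - b) (fun h => hwb (sub_eq_zero.1 h))
      rw [mul_zero, zero_add, hX, ← h2]
      push_cast
      ring
  have hcard : 0 < Nat.card X := Nat.card_pos
  have hp1 : (1 : ℤ) < p := by exact_mod_cast hp.one_lt
  have hD : ((p : ℤ) - 1) * Nat.card X ≠ 0 := by
    apply mul_ne_zero
    · linarith
    · exact_mod_cast hcard.ne'
  apply Meas.of_mul _ hD
  have hone : Meas (ev x (fun _ : List α => (1 : ℤ))) := by
    have := hE (fun _ => 0) x 0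
    have e : (fun w : List α => if (w.map (fun _ => (0 : ZMod p))).sum = 0 then (1 : ℤ) else 0) =
        fun _ => 1 := by
      funext w
      simp
    rw [e] at this
    exact this
  have hrhs : Meas (fun w => (p : ℤ) * (∑ χ : Module.Dual (ZMod p) V, ev x (fun w =>
      if (w.map (fun a => χ (β a))).sum = χ b then (1 : ℤ) else 0) w)
      + -((Nat.card X : ℤ) * ev x (fun _ : List α => (1 : ℤ)) w)) := by
    apply Meas.add
    · exact (Meas.const _).mul (Meas.sum _ fun χ _ => hE _ x _)
    · exact ((Meas.const _).mul hone).neg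
  convert hrhs using 1
  funext w
  have e2 : (fun w : List α => (p : ℤ) * ∑ χ : Module.Dual (ZMod p) V,
      (if (w.map (fun a => χ (β a))).sum = χ b then (1 : ℤ) else 0)) =
      fun w => (((p : ℤ) - 1) * Nat.card X * (if (w.map β).sum = b then 1 else 0)) +
        (Nat.card X : ℤ) * 1 := by
    funext w
    rw [hcount w, mul_one]
  have k := congrArg (fun f => ev x f w) e2
  rw [ev_smul, ev_sum, ev_add, ev_smul, ev_smul] at k
  linarith

end Elem

open Elem

/-- TASK G (file Elem.lean), uses C, D3. -/
theorem elem_of_primeCount [Finite α] [DecidableEq α] {G : Type} [Group G] [Finite G] (p : ℕ)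
    [Fact p.Prime] (A : Subgroup G) [A.Normal] (hab : ∀ a ∈ A, ∀ b ∈ A, a * b = b * a)
    (hcomm : ∀ g h : G, g * h * g⁻¹ * h⁻¹ ∈ A) (hpow : ∀ g : G, g ^ p ∈ A)
    (hE : ∀ (e : α → ZMod p) (x : α) (s : ZMod p),
      Meas (ev x (fun w => if (w.map e).sum = s then 1 else 0)))
    (φ : FreeMonoid α →* G) (g : G) :
    HeightLE 1 {w : List α | φ (FreeMonoid.ofList w) = g} := by
  classical
  have := Fintype.ofFinite α
  have := Fintype.ofFinite G
  -- the quotient
  have hBcomm : ∀ a b : G ⧸ A, a * b = b * a := by
    intro a b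
    induction a using QuotientGroup.induction_on with
    | H a =>
      induction b using QuotientGroup.induction_on with
      | H b =>
        rw [← QuotientGroup.mk_mul, ← QuotientGroup.mk_mul, QuotientGroup.eq]
        have := hcomm b⁻¹ a⁻¹
        simpa [mul_assoc] using this
  let : CommGroup (G ⧸ A) := { (inferInstance : Group (G ⧸ A)) with mul_comm := hBcomm }
  let : CommGroup A := { (inferInstance : Group A) with
    mul_comm := fun a b => Subtype.ext (hab a.1 a.2 b.1 b.2) }
  have := Fintype.ofFinite (G ⧸ A)
  set β : α → G ⧸ A := fun x => QuotientGroup.mk (φ (FreeMonoid.of x)) with hβ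
  set bw : List α → G ⧸ A := fun w => QuotientGroup.mk (φ (FreeMonoid.ofList w)) with hbw
  have hφ : ∀ (w : List α) (x : α), φ (FreeMonoid.ofList (w ++ [x])) =
      φ (FreeMonoid.ofList w) * φ (FreeMonoid.of x) := by
    intro w x
    rw [FreeMonoid.ofList_append, map_mul, FreeMonoid.ofList_singleton]
  have hbw1 : ∀ (w : List α) (x : α), bw (w ++ [x]) = bw w * β x := by
    intro w x
    simp only [hbw, hβ, hφ, QuotientGroup.mk_mul]
  have hbw0 : bw [] = 1 := by
    simp only [hbw, FreeMonoid.ofList_nil, map_one, QuotientGroup.mk_one]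
  -- part 2: the counting functions are measurable
  have hMeas : ∀ (b : G ⧸ A) (x : α), Meas (ev x (fun w => if bw w = b then 1 else 0)) := by
    intro b x
    have hpV : ∀ v : Additive (G ⧸ A), p • v = 0 := by
      intro v
      induction v using Additive.rec with
      | ofMul v =>
        rw [← ofMul_pow, ← ofMul_one]
        congr 1
        induction v using QuotientGroup.induction_on with
        | H v =>
          rw [← QuotientGroup.mk_pow, QuotientGroup.eq_one_iff]
          exact hpow v
    have h1 := @meas_of_zmod α _ p _ (Additive (G ⧸ A)) _ (AddCommGroup.zmodModule hpV) _ _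
      (fun a => Additive.ofMul (β a)) hE (Additive.ofMul b) x
    have h2 : ∀ w : List α, (w.map (fun a => Additive.ofMul (β a))).sum = Additive.ofMul (bw w) := by
      intro w
      induction w using List.reverseRecOn with
      | nil => rw [hbw0]; rfl
      | append_singleton w x ih =>
        rw [List.map_append, List.sum_append, ih, hbw1, ofMul_mul]
        simp
    have e : (fun w : List α => if (w.map (fun a => Additive.ofMul (β a))).sum = Additive.ofMul b
        then (1 : ℤ) else 0) = fun w => if bw w = b then 1 else 0 := by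
      funext w
      rw [h2 w]
      simp only [Additive.ofMul.apply_eq_iff_eq]
    rw [← e]
    exact h1
  -- part 1
  set s : G ⧸ A → G := Quotient.out with hs
  have hsmk : ∀ b, (QuotientGroup.mk (s b) : G ⧸ A) = b := fun b => QuotientGroup.out_eq' b
  have hκA : ∀ (b : G ⧸ A) (x : α), s b * φ (FreeMonoid.of x) * (s (b * β x))⁻¹ ∈ A := by
    intro b x
    rw [← QuotientGroup.eq_one_iff, QuotientGroup.mk_mul, QuotientGroup.mk_mul,
      QuotientGroup.mk_inv, hsmk, hsmk]
    simp only [hβ]
    group
  have haA : ∀ w : List α, s 1 * φ (FreeMonoid.ofList w) * (s (bw w))⁻¹ ∈ A := by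
    intro w
    rw [← QuotientGroup.eq_one_iff, QuotientGroup.mk_mul, QuotientGroup.mk_mul,
      QuotientGroup.mk_inv, hsmk, hsmk, one_mul]
    simp only [hbw]
    group
  have ha := prod_exp (H := A) bw (fun b x => ⟨_, hκA b x⟩) (fun w => ⟨_, haA w⟩)
    (by
      apply Subtype.ext
      change s 1 * φ (FreeMonoid.ofList []) * (s (bw []))⁻¹ = 1
      rw [hbw0, FreeMonoid.ofList_nil, map_one]
      group)
    (by
      intro w x
      apply Subtype.ext
      change s 1 * φ (FreeMonoid.ofList (w ++ [x])) * (s (bw (w ++ [x])))⁻¹ =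
        (s 1 * φ (FreeMonoid.ofList w) * (s (bw w))⁻¹) *
          (s (bw w) * φ (FreeMonoid.of x) * (s (bw w * β x))⁻¹)
      rw [hφ, hbw1]
      group)
  have hb := prod_exp (H := G ⧸ A) bw (fun _ x => β x) bw hbw0 hbw1
  apply Meas.determined (ι := (G ⧸ A) × α)
    (f := fun q => ev q.2 (fun w => if bw w = q.1 then 1 else 0)) (fun q => hMeas q.1 q.2)
    (Nat.card G) Nat.card_pos
  intro w w' hww
  have hbb : bw w = bw w' := by
    rw [hb w, hb w']
    apply Finset.prod_congr rfl
    intro b _
    apply Finset.prod_congr rfl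
    intro x _
    apply zpow_congr _ (Nat.card G) _ (hww (b, x))
    simp only [hβ]
    rw [← QuotientGroup.mk_pow, pow_card_eq_one', QuotientGroup.mk_one]
  have haa : s 1 * φ (FreeMonoid.ofList w) * (s (bw w))⁻¹ =
      s 1 * φ (FreeMonoid.ofList w') * (s (bw w'))⁻¹ := by
    have h1 := ha w
    have h2 := ha w'
    have h3 : (⟨_, haA w⟩ : A) = ⟨_, haA w'⟩ := by
      rw [h1, h2]
      apply Finset.prod_congr rfl
      intro b _
      apply Finset.prod_congr rfl
      intro x _
      apply zpow_congr _ (Nat.card G) _ (hww (b, x))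
      apply Subtype.ext
      rw [Subgroup.coe_pow]
      exact pow_card_eq_one'
    exact congrArg Subtype.val h3
  rw [hbb] at haa
  have hfin : φ (FreeMonoid.ofList w) = φ (FreeMonoid.ofList w') := by
    have := mul_right_cancel haa
    exact mul_left_cancel this
  show φ (FreeMonoid.ofList w) = g ↔ φ (FreeMonoid.ofList w') = g
  rw [hfin]

end Pool.Agent.H643R2.SH
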