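import Pool.Agent.H643R2.SH.Defs

/-! # Measurable integer functions on words -/

namespace Pool.Agent.H643R2.SH

variable {α : Type}

theorem Meas.fiber {f : List α → ℤ} (hf : Meas f) (m : ℕ) [NeZero m] (c : ZMod m) :
    HeightLE 1 {w : List α | ((f w : ℤ) : ZMod m) = c} := by
  have h := hf m (Nat.pos_of_ne_zero (NeZero.ne m)) (c.val : ℤ)
  have e : {w : List α | ((f w : ℤ) : ZMod m) = c} =
      {w : List α | f w ≡ (c.val : ℤ) [ZMOD (m : ℤ)]} := by
    ext w
    rw [Set.mem_ofPred_eq, Set.mem_ofPred_eq, ← ZMod.intCast_eq_intCast_iff]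
    simp
  rw [e]
  exact h

theorem Meas.determined {ι : Type*} [Finite ι] {f : ι → List α → ℤ} (hf : ∀ i, Meas (f i))
    (m : ℕ) (hm : 0 < m) (L : Set (List α))
    (hL : ∀ w w', (∀ i, f i w ≡ f i w' [ZMOD (m : ℤ)]) → (w ∈ L ↔ w' ∈ L)) :
    HeightLE 1 L := by
  have : NeZero m := ⟨hm.ne'⟩
  have e : L = {w | ∃ ρ : ι → ZMod m, (∃ v ∈ L, ∀ i, ((f i v : ℤ) : ZMod m) = ρ i) ∧
      w ∈ (⋂ i, {w : List α | ((f i w : ℤ) : ZMod m) = ρ i} : Set (List α))} := by
    ext w
    rw [Set.mem_ofPred_eq]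
    constructor
    · intro hw
      exact ⟨fun i => ((f i w : ℤ) : ZMod m), ⟨w, hw, fun i => rfl⟩, by simp⟩
    · rintro ⟨ρ, ⟨v, hv, hv2⟩, hw⟩
      rw [Set.mem_iInter] at hw
      refine (hL v w fun i => ?_).1 hv
      rw [← ZMod.intCast_eq_intCast_iff, hv2 i]
      exact (hw i).symm
  rw [e]
  refine HeightLE.biUnion _ (fun ρ _ => ?_)
  exact HeightLE.iInter (fun i => (hf i).fiber m (ρ i))

theorem Meas.const (c : ℤ) : Meas (fun _ : List α => c) := by
  intro m hm r
  exact Meas.determined (ι := Empty) (f := fun i => i.elim) (fun i => i.elim) m hm _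
    (fun w w' _ => Iff.rfl)

theorem Meas.of2 {f g : List α → ℤ} (hf : Meas f) (hg : Meas g) (F : ℤ → ℤ → ℤ)
    (hF : ∀ (m : ℤ) (a b a' b' : ℤ), a ≡ a' [ZMOD m] → b ≡ b' [ZMOD m] →
      F a b ≡ F a' b' [ZMOD m]) : Meas (fun w => F (f w) (g w)) := by
  intro m hm r
  refine Meas.determined (ι := Bool) (f := fun i => if i then f else g)
    (fun i => by cases i <;> simpa) m hm _ (fun w w' h => ?_)
  have h1 := h true
  have h2 := h false
  simp only [if_true, Bool.false_eq_true, if_false] at h1 h2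
  have h3 := hF m _ _ _ _ h1 h2
  rw [Set.mem_ofPred_eq, Set.mem_ofPred_eq]
  exact ⟨fun h => h3.symm.trans h, fun h => h3.trans h⟩

theorem Meas.add {f g : List α → ℤ} (hf : Meas f) (hg : Meas g) :
    Meas (fun w => f w + g w) :=
  Meas.of2 hf hg (fun a b => a + b) (fun _ _ _ _ _ h1 h2 => h1.add h2)

theorem Meas.mul {f g : List α → ℤ} (hf : Meas f) (hg : Meas g) :
    Meas (fun w => f w * g w) :=
  Meas.of2 hf hg (fun a b => a * b) (fun _ _ _ _ _ h1 h2 => h1.mul h2)

theorem Meas.sub {f g : List α → ℤ} (hf : Meas f) (hg : Meas g) :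
    Meas (fun w => f w - g w) :=
  Meas.of2 hf hg (fun a b => a - b) (fun _ _ _ _ _ h1 h2 => h1.sub h2)

theorem Meas.neg {f : List α → ℤ} (hf : Meas f) : Meas (fun w => - f w) :=
  Meas.of2 hf hf (fun a _ => - a) (fun _ _ _ _ _ h1 _ => h1.neg)

theorem Meas.of_mul {f : List α → ℤ} (D : ℤ) (hD : D ≠ 0) (hf : Meas (fun w => D * f w)) :
    Meas f := by
  intro m hm r
  have h := hf (D.natAbs * m) (Nat.mul_pos (Int.natAbs_pos.2 hD) hm) (D * r)
  have e : {w : List α | f w ≡ r [ZMOD (m : ℤ)]} =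
      {w : List α | D * f w ≡ D * r [ZMOD ((D.natAbs * m : ℕ) : ℤ)]} := by
    ext w
    rw [Set.mem_ofPred_eq, Set.mem_ofPred_eq, Int.modEq_iff_dvd, Int.modEq_iff_dvd, ← mul_sub]
    push_cast
    rw [← mul_dvd_mul_iff_left hD]
    have : (|D| : ℤ) * (m : ℤ) ∣ D * (r - f w) ↔ D * (m : ℤ) ∣ D * (r - f w) := by
      rcases abs_choice D with h | h
      · rw [h]
      · rw [h, neg_mul, neg_dvd]
    exact this.symm
  rw [e]
  exact h

theorem Meas.sum {ι : Type*} (s : Finset ι) {f : ι → List α → ℤ} (hf : ∀ i ∈ s, Meas (f i)) :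
    Meas (fun w => ∑ i ∈ s, f i w) := by
  classical
  induction s using Finset.induction_on with
  | empty => simpa using Meas.const (α := α) 0
  | insert a s ha ih =>
    simp only [Finset.sum_insert ha]
    exact (hf a (Finset.mem_insert_self a s)).add
      (ih (fun i hi => hf i (Finset.mem_insert_of_mem hi)))

theorem Meas.indicator {L : Set (List α)} [DecidablePred (· ∈ L)] (hL : HeightLE 1 L) :
    Meas (fun w => if w ∈ L then 1 else 0) := by
  intro m hm r
  by_cases h1 : (1 : ℤ) ≡ r [ZMOD (m : ℤ)] <;> by_cases h0 : (0 : ℤ) ≡ r [ZMOD (m : ℤ)]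
  · have e : {w : List α | (if w ∈ L then (1 : ℤ) else 0) ≡ r [ZMOD (m : ℤ)]} = Set.univ := by
      ext w
      rw [Set.mem_ofPred_eq]
      by_cases hw : w ∈ L <;> simp [hw, h1, h0]
    rw [e]
    exact HeightLE.univ 1
  · have e : {w : List α | (if w ∈ L then (1 : ℤ) else 0) ≡ r [ZMOD (m : ℤ)]} = L := by
      ext w
      rw [Set.mem_ofPred_eq]
      by_cases hw : w ∈ L <;> simp [hw, h1, h0]
    rw [e]
    exact hL
  · have e : {w : List α | (if w ∈ L then (1 : ℤ) else 0) ≡ r [ZMOD (m : ℤ)]} =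
        (Lᶜ : Set (List α)) := by
      ext w
      rw [Set.mem_ofPred_eq, Set.mem_compl_iff]
      by_cases hw : w ∈ L <;> simp [hw, h1, h0]
    rw [e]
    exact hL.compl
  · have e : {w : List α | (if w ∈ L then (1 : ℤ) else 0) ≡ r [ZMOD (m : ℤ)]} = ∅ := by
      ext w
      rw [Set.mem_ofPred_eq]
      by_cases hw : w ∈ L <;> simp [hw, h1, h0]
    rw [e]
    exact HeightLE.empty 1

theorem Meas.congr {f g : List α → ℤ} (hf : Meas f) (h : ∀ w, g w = f w) : Meas g := by
  have : g = f := funext h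
  rw [this]
  exact hf

theorem Meas.pow {f : List α → ℤ} (hf : Meas f) (n : ℕ) : Meas (fun w => f w ^ n) := by
  induction n with
  | zero => simpa using Meas.const (α := α) 1
  | succ n ih => simpa [pow_succ] using ih.mul hf

theorem Meas.smul {f : List α → ℤ} (hf : Meas f) (c : ℤ) : Meas (fun w => c * f w) :=
  (Meas.const c).mul hf

/-! ### The event sum -/

section ev
variable [DecidableEq α]

theorem ev_nil (x : α) (g : List α → ℤ) : ev x g [] = 0 := by
  simp [ev]

theorem ev_append (x : α) (g : List α → ℤ) (w : List α) (a : α) :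
    ev x g (w ++ [a]) = ev x g w + if a = x then g w else 0 := by
  unfold ev
  rw [List.length_append, List.length_singleton, Finset.sum_range_succ]
  congr 1
  · apply Finset.sum_congr rfl
    intro i hi
    rw [Finset.mem_range] at hi
    rw [List.getElem?_append_left hi, List.take_append_of_le_length hi.le]
  · simp

theorem ev_add (x : α) (g h : List α → ℤ) (w : List α) :
    ev x (fun w => g w + h w) w = ev x g w + ev x h w := by
  unfold ev
  rw [← Finset.sum_add_distrib]
  apply Finset.sum_congr rfl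
  intro i _
  split_ifs <;> simp

theorem ev_smul (x : α) (c : ℤ) (g : List α → ℤ) (w : List α) :
    ev x (fun w => c * g w) w = c * ev x g w := by
  unfold ev
  rw [Finset.mul_sum]
  apply Finset.sum_congr rfl
  intro i _
  split_ifs <;> simp

theorem ev_sum {ι : Type*} (s : Finset ι) (x : α) (g : ι → List α → ℤ) (w : List α) :
    ev x (fun w => ∑ i ∈ s, g i w) w = ∑ i ∈ s, ev x (g i) w := by
  unfold ev
  rw [Finset.sum_comm]
  apply Finset.sum_congr rfl
  intro i _
  split_ifs <;> simp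

theorem ev_congr (x : α) {g h : List α → ℤ} (hgh : ∀ w, g w = h w) (w : List α) :
    ev x g w = ev x h w := by
  have : g = h := funext hgh
  rw [this]

theorem ev_modEq (x : α) {g h : List α → ℤ} (m : ℤ) (hgh : ∀ w, g w ≡ h w [ZMOD m])
    (w : List α) : ev x g w ≡ ev x h w [ZMOD m] := by
  induction w using List.reverseRecOn with
  | nil => simp [ev_nil]
  | append_singleton w a ih =>
    rw [ev_append, ev_append]
    refine Int.ModEq.add ih ?_
    split_ifs
    · exact hgh w
    · rfl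

theorem ev_one (x : α) (w : List α) : ev x (fun _ => 1) w = (w.count x : ℤ) := by
  induction w using List.reverseRecOn with
  | nil => simp [ev_nil]
  | append_singleton w a ih =>
    rw [ev_append, ih, List.count_append]
    by_cases h : a = x
    · simp [h]
    · simp [h]

end ev

end Pool.Agent.H643R2.SH
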