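import Pool.Agent.H643R2.SH.Meas

/-! TASK F: metabelian nilpotent groups. -/

namespace Pool.Agent.H643R2.SH

namespace NilpF

variable {α : Type} [DecidableEq α] {A : Type} [AddCommGroup A]

/-! ### differences -/

/-- the unit vector -/
def ee (z : α) : α → ℕ := Pi.single z 1

/-- difference in direction `z` -/
def D (z : α) (F : (α → ℕ) → A) : (α → ℕ) → A := fun b => F (b + ee z) - F b

/-- iterated differences -/
def Dl : List α → ((α → ℕ) → A) → (α → ℕ) → A
  | [], F => F
  | z :: l, F => Dl l (D z F)

theorem D_add (z : α) (F G : (α → ℕ) → A) : D z (fun b => F b + G b) = fun b => D z F b + D z G b := by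
  ext b
  simp only [D]
  abel

theorem Dl_add (l : List α) : ∀ F G : (α → ℕ) → A,
    Dl l (fun b => F b + G b) = fun b => Dl l F b + Dl l G b := by
  induction l with
  | nil => intro F G; rfl
  | cons z l ih =>
    intro F G
    simp only [Dl]
    rw [D_add]
    exact ih _ _

theorem D_zero (z : α) : D z (fun _ => (0 : A)) = fun _ => 0 := by
  ext b
  simp [D]

theorem D_const (z : α) (a : A) : D z (fun _ => a) = fun _ => 0 := by
  ext b
  simp [D]

theorem Dl_zero (l : List α) : Dl l (fun _ => (0 : A)) = fun _ => 0 := by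
  induction l with
  | nil => rfl
  | cons z l ih => simp only [Dl]; rw [D_zero, ih]

theorem Dl_append (l l' : List α) (F : (α → ℕ) → A) : Dl (l ++ l') F = Dl l' (Dl l F) := by
  induction l generalizing F with
  | nil => rfl
  | cons z l ih => simp only [List.cons_append, Dl]; rw [ih]

/-- the class of functions whose `r`-fold differences lie in `V (r + i)` -/
def Q (V : ℕ → AddSubgroup A) (i : ℕ) (F : (α → ℕ) → A) : Prop :=
  ∀ (l : List α) (b : α → ℕ), Dl l F b ∈ V (l.length + i)

variable {V : ℕ → AddSubgroup A}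

theorem Q_iff (i : ℕ) (F : (α → ℕ) → A) :
    Q V i F ↔ (∀ b, F b ∈ V i) ∧ ∀ z, Q V (i + 1) (D z F) := by
  constructor
  · intro h
    refine ⟨fun b => by simpa [Dl] using h [] b, fun z l b => ?_⟩
    have := h (z :: l) b
    simp only [Dl, List.length_cons] at this
    have e : l.length + (i + 1) = l.length + 1 + i := by omega
    rw [e]
    exact this
  · rintro ⟨h1, h2⟩ l b
    cases l with
    | nil => simpa [Dl] using h1 b
    | cons z l =>
      simp only [Dl, List.length_cons]
      have e : l.length + 1 + i = l.length + (i + 1) := by omega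
      rw [e]
      exact h2 z l b

theorem Q_add {i : ℕ} {F G : (α → ℕ) → A} (hF : Q V i F) (hG : Q V i G) :
    Q V i (fun b => F b + G b) := by
  intro l b
  rw [Dl_add]
  exact (V _).add_mem (hF l b) (hG l b)

theorem Q_zero (i : ℕ) : Q V i (fun _ : α → ℕ => (0 : A)) := by
  intro l b
  rw [Dl_zero]
  exact (V _).zero_mem

theorem Q_const {i : ℕ} {a : A} (ha : a ∈ V i) : Q V i (fun _ : α → ℕ => a) := by
  rw [Q_iff]
  refine ⟨fun _ => ha, fun z => ?_⟩
  rw [D_const]
  exact Q_zero _

theorem Q_mono (hV : Antitone V) {i j : ℕ} (hij : i ≤ j) {F : (α → ℕ) → A} (hF : Q V j F) :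
    Q V i F := fun l b => hV (by omega) (hF l b)

theorem D_comp (N : AddMonoid.End A) (z : α) (F : (α → ℕ) → A) :
    D z (fun b => N (F b)) = fun b => N (D z F b) := by
  ext b
  simp [D]

theorem Dl_comp (N : AddMonoid.End A) (l : List α) (F : (α → ℕ) → A) :
    Dl l (fun b => N (F b)) = fun b => N (Dl l F b) := by
  induction l generalizing F with
  | nil => rfl
  | cons z l ih => simp only [Dl]; rw [D_comp, ih]

theorem Q_comp (N : AddMonoid.End A) (e : ℕ) (hN : ∀ r a, a ∈ V r → N a ∈ V (r + e)) {i : ℕ}
    {F : (α → ℕ) → A} (hF : Q V i F) : Q V (i + e) (fun b => N (F b)) := by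
  intro l b
  rw [Dl_comp]
  have := hN _ _ (hF l b)
  rwa [add_assoc] at this

theorem Q_shift (hV : Antitone V) (z : α) {i : ℕ} {F : (α → ℕ) → A} (hF : Q V i F) :
    Q V i (fun b => F (b + ee z)) := by
  have h1 : (fun b => F (b + ee z)) = fun b => F b + D z F b := by
    ext b
    simp [D]
  rw [h1]
  exact Q_add hF (Q_mono hV (Nat.le_succ i) (((Q_iff i F).1 hF).2 z))

theorem Q_pow (hV : Antitone V) (T : AddMonoid.End A) (hT : ∀ r a, a ∈ V r → T a - a ∈ V (r + 1))
    (y : α) {i : ℕ} {F : (α → ℕ) → A} (hF : Q V i F) : Q V i (fun b => (T ^ (b y)) (F b)) := by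
  have hTV : ∀ r a, a ∈ V r → T a ∈ V r := by
    intro r a ha
    have h1 := hV (Nat.le_succ r) (hT r a ha)
    have h2 := (V r).add_mem h1 ha
    simpa using h2
  have hTn : ∀ (n r : ℕ) (a : A), a ∈ V r → (T ^ n) a ∈ V r := by
    intro n
    induction n with
    | zero => intro r a ha; simpa using ha
    | succ n ih =>
      intro r a ha
      rw [pow_succ]
      exact ih r _ (hTV r a ha)
  intro l
  induction l generalizing i F with
  | nil =>
    intro b
    simp only [Dl, List.length_nil]
    exact hTn _ _ _ (by simpa [Dl] using hF [] b)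
  | cons z l ih =>
    intro b
    simp only [Dl, List.length_cons]
    have e : l.length + 1 + i = l.length + (i + 1) := by omega
    rw [e]
    by_cases hz : z = y
    · subst hz
      have h1 : D z (fun b => (T ^ (b z)) (F b)) = fun b => (T ^ (b z))
          ((fun b => (T - 1 : AddMonoid.End A) (F (b + ee z)) + D z F b) b) := by
        ext b
        have e2 : (b + ee z) z = b z + 1 := by simp [ee]
        simp only [D]
        rw [e2, pow_succ]
        show (T ^ b z) (T (F (b + ee z))) - (T ^ b z) (F b) = _
        rw [← map_sub]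
        congr 1
        show T (F (b + ee z)) - F b = (T (F (b + ee z)) - F (b + ee z)) + (F (b + ee z) - F b)
        abel
      rw [h1]
      apply ih
      apply Q_add
      · exact Q_comp (T - 1) 1 (fun r a ha => hT r a ha) (Q_shift hV z hF)
      · exact ((Q_iff i F).1 hF).2 z
    · have h1 : D z (fun b => (T ^ (b y)) (F b)) = fun b => (T ^ (b y)) (D z F b) := by
        ext b
        have e2 : (b + ee z) y = b y := by
          simp [ee, Ne.symm hz]
        simp only [D]
        rw [e2, map_sub]
      rw [h1]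
      exact ih (((Q_iff i F).1 hF).2 z) b

/-! ### integer valued polynomials -/

/-- integer combinations of monomials of degree at most `d` -/
def Mono (α : Type) (d : ℕ) : Submodule ℤ ((α → ℕ) → ℤ) :=
  Submodule.span ℤ {f | ∃ l : List α, l.length ≤ d ∧ f = fun b => (l.map (fun y => (b y : ℤ))).prod}

omit [DecidableEq α] in
theorem Mono_mul {d e : ℕ} {f g : (α → ℕ) → ℤ} (hf : f ∈ Mono α d) (hg : g ∈ Mono α e) :
    f * g ∈ Mono α (d + e) := by
  have h := Submodule.mul_mem_mul hf hg
  rw [Mono, Mono, Submodule.span_mul_span] at h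
  refine Submodule.span_mono ?_ h
  rintro _ ⟨u, ⟨l, hl, rfl⟩, v, ⟨l', hl', rfl⟩, rfl⟩
  refine ⟨l ++ l', by rw [List.length_append]; omega, ?_⟩
  ext b
  simp

omit [DecidableEq α] in
theorem Mono_mono {d e : ℕ} (h : d ≤ e) : Mono α d ≤ Mono α e := by
  apply Submodule.span_mono
  rintro _ ⟨l, hl, rfl⟩
  exact ⟨l, hl.trans h, rfl⟩

omit [DecidableEq α] in
theorem Mono_one (d : ℕ) : (fun _ => 1 : (α → ℕ) → ℤ) ∈ Mono α d :=
  Submodule.subset_span ⟨[], Nat.zero_le _, by ext b; simp⟩

omit [DecidableEq α] in
theorem Mono_var (y : α) : (fun b => (b y : ℤ) : (α → ℕ) → ℤ) ∈ Mono α 1 :=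
  Submodule.subset_span ⟨[y], le_rfl, by ext b; simp⟩

/-- a nonzero multiple of `M` is a polynomial of degree at most `d` -/
def IP (d : ℕ) (M : (α → ℕ) → ℤ) : Prop := ∃ N : ℤ, N ≠ 0 ∧ (fun b => N * M b) ∈ Mono α d

omit [DecidableEq α] in
theorem IP_mul {d e : ℕ} {f g : (α → ℕ) → ℤ} (hf : IP d f) (hg : IP e g) :
    IP (d + e) (fun b => f b * g b) := by
  obtain ⟨N, hN, h1⟩ := hf
  obtain ⟨N', hN', h2⟩ := hg
  refine ⟨N * N', mul_ne_zero hN hN', ?_⟩
  have := Mono_mul h1 h2
  convert this using 1
  ext b
  simp only [Pi.mul_apply]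
  ring

omit [DecidableEq α] in
theorem IP_one (d : ℕ) : IP d (fun _ => 1 : (α → ℕ) → ℤ) :=
  ⟨1, one_ne_zero, by simpa using Mono_one d⟩

omit [DecidableEq α] in
theorem desc_mem (y : α) (j : ℕ) : (fun b => ((b y).descFactorial j : ℤ)) ∈ Mono α j := by
  induction j with
  | zero => simpa using Mono_one (α := α) 0
  | succ j ih =>
    have h1 : (fun b : α → ℕ => ((b y).descFactorial (j + 1) : ℤ)) =
        (fun b => (b y : ℤ) - j) * (fun b => ((b y).descFactorial j : ℤ)) := by
      ext b
      simp only [Pi.mul_apply]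
      rw [Nat.descFactorial_succ]
      rcases le_or_gt j (b y) with h | h
      · push_cast [Nat.cast_sub h]
        ring
      · rw [Nat.descFactorial_eq_zero_iff_lt.2 h]
        simp
    rw [h1, add_comm j 1]
    apply Mono_mul _ ih
    apply Submodule.sub_mem _ (Mono_var y)
    have := Submodule.smul_mem (Mono α 1) (j : ℤ) (Mono_one 1)
    convert this using 1
    ext b
    simp

omit [DecidableEq α] in
theorem IP_choose (y : α) (j : ℕ) : IP j (fun b => ((b y).choose j : ℤ)) := by
  refine ⟨(j.factorial : ℤ), by exact_mod_cast j.factorial_ne_zero, ?_⟩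
  convert desc_mem y j using 1
  ext b
  rw [Nat.descFactorial_eq_factorial_mul_choose]
  push_cast
  ring

/-- sums of `M • a` -/
def SP (A : Type) [AddCommGroup A] (d : ℕ) : AddSubmonoid ((α → ℕ) → A) :=
  AddSubmonoid.closure {F | ∃ (M : (α → ℕ) → ℤ) (a : A), IP d M ∧ F = fun b => M b • a}

omit [DecidableEq α] in
theorem SP_smul {d e : ℕ} {M : (α → ℕ) → ℤ} (hM : IP d M) {F : (α → ℕ) → A} (hF : F ∈ SP A e) :
    (fun b => M b • F b) ∈ SP (α := α) A (d + e) := by
  induction hF using AddSubmonoid.closure_induction with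
  | mem F hF =>
    obtain ⟨M', a, hM', rfl⟩ := hF
    apply AddSubmonoid.subset_closure
    refine ⟨fun b => M b * M' b, a, IP_mul hM hM', ?_⟩
    ext b
    simp only
    rw [mul_smul]
  | zero =>
    have : (fun b => M b • (0 : (α → ℕ) → A) b) = 0 := by
      ext b
      simp
    rw [this]
    exact AddSubmonoid.zero_mem _
  | add F G _ _ h1 h2 =>
    have : (fun b => M b • (F + G) b) = (fun b => M b • F b) + fun b => M b • G b := by
      ext b
      simp
    rw [this]
    exact AddSubmonoid.add_mem _ h1 h2

/-! ### Newton expansion -/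

/-- all differences of order `d` vanish -/
def Van (d : ℕ) (F : (α → ℕ) → A) : Prop := ∀ l : List α, l.length = d → Dl l F = fun _ => 0

/-- dependence on the letters of `l` only -/
def Dep (l : List α) (F : (α → ℕ) → A) : Prop := ∀ b b' : α → ℕ, (∀ y ∈ l, b y = b' y) → F b = F b'

theorem Dep_D {l : List α} {F : (α → ℕ) → A} (h : Dep l F) (z : α) : Dep l (D z F) := by
  intro b b' hb
  simp only [D]
  rw [h b b' hb, h (b + ee z) (b' + ee z) (fun y hy => by simp [hb y hy])]

theorem Dep_iter {l : List α} {F : (α → ℕ) → A} (h : Dep l F) (z : α) (n : ℕ) :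
    Dep l ((D z)^[n] F) := by
  induction n generalizing F with
  | zero => exact h
  | succ n ih => exact ih (Dep_D h z)

theorem Dl_replicate (z : α) (n : ℕ) (F : (α → ℕ) → A) : Dl (List.replicate n z) F = (D z)^[n] F := by
  induction n generalizing F with
  | zero => rfl
  | succ n ih => simp only [List.replicate_succ, Dl]; rw [ih]; rfl

theorem Van_iter {d : ℕ} {F : (α → ℕ) → A} (z : α) (n : ℕ) (h : Van (d + n) F) :
    Van d ((D z)^[n] F) := by
  intro l hl
  rw [← Dl_replicate, ← Dl_append]
  apply h
  simp [hl, add_comm]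

theorem Van_iter_zero {d : ℕ} {F : (α → ℕ) → A} (z : α) (n : ℕ) (h : Van d F) (hn : d ≤ n) :
    (D z)^[n] F = fun _ => 0 := by
  obtain ⟨m, rfl⟩ := Nat.exists_eq_add_of_le hn
  rw [add_comm, Function.iterate_add_apply, ← Dl_replicate z d, h _ (by simp), ← Dl_replicate, Dl_zero]

/-- setting one variable to zero -/
def up (y : α) (b : α → ℕ) : α → ℕ := Function.update b y 0

theorem Van_up {e : ℕ} {F : (α → ℕ) → A} (y : α) (h : Van e F) : Van e (fun b => F (up y b)) := by
  intro l hl
  subst hl
  induction l generalizing F with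
  | nil =>
    have := h [] rfl
    simp only [Dl] at this ⊢
    rw [this]
  | cons z l ih =>
    simp only [Dl]
    by_cases hz : z = y
    · subst hz
      have h1 : D z (fun b => F (up z b)) = fun _ => 0 := by
        ext b
        have : up z (b + ee z) = up z b := by
          ext x
          by_cases hx : x = z
          · subst hx
            simp [up]
          · simp [up, ee, hx]
        simp [D, this]
      rw [h1, Dl_zero]
    · have h1 : D z (fun b => F (up y b)) = fun b => (D z F) (up y b) := by
        ext b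
        have : up y (b + ee z) = up y b + ee z := by
          ext x
          by_cases hx : x = y
          · subst hx
            simp [up, ee, Ne.symm hz]
          · simp [up, hx]
        simp [D, this]
      rw [h1]
      apply ih
      intro l' hl'
      exact h (z :: l') (by simp [hl'])

theorem newton (y : α) (F : (α → ℕ) → A) (b : α → ℕ) :
    F b = ∑ j ∈ Finset.range (b y + 1), (b y).choose j • ((D y)^[j] F) (up y b) := by
  have h1 := shift_eq_sum_fwdDiff_iter (ee y) F (b y) (up y b)
  have h2 : up y b + (b y) • ee y = b := by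
    ext x
    by_cases hx : x = y
    · subst hx
      simp [up, ee]
    · simp [up, ee, hx]
  rw [h2] at h1
  exact h1

theorem newton_trunc (y : α) (F : (α → ℕ) → A) (d : ℕ) (h : Van (d + 1) F) (b : α → ℕ) :
    F b = ∑ j ∈ Finset.range (d + 1), (b y).choose j • ((D y)^[j] F) (up y b) := by
  rw [newton y F b]
  have e1 : ∑ j ∈ Finset.range (b y + 1), (b y).choose j • ((D y)^[j] F) (up y b) =
      ∑ j ∈ Finset.range (b y + d + 2), (b y).choose j • ((D y)^[j] F) (up y b) := by
    apply Finset.sum_subset
    · intro j hj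
      rw [Finset.mem_range] at hj ⊢
      omega
    · intro j _ hj
      rw [Finset.mem_range] at hj
      rw [Nat.choose_eq_zero_of_lt (by omega), zero_smul]
  have e2 : ∑ j ∈ Finset.range (d + 1), (b y).choose j • ((D y)^[j] F) (up y b) =
      ∑ j ∈ Finset.range (b y + d + 2), (b y).choose j • ((D y)^[j] F) (up y b) := by
    apply Finset.sum_subset
    · intro j hj
      rw [Finset.mem_range] at hj ⊢
      omega
    · intro j _ hj
      rw [Finset.mem_range] at hj
      rw [Van_iter_zero y j h (by omega)]
      simp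
  rw [e1, e2]

theorem taylor (l : List α) : ∀ (d : ℕ) (F : (α → ℕ) → A), Dep l F → Van (d + 1) F →
    F ∈ SP (α := α) A d := by
  induction l with
  | nil =>
    intro d F h1 _
    apply AddSubmonoid.subset_closure
    refine ⟨fun _ => 1, F 0, IP_one d, ?_⟩
    ext b
    rw [one_smul]
    exact h1 b 0 (by simp)
  | cons y l ih =>
    intro d F h1 h2
    have h3 : F = ∑ j ∈ Finset.range (d + 1),
        fun b => (((b y).choose j : ℕ) : ℤ) • ((D y)^[j] F) (up y b) := by
      ext b
      rw [Finset.sum_apply]
      have := newton_trunc y F d h2 b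
      rw [this]
      apply Finset.sum_congr rfl
      intro j _
      rw [natCast_zsmul]
    rw [h3]
    apply AddSubmonoid.sum_mem
    intro j hj
    rw [Finset.mem_range] at hj
    have h4 : d = j + (d - j) := by omega
    rw [h4]
    apply SP_smul (IP_choose y j)
    apply ih
    · intro b b' hb
      apply Dep_iter h1
      intro x hx
      rw [List.mem_cons] at hx
      by_cases hxy : x = y
      · subst hxy
        simp [up]
      · rcases hx with h | h
        · exact absurd h hxy
        · simp [up, hxy, hb x h]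
    · apply Van_up
      apply Van_iter
      have : d - j + 1 + j = d + 1 := by omega
      rw [this]
      exact h2

/-! ### determined functions -/

/-- `f w` is determined by the residues of finitely many measurable functions -/
def Det {X : Type*} (f : List α → X) : Prop :=
  ∃ (l : List (List α → ℤ)) (m : ℕ), 0 < m ∧ (∀ h ∈ l, Meas h) ∧
    ∀ w w', (∀ h ∈ l, h w ≡ h w' [ZMOD (m : ℤ)]) → f w = f w'

omit [DecidableEq α] in
theorem Det_const {X : Type*} (x : X) : Det (fun _ : List α => x) :=
  ⟨[], 1, one_pos, by simp, fun _ _ _ => rfl⟩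

omit [DecidableEq α] in
theorem Det_op {X Y Z : Type*} (op : X → Y → Z) {f : List α → X} {g : List α → Y} (hf : Det f)
    (hg : Det g) : Det (fun w => op (f w) (g w)) := by
  obtain ⟨l, m, hm, h1, h2⟩ := hf
  obtain ⟨l', m', hm', h1', h2'⟩ := hg
  refine ⟨l ++ l', m * m', Nat.mul_pos hm hm', ?_, ?_⟩
  · intro h hh
    rw [List.mem_append] at hh
    exact hh.elim (h1 h) (h1' h)
  · intro w w' hw
    have e1 : f w = f w' := h2 w w' (fun h hh => by
      have := hw h (List.mem_append_left _ hh)
      push_cast at this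
      exact this.of_mul_right _)
    have e2 : g w = g w' := h2' w w' (fun h hh => by
      have := hw h (List.mem_append_right _ hh)
      push_cast at this
      exact this.of_mul_left _)
    simp only [e1, e2]

omit [DecidableEq α] in
theorem Det_sum {ι : Type*} (t : Finset ι) {f : ι → List α → A} (hf : ∀ i ∈ t, Det (f i)) :
    Det (fun w => ∑ i ∈ t, f i w) := by
  classical
  induction t using Finset.induction_on with
  | empty => simpa using Det_const (0 : A)
  | insert i t hi ih =>
    have h1 := Det_op (fun a b : A => a + b) (hf i (Finset.mem_insert_self _ _))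
      (ih (fun j hj => hf j (Finset.mem_insert_of_mem hj)))
    simpa [Finset.sum_insert hi] using h1

omit [DecidableEq α] in
theorem Det_height {X : Type*} {f : List α → X} (hf : Det f) (x : X) :
    HeightLE 1 {w : List α | f w = x} := by
  obtain ⟨l, m, hm, h1, h2⟩ := hf
  apply Meas.determined (f := fun i : Fin l.length => l.get i) (fun i => h1 _ (List.get_mem l i)) m hm
  intro w w' hw
  have : f w = f w' := h2 w w' (by
    intro h hh
    obtain ⟨i, hi⟩ := List.mem_iff_get.1 hh
    rw [← hi]
    exact hw i)
  simp [this]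

omit [DecidableEq α] in
theorem Det_smul [Finite A] {M : List α → ℤ} (hM : Meas M) (a : A) : Det (fun w => M w • a) := by
  refine ⟨[M], addOrderOf a, addOrderOf_pos a, by simpa using hM, fun w w' h => ?_⟩
  exact zsmul_eq_zsmul_iff_modEq.2 (h M (by simp))

omit [DecidableEq α] in
theorem Det_pow {G : Type} [Group G] [Finite G] {c : List α → ℕ} (hc : Meas (fun w => (c w : ℤ)))
    (g : G) : Det (fun w => g ^ c w) := by
  refine ⟨[fun w => (c w : ℤ)], orderOf g, orderOf_pos g, by simpa using hc, fun w w' h => ?_⟩
  exact pow_eq_pow_iff_modEq.2 (Int.natCast_modEq_iff.1 (h (fun w => (c w : ℤ)) (by simp)))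

/-! ### evaluation sums -/

/-- letter counts -/
def cn (w : List α) : α → ℕ := fun y => w.count y

/-- sum of `F (counts of the prefix)` over the positions with letter `x` -/
def EV (x : α) (F : (α → ℕ) → A) (w : List α) : A :=
  ∑ i ∈ Finset.range w.length, if w[i]? = some x then F (cn (w.take i)) else 0

theorem cn_append (w : List α) (x : α) : cn (w ++ [x]) = cn w + ee x := by
  ext y
  by_cases hy : y = x
  · subst hy
    simp [cn, ee]
  · simp [cn, ee, hy, Ne.symm hy]

theorem EV_append (x : α) (F : (α → ℕ) → A) (w : List α) (y : α) :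
    EV x F (w ++ [y]) = EV x F w + if y = x then F (cn w) else 0 := by
  unfold EV
  rw [List.length_append, List.length_singleton, Finset.sum_range_succ]
  congr 1
  · apply Finset.sum_congr rfl
    intro i hi
    rw [Finset.mem_range] at hi
    rw [List.getElem?_append_left hi, List.take_append_of_le_length hi.le]
  · simp

theorem EV_add (x : α) (F G : (α → ℕ) → A) (w : List α) :
    EV x (F + G) w = EV x F w + EV x G w := by
  unfold EV
  rw [← Finset.sum_add_distrib]
  apply Finset.sum_congr rfl
  intro i _
  split_ifs <;> simp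

theorem EV_smul (x : α) (M : (α → ℕ) → ℤ) (a : A) (w : List α) :
    EV x (fun b => M b • a) w = (ev x (fun w => M (cn w)) w) • a := by
  unfold EV ev
  rw [Finset.sum_smul]
  apply Finset.sum_congr rfl
  intro i _
  split_ifs <;> simp

theorem ev_add (x : α) (f g : List α → ℤ) (w : List α) :
    ev x (fun w => f w + g w) w = ev x f w + ev x g w := by
  unfold ev
  rw [← Finset.sum_add_distrib]
  apply Finset.sum_congr rfl
  intro i _
  split_ifs <;> simp

theorem ev_mul (x : α) (c : ℤ) (f : List α → ℤ) (w : List α) :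
    ev x (fun w => c * f w) w = c * ev x f w := by
  unfold ev
  rw [Finset.mul_sum]
  apply Finset.sum_congr rfl
  intro i _
  split_ifs <;> simp

section eval

variable (k : ℕ) (hE : ∀ (x : α) (l : List α), l.length ≤ k →
      Meas (ev x (fun w => (l.map (fun y => (w.count y : ℤ))).prod)))

include hE in
theorem Meas_mono (x : α) (f : (α → ℕ) → ℤ) (hf : f ∈ Mono α k) :
    Meas (ev x (fun w => f (cn w))) := by
  unfold Mono at hf
  induction hf using Submodule.span_induction with
  | mem f hf =>
    obtain ⟨l, hl, rfl⟩ := hf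
    exact hE x l hl
  | zero =>
    have : ev x (fun w => (0 : (α → ℕ) → ℤ) (cn w)) = fun _ => 0 := by
      ext w
      simp [ev]
    rw [this]
    exact Meas.const 0
  | add f g _ _ h1 h2 =>
    have : ev x (fun w => (f + g) (cn w)) =
        fun w => ev x (fun w => f (cn w)) w + ev x (fun w => g (cn w)) w := by
      ext w
      rw [← ev_add]
      rfl
    rw [this]
    exact h1.add h2
  | smul c f _ h1 =>
    have : ev x (fun w => (c • f) (cn w)) = fun w => c * ev x (fun w => f (cn w)) w := by
      ext w
      rw [← ev_mul]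
      rfl
    rw [this]
    exact (Meas.const c).mul h1

include hE in
theorem Meas_IP (x : α) (M : (α → ℕ) → ℤ) (hM : IP k M) : Meas (ev x (fun w => M (cn w))) := by
  obtain ⟨N, hN, h⟩ := hM
  apply Meas.of_mul N hN
  have := Meas_mono k hE x _ h
  have e : (fun w => N * ev x (fun w => M (cn w)) w) = ev x (fun w => N * M (cn w)) := by
    ext w
    rw [ev_mul]
  rw [e]
  exact this

include hE in
theorem Det_EV [Finite A] (x : α) (F : (α → ℕ) → A) (hF : F ∈ SP (α := α) A k) :
    Det (EV x F) := by
  unfold SP at hF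
  induction hF using AddSubmonoid.closure_induction with
  | mem F hF =>
    obtain ⟨M, a, hM, rfl⟩ := hF
    have : EV x (fun b => M b • a) = fun w => (ev x (fun w => M (cn w)) w) • a := by
      ext w
      exact EV_smul x M a w
    rw [this]
    exact Det_smul (Meas_IP k hE x M hM) a
  | zero =>
    have : EV x (0 : (α → ℕ) → A) = fun _ => 0 := by
      ext w
      simp [EV]
    rw [this]
    exact Det_const 0
  | add F G _ _ h1 h2 =>
    have : EV x (F + G) = fun w => EV x F w + EV x G w := by
      ext w
      exact EV_add x F G w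
    rw [this]
    exact Det_op (fun a b : A => a + b) h1 h2

theorem ev_one (x : α) (w : List α) : ev x (fun _ => 1) w = w.count x := by
  induction w using List.reverseRecOn with
  | nil => simp [ev]
  | append_singleton w y ih =>
    unfold ev at ih ⊢
    rw [List.length_append, List.length_singleton, Finset.sum_range_succ]
    have e1 : ∑ i ∈ Finset.range w.length, (if (w ++ [y])[i]? = some x then (1 : ℤ) else 0) =
        ∑ i ∈ Finset.range w.length, if w[i]? = some x then (1 : ℤ) else 0 := by
      apply Finset.sum_congr rfl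
      intro i hi
      rw [Finset.mem_range] at hi
      rw [List.getElem?_append_left hi]
    rw [e1, ih]
    by_cases hy : y = x
    · subst hy
      simp
    · simp [hy]

include hE in
theorem Meas_count (x : α) : Meas (fun w => ((w.count x : ℕ) : ℤ)) := by
  have := hE x [] (Nat.zero_le _)
  simp only [List.map_nil, List.prod_nil] at this
  have e : ev x (fun _ => 1) = fun w => ((w.count x : ℕ) : ℤ) := by
    ext w
    exact ev_one x w
  rwa [e] at this

end eval

/-! ### the group -/

/-- the commutator subgroup in additive notation -/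
structure Emb (A : Type) [AddCommGroup A] (G : Type) [Group G] where
  j : A → G
  j0 : j 0 = 1
  ja : ∀ a b, j (a + b) = j a * j b
  ji : Function.Injective j
  jr : ∀ g, g ∈ commutator G ↔ ∃ a, j a = g

variable {G : Type} [Group G] (E : Emb A G)

theorem Emb.jneg (a : A) : E.j (-a) = (E.j a)⁻¹ := by
  rw [eq_inv_iff_mul_eq_one, ← E.ja, neg_add_cancel, E.j0]

theorem Emb.jsub (a b : A) : E.j (a - b) = E.j a * (E.j b)⁻¹ := by
  rw [sub_eq_add_neg, E.ja, E.jneg]

/-- the filtration -/
def Emb.W (r : ℕ) : AddSubgroup A where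
  carrier := {a | E.j a ∈ (⊤ : Subgroup G).lowerCentralSeries r}
  zero_mem' := by
    rw [Set.mem_ofPred_eq, E.j0]
    exact Subgroup.one_mem _
  add_mem' := by
    intro a b ha hb
    rw [Set.mem_ofPred_eq] at ha hb ⊢
    rw [E.ja]
    exact Subgroup.mul_mem _ ha hb
  neg_mem' := by
    intro a ha
    rw [Set.mem_ofPred_eq] at ha ⊢
    rw [E.jneg]
    exact Subgroup.inv_mem _ ha

theorem Emb.mem_W (r : ℕ) (a : A) : a ∈ E.W r ↔ E.j a ∈ (⊤ : Subgroup G).lowerCentralSeries r :=
  Iff.rfl

theorem Emb.W_anti : Antitone E.W := by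
  intro r r' h a ha
  exact (Subgroup.lowerCentralSeries_antitone (S := (⊤ : Subgroup G))) h ha

theorem Emb.W_one (a : A) : a ∈ E.W 1 := by
  rw [E.mem_W, Subgroup.top_lowerCentralSeries_one]
  exact (E.jr _).2 ⟨a, rfl⟩

theorem Emb.W_zero (a : A) : a ∈ E.W 0 := E.W_anti (Nat.zero_le 1) (E.W_one a)

theorem Emb.conj_ex (g : G) (a : A) : ∃ a', E.j a' = g * E.j a * g⁻¹ := by
  rw [← E.jr]
  have h : (commutator G).Normal := inferInstance
  exact h.conj_mem _ ((E.jr _).2 ⟨a, rfl⟩) g

/-- conjugation -/
noncomputable def Emb.T (g : G) : AddMonoid.End A where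
  toFun a := (E.conj_ex g a).choose
  map_zero' := by
    apply E.ji
    rw [(E.conj_ex g 0).choose_spec, E.j0]
    simp
  map_add' := by
    intro a b
    apply E.ji
    rw [(E.conj_ex g (a + b)).choose_spec, E.ja, E.ja, (E.conj_ex g a).choose_spec,
      (E.conj_ex g b).choose_spec]
    group

theorem Emb.jT (g : G) (a : A) : E.j (E.T g a) = g * E.j a * g⁻¹ := (E.conj_ex g a).choose_spec

theorem Emb.jT_pow (g : G) (n : ℕ) (a : A) : E.j ((E.T g ^ n) a) = g ^ n * E.j a * (g ^ n)⁻¹ := by
  induction n generalizing a with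
  | zero => simp
  | succ n ih =>
    rw [pow_succ]
    show E.j ((E.T g ^ n) (E.T g a)) = _
    rw [ih, E.jT, pow_succ]
    group

open scoped commutatorElement in
theorem Emb.T_W (g : G) (r : ℕ) (a : A) (ha : a ∈ E.W r) : E.T g a - a ∈ E.W (r + 1) := by
  rw [E.mem_W] at ha ⊢
  rw [E.jsub, E.jT, Subgroup.lowerCentralSeries_succ]
  have h : ⁅E.j a, g⁆ ∈ ⁅(⊤ : Subgroup G).lowerCentralSeries r, (⊤ : Subgroup G)⁆ :=
    Subgroup.commutator_mem_commutator ha (Subgroup.mem_top g)
  have h2 := Subgroup.inv_mem _ h
  rw [commutatorElement_inv, commutatorElement_def] at h2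
  exact h2

/-- functions with values in the commutator subgroup, of the class `Q` -/
def Emb.IsQ (i : ℕ) (f : (α → ℕ) → G) : Prop :=
  ∃ F : (α → ℕ) → A, (∀ b, E.j (F b) = f b) ∧ Q E.W i F

theorem Emb.isQ_mul {i : ℕ} {f f' : (α → ℕ) → G} (h : E.IsQ i f) (h' : E.IsQ i f') :
    E.IsQ i (fun b => f b * f' b) := by
  obtain ⟨F, h1, h2⟩ := h
  obtain ⟨F', h1', h2'⟩ := h'
  exact ⟨fun b => F b + F' b, fun b => by rw [E.ja, h1, h1'], Q_add h2 h2'⟩

theorem Emb.isQ_pow {i : ℕ} {f : (α → ℕ) → G} (h : E.IsQ i f) (g : G) (y : α) :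
    E.IsQ i (fun b => g ^ b y * f b * (g ^ b y)⁻¹) := by
  obtain ⟨F, h1, h2⟩ := h
  refine ⟨fun b => (E.T g ^ (b y)) (F b), fun b => by rw [E.jT_pow, h1], ?_⟩
  exact Q_pow E.W_anti (E.T g) (E.T_W g) y h2

theorem Emb.isQ_one (i : ℕ) : E.IsQ i (fun _ : α → ℕ => (1 : G)) :=
  ⟨fun _ => 0, fun _ => E.j0, Q_zero i⟩

theorem Emb.isQ_comm (g h : G) (y : α) :
    E.IsQ 0 (fun b : α → ℕ => g ^ b y * h * (g ^ b y)⁻¹ * h⁻¹) := by
  have hex : ∀ b : α → ℕ, ∃ a, E.j a = g ^ b y * h * (g ^ b y)⁻¹ * h⁻¹ := by
    intro b
    rw [← E.jr, commutator_def, ← commutatorElement_def]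
    exact Subgroup.commutator_mem_commutator (Subgroup.mem_top _) (Subgroup.mem_top _)
  choose F hF using hex
  refine ⟨F, hF, ?_⟩
  rw [Q_iff]
  refine ⟨fun b => E.W_zero _, fun z => ?_⟩
  by_cases hz : z = y
  · subst hz
    obtain ⟨c, hc⟩ : ∃ a, E.j a = g * h * g⁻¹ * h⁻¹ := by
      rw [← E.jr, commutator_def, ← commutatorElement_def]
      exact Subgroup.commutator_mem_commutator (Subgroup.mem_top _) (Subgroup.mem_top _)
    have h1 : D z F = fun b => (E.T g ^ (b z)) ((fun _ => c) b) := by
      ext b
      apply E.ji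
      rw [E.jT_pow, D, E.jsub, hF, hF, hc]
      have e2 : (b + ee z) z = b z + 1 := by simp [ee]
      rw [e2, pow_succ]
      group
    rw [h1]
    exact Q_pow E.W_anti (E.T g) (E.T_W g) z (Q_const (E.W_one c))
  · have h1 : D z F = fun _ => 0 := by
      ext b
      apply E.ji
      rw [D, E.jsub, hF, hF, E.j0]
      have e2 : (b + ee z) y = b y := by simp [ee, Ne.symm hz]
      rw [e2]
      group
    rw [h1]
    exact Q_zero _

/-- ordered product -/
def ss (g : α → G) (l : List α) (b : α → ℕ) : G := (l.map (fun y => g y ^ b y)).prod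

omit [DecidableEq α] in
theorem ss_cons (g : α → G) (y : α) (l : List α) (b : α → ℕ) :
    ss g (y :: l) b = g y ^ b y * ss g l b := by simp [ss]

theorem ss_not_mem (g : α → G) (l : List α) (x : α) (hx : x ∉ l) (b : α → ℕ) :
    ss g l (b + ee x) = ss g l b := by
  unfold ss
  congr 1
  apply List.map_congr_left
  intro y hy
  have : y ≠ x := fun h => hx (h ▸ hy)
  simp [ee, this]

theorem Emb.isQ_delta (g : α → G) (h : G) (l : List α) :
    E.IsQ 0 (fun b : α → ℕ => ss g l b * h * (ss g l b)⁻¹ * h⁻¹) := by
  induction l with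
  | nil =>
    have : (fun b : α → ℕ => ss g [] b * h * (ss g [] b)⁻¹ * h⁻¹) = fun _ => 1 := by
      ext b
      simp [ss]
    rw [this]
    exact E.isQ_one 0
  | cons y l ih =>
    have : (fun b : α → ℕ => ss g (y :: l) b * h * (ss g (y :: l) b)⁻¹ * h⁻¹) =
        fun b => (g y ^ b y * (ss g l b * h * (ss g l b)⁻¹ * h⁻¹) * (g y ^ b y)⁻¹) *
          (g y ^ b y * h * (g y ^ b y)⁻¹ * h⁻¹) := by
      ext b
      rw [ss_cons]
      group
    rw [this]
    exact E.isQ_mul (E.isQ_pow ih (g y) y) (E.isQ_comm (g y) h y)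

theorem Emb.isQ_kappa (g : α → G) (x : α) (l : List α) (hl : l.Nodup) (hx : x ∈ l) :
    E.IsQ 0 (fun b : α → ℕ => ss g l b * g x * (ss g l (b + ee x))⁻¹) := by
  induction l with
  | nil => simp at hx
  | cons y l ih =>
    rw [List.nodup_cons] at hl
    by_cases hxy : x = y
    · subst hxy
      have : (fun b : α → ℕ => ss g (x :: l) b * g x * (ss g (x :: l) (b + ee x))⁻¹) =
          fun b => g x ^ b x * (ss g l b * g x * (ss g l b)⁻¹ * (g x)⁻¹) * (g x ^ b x)⁻¹ := by
        ext b
        have e2 : (b + ee x) x = b x + 1 := by simp [ee]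
        rw [ss_cons, ss_cons, ss_not_mem g l x hl.1, e2, pow_succ]
        group
      rw [this]
      exact E.isQ_pow (E.isQ_delta g (g x) l) (g x) x
    · have hx' : x ∈ l := by
        rw [List.mem_cons] at hx
        exact hx.resolve_left hxy
      have : (fun b : α → ℕ => ss g (y :: l) b * g x * (ss g (y :: l) (b + ee x))⁻¹) =
          fun b => g y ^ b y * (ss g l b * g x * (ss g l (b + ee x))⁻¹) * (g y ^ b y)⁻¹ := by
        ext b
        have e2 : (b + ee x) y = b y := by simp [ee, Ne.symm hxy]
        rw [ss_cons, ss_cons, e2]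
        group
      rw [this]
      exact E.isQ_pow (ih hl.2 hx') (g y) y

theorem word_formula [Fintype α] (g : α → G) (L : List α) (F : α → (α → ℕ) → A)
    (hF : ∀ x b, E.j (F x b) = ss g L b * g x * (ss g L (b + ee x))⁻¹) (w : List α) :
    (w.map g).prod = E.j (∑ x : α, EV x (F x) w) * ss g L (cn w) := by
  induction w using List.reverseRecOn with
  | nil =>
    simp only [List.map_nil, List.prod_nil, EV, List.length_nil, Finset.range_zero,
      Finset.sum_empty, Finset.sum_const_zero, E.j0, one_mul]
    simp [ss, cn]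
  | append_singleton w x ih =>
    rw [List.map_append, List.prod_append, ih, cn_append]
    simp only [EV_append, Finset.sum_add_distrib, List.map_cons, List.map_nil, List.prod_cons,
      List.prod_nil, mul_one, Finset.sum_ite_eq, Finset.mem_univ, if_true]
    rw [E.ja, hF]
    group

omit [DecidableEq α] in
theorem ofList_prod (φ : FreeMonoid α →* G) (w : List α) :
    φ (FreeMonoid.ofList w) = (w.map (fun x => φ (FreeMonoid.of x))).prod := by
  induction w with
  | nil => simp
  | cons a w ih => rw [FreeMonoid.ofList_cons, map_mul, ih]; simp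

end NilpF

open NilpF in
/-- TASK F -/
theorem nilp_of_polyCount {α : Type} [Finite α] [DecidableEq α] {G : Type} [Group G] [Finite G]
    (k : ℕ) (hk : 1 ≤ k)
    (hab : ∀ a ∈ commutator G, ∀ b ∈ commutator G, a * b = b * a)
    (hnil : (⊤ : Subgroup G).lowerCentralSeries (k + 1) = ⊥)
    (hE : ∀ (x : α) (l : List α), l.length ≤ k →
      Meas (ev x (fun w => (l.map (fun y => (w.count y : ℤ))).prod)))
    (φ : FreeMonoid α →* G) (g : G) :
    HeightLE 1 {w : List α | φ (FreeMonoid.ofList w) = g} := by
  classical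
  have := Fintype.ofFinite α
  let _ : CommGroup (commutator G) :=
    { (inferInstance : Group (commutator G)) with
      mul_comm := fun a b => Subtype.ext (hab a a.2 b b.2) }
  let E : Emb (Additive (commutator G)) G :=
    { j := fun a => ((Additive.toMul a : commutator G) : G)
      j0 := rfl
      ja := fun a b => rfl
      ji := fun a b h => Subtype.ext h
      jr := fun g => ⟨fun h => ⟨Additive.ofMul ⟨g, h⟩, rfl⟩, by
        rintro ⟨a, rfl⟩
        exact (Additive.toMul a).2⟩ }
  have hfin : Finite (Additive (commutator G)) := inferInstanceAs (Finite (commutator G))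
  set γ : α → G := fun x => φ (FreeMonoid.of x) with hγ
  set L : List α := (Finset.univ : Finset α).toList with hL
  have hLn : L.Nodup := Finset.nodup_toList _
  have hLm : ∀ x, x ∈ L := fun x => by simp [hL]
  have hK := fun x => E.isQ_kappa γ x L hLn (hLm x)
  choose F hF1 hF2 using hK
  have hSP : ∀ x, F x ∈ SP (α := α) (Additive (commutator G)) k := by
    intro x
    apply taylor L k (F x)
    · intro b b' hb
      have : b = b' := by
        ext y
        exact hb y (hLm y)
      rw [this]
    · intro l hl
      funext b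
      have h1 := hF2 x l b
      rw [hl, E.mem_W, add_zero, hnil, Subgroup.mem_bot] at h1
      apply E.ji
      rw [h1, E.j0]
  have hdet1 : Det (fun w : List α => ∑ x : α, EV x (F x) w) :=
    Det_sum _ (fun x _ => Det_EV k hE x (F x) (hSP x))
  have hdet2 : ∀ l : List α, Det (fun w : List α => ss γ l (cn w)) := by
    intro l
    induction l with
    | nil => exact Det_const (1 : G)
    | cons y l ih =>
      have h1 : Det (fun w : List α => γ y ^ (w.count y)) := Det_pow (Meas_count k hE y) (γ y)
      have h2 := Det_op (fun a b : G => a * b) h1 ih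
      have h3 : (fun w : List α => ss γ (y :: l) (cn w)) =
          fun w => γ y ^ (w.count y) * ss γ l (cn w) := by
        ext w
        rw [ss_cons]
        rfl
      rw [h3]
      exact h2
  have hdet : Det (fun w : List α => φ (FreeMonoid.ofList w)) := by
    have h3 : (fun w : List α => φ (FreeMonoid.ofList w)) =
        fun w => E.j (∑ x : α, EV x (F x) w) * ss γ L (cn w) := by
      ext w
      rw [ofList_prod, ← word_formula E γ L F hF1 w]
    rw [h3]
    exact Det_op (fun a b => E.j a * b) hdet1 (hdet2 L)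
  exact Det_height hdet g

end Pool.Agent.H643R2.SH
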