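import Pool.Agent.H643R2.SH.Cyc

/-! # Polynomial weights of degree at most three -/

namespace Pool.Agent.H643R2.SH

variable {α : Type}

theorem Meas.of_modEq {f : List α → ℤ}
    (h : ∀ m : ℕ, 0 < m → ∃ g, Meas g ∧ ∀ w, f w ≡ g w [ZMOD (m : ℤ)]) : Meas f := by
  intro m hm r
  obtain ⟨g, hg, hfg⟩ := h m hm
  have e : {w : List α | f w ≡ r [ZMOD (m : ℤ)]} = {w : List α | g w ≡ r [ZMOD (m : ℤ)]} := by
    ext w
    exact ⟨fun h => (hfg w).symm.trans h, fun h => (hfg w).trans h⟩
  rw [e]
  exact hg m hm r

variable [DecidableEq α]

/-- If the level sets modulo every `N` of `S` can be counted, then so can powers of `S`. -/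
theorem ev_pow_meas (x : α) (S : List α → ℤ)
    (hS : ∀ N : ℕ, 0 < N → ∀ s : ZMod N,
      Meas (ev x (fun w => if ((S w : ℤ) : ZMod N) = s then 1 else 0))) (j : ℕ) :
    Meas (ev x (fun w => S w ^ j)) := by
  apply Meas.of_modEq
  intro m hm
  have : NeZero m := ⟨hm.ne'⟩
  refine ⟨fun w => ∑ s : ZMod m, (s.val : ℤ) ^ j *
    ev x (fun w => if ((S w : ℤ) : ZMod m) = s then 1 else 0) w,
    Meas.sum _ (fun s _ => (hS m hm s).smul _), fun w => ?_⟩
  have h1 : ∑ s : ZMod m, (s.val : ℤ) ^ j *
      ev x (fun w => if ((S w : ℤ) : ZMod m) = s then 1 else 0) w =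
      ev x (fun w => ∑ s : ZMod m, (s.val : ℤ) ^ j *
        (if ((S w : ℤ) : ZMod m) = s then 1 else 0)) w := by
    rw [ev_sum]
    apply Finset.sum_congr rfl
    intro s _
    rw [ev_smul]
  beta_reduce
  rw [h1]
  apply ev_modEq
  intro v
  rw [Finset.sum_eq_single ((S v : ℤ) : ZMod m)]
  · rw [if_pos rfl, mul_one]
    apply Int.ModEq.pow
    rw [← ZMod.intCast_eq_intCast_iff]
    simp
  · intro s _ hs
    rw [if_neg (Ne.symm hs), mul_zero]
  · intro h
    exact absurd (Finset.mem_univ _) h

variable [Finite α]

theorem form_meas (l : α → ℤ) (hl : ∀ a, l a = -1 ∨ l a = 0 ∨ l a = 1) (x : α) (hx : l x = 0)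
    (j : ℕ) : Meas (ev x (fun w => ((w.map l).sum) ^ j)) :=
  ev_pow_meas x _ (fun N hN s => stepCount l hl x hx N hN s) j

/-- The counter of a letter. -/
def cz (y : α) (w : List α) : ℤ := (w.count y : ℤ)

omit [Finite α] in
theorem cz_append (y : α) (w : List α) (a : α) :
    cz y (w ++ [a]) = cz y w + if a = y then 1 else 0 := by
  unfold cz
  rw [List.count_append]
  by_cases h : a = y <;> simp [h]

omit [Finite α] in
theorem cz_nil (y : α) : cz y ([] : List α) = 0 := by simp [cz]

omit [Finite α] in
theorem cz_eq_sum (y : α) (w : List α) : (w.map (fun a => if a = y then (1 : ℤ) else 0)).sum =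
    cz y w := by
  induction w using List.reverseRecOn with
  | nil => simp [cz]
  | append_singleton w a ih => rw [List.map_append, List.sum_append, ih, cz_append]; simp

theorem one_meas (x : α) : Meas (ev x (fun _ => 1)) := by
  have h := form_meas (fun _ : α => 0) (fun _ => Or.inr (Or.inl rfl)) x rfl 0
  simpa using h

theorem f1_meas (x y : α) (hxy : x ≠ y) (j : ℕ) : Meas (ev x (fun w => cz y w ^ j)) := by
  have h := form_meas (fun a => if a = y then (1 : ℤ) else 0)
    (fun a => by by_cases h : a = y <;> simp [h]) x (by simp [hxy]) j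
  exact h.congr (fun w => ev_congr x (fun v => by rw [cz_eq_sum]) w)

theorem f2_meas (x y z : α) (hxy : x ≠ y) (hxz : x ≠ z) (hyz : y ≠ z) (j : ℕ) :
    Meas (ev x (fun w => (cz y w + cz z w) ^ j)) := by
  have h := form_meas (fun a => (if a = y then (1 : ℤ) else 0) + (if a = z then (1 : ℤ) else 0))
    (fun a => by
      by_cases h : a = y
      · have : a ≠ z := h ▸ hyz
        simp [h, hyz]
      · by_cases h' : a = z <;> simp [h, h', hyz.symm]) x (by simp [hxy, hxz]) j
  exact h.congr (fun w => ev_congr x (fun v => by
    rw [List.sum_map_add, cz_eq_sum, cz_eq_sum]) w)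

theorem f2m_meas (x y z : α) (hxy : x ≠ y) (hxz : x ≠ z) (hyz : y ≠ z) (j : ℕ) :
    Meas (ev x (fun w => (cz y w - cz z w) ^ j)) := by
  have h := form_meas (fun a => (if a = y then (1 : ℤ) else 0) + (-1) *
      (if a = z then (1 : ℤ) else 0))
    (fun a => by
      by_cases h : a = y
      · have : a ≠ z := h ▸ hyz
        simp [h, hyz]
      · by_cases h' : a = z <;> simp [h, h', hyz.symm]) x (by simp [hxy, hxz]) j
  exact h.congr (fun w => ev_congr x (fun v => by
    rw [List.sum_map_add, List.sum_map_mul_left, cz_eq_sum, cz_eq_sum]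
    ring) w)

theorem f3_meas (x y z t : α) (hxy : x ≠ y) (hxz : x ≠ z) (hxt : x ≠ t) (hyz : y ≠ z)
    (hyt : y ≠ t) (hzt : z ≠ t) (j : ℕ) :
    Meas (ev x (fun w => (cz y w + cz z w + cz t w) ^ j)) := by
  have h := form_meas (fun a => (if a = y then (1 : ℤ) else 0) + (if a = z then (1 : ℤ) else 0)
      + (if a = t then (1 : ℤ) else 0))
    (fun a => by
      by_cases h : a = y
      · simp [h, hyz, hyt]
      · by_cases h' : a = z
        · simp [h', hyz.symm, hzt]
        · by_cases h'' : a = t <;> simp [h, h', h'', hyt.symm, hzt.symm]) x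
    (by simp [hxy, hxz, hxt]) j
  exact h.congr (fun w => ev_congr x (fun v => by
    rw [List.sum_map_add, List.sum_map_add, cz_eq_sum, cz_eq_sum, cz_eq_sum]) w)

theorem mv_meas (x z : α) (hxz : x ≠ z) (j : ℕ) :
    Meas (ev x (fun w => (cz x w - cz z w) ^ j)) :=
  ev_pow_meas x _ (fun N hN s => movingCount x z hxz N hN s) j

/-! Monomials not containing the event letter. -/

theorem m2_meas (x y z : α) (hxy : x ≠ y) (hxz : x ≠ z) :
    Meas (ev x (fun w => cz y w * cz z w)) := by
  by_cases hyz : y = z
  · subst hyz
    exact (f1_meas x y hxy 2).congr (fun w => ev_congr x (fun v => by ring) w)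
  · apply Meas.of_mul 2 two_ne_zero
    refine (((f2_meas x y z hxy hxz hyz 2).sub (f1_meas x y hxy 2)).sub
      (f1_meas x z hxz 2)).congr (fun w => ?_)
    rw [← ev_smul, sub_eq_add_neg, sub_eq_add_neg]
    rw [show -ev x (fun w => cz y w ^ 2) w = (-1) * ev x (fun w => cz y w ^ 2) w by ring,
      show -ev x (fun w => cz z w ^ 2) w = (-1) * ev x (fun w => cz z w ^ 2) w by ring,
      ← ev_smul, ← ev_smul, ← ev_add, ← ev_add]
    exact ev_congr x (fun v => by ring) w

theorem m21_meas (x y z : α) (hxy : x ≠ y) (hxz : x ≠ z) (hyz : y ≠ z) :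
    Meas (ev x (fun w => cz y w * cz y w * cz z w)) := by
  apply Meas.of_mul 6 (by norm_num)
  refine (((f2_meas x y z hxy hxz hyz 3).add ((f2m_meas x y z hxy hxz hyz 3).smul (-1))).add
    ((f1_meas x z hxz 3).smul (-2))).congr (fun w => ?_)
  rw [← ev_smul, ← ev_smul, ← ev_smul, ← ev_add, ← ev_add]
  exact ev_congr x (fun v => by ring) w

theorem m3_meas (x y z t : α) (hxy : x ≠ y) (hxz : x ≠ z) (hxt : x ≠ t) :
    Meas (ev x (fun w => cz y w * cz z w * cz t w)) := by
  by_cases hyz : y = z
  · subst hyz
    by_cases hyt : y = t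
    · subst hyt
      exact (f1_meas x y hxy 3).congr (fun w => ev_congr x (fun v => by ring) w)
    · exact m21_meas x y t hxy hxt hyt
  · by_cases hyt : y = t
    · subst hyt
      exact (m21_meas x y z hxy hxz hyz).congr (fun w => ev_congr x (fun v => by ring) w)
    · by_cases hzt : z = t
      · subst hzt
        exact (m21_meas x z y hxz hxy (Ne.symm hyz)).congr
          (fun w => ev_congr x (fun v => by ring) w)
      · apply Meas.of_mul 6 (by norm_num)
        refine (((((((f3_meas x y z t hxy hxz hxt hyz hyt hzt 3).add
          ((f2_meas x y z hxy hxz hyz 3).smul (-1))).add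
          ((f2_meas x y t hxy hxt hyt 3).smul (-1))).add
          ((f2_meas x z t hxz hxt hzt 3).smul (-1))).add
          (f1_meas x y hxy 3)).add (f1_meas x z hxz 3)).add
          (f1_meas x t hxt 3)).congr (fun w => ?_)
        simp only [← ev_smul, ← ev_add]
        exact ev_congr x (fun v => by ring) w

/-! Monomials containing the event letter. -/

omit [Finite α] in
theorem tot_x (x : α) (w : List α) :
    cz x w ^ 2 = 2 * ev x (cz x) w + ev x (fun _ => 1) w := by
  induction w using List.reverseRecOn with
  | nil => simp [cz_nil, ev_nil]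
  | append_singleton w a ih =>
    simp only [cz_append, ev_append]
    by_cases h : a = x
    · simp only [h, if_true]; linear_combination ih
    · simp only [h, if_false]; linear_combination ih

omit [Finite α] in
theorem tot_xx (x : α) (w : List α) :
    cz x w ^ 3 = 3 * ev x (fun w => cz x w * cz x w) w + 3 * ev x (cz x) w
      + ev x (fun _ => 1) w := by
  induction w using List.reverseRecOn with
  | nil => simp [cz_nil, ev_nil]
  | append_singleton w a ih =>
    simp only [cz_append, ev_append]
    by_cases h : a = x
    · simp only [h, if_true]; linear_combination ih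
    · simp only [h, if_false]; linear_combination ih

omit [Finite α] in
theorem tot_xxx (x : α) (w : List α) :
    cz x w ^ 4 = 4 * ev x (fun w => cz x w * cz x w * cz x w) w
      + 6 * ev x (fun w => cz x w * cz x w) w + 4 * ev x (cz x) w
      + ev x (fun _ => 1) w := by
  induction w using List.reverseRecOn with
  | nil => simp [cz_nil, ev_nil]
  | append_singleton w a ih =>
    simp only [cz_append, ev_append]
    by_cases h : a = x
    · simp only [h, if_true]; linear_combination ih
    · simp only [h, if_false]; linear_combination ih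

omit [Finite α] in
theorem tot_xz (x z : α) (hxz : x ≠ z) (w : List α) :
    cz x w ^ 2 * cz z w = 2 * ev x (fun w => cz x w * cz z w) w + ev x (cz z) w
      + ev z (fun w => cz x w * cz x w) w := by
  induction w using List.reverseRecOn with
  | nil => simp [cz_nil, ev_nil]
  | append_singleton w a ih =>
    simp only [cz_append, ev_append]
    by_cases h : a = x
    · simp only [h, if_true, hxz, if_false]; linear_combination ih
    · by_cases h' : a = z
      · simp only [h', if_true, hxz.symm, if_false]; linear_combination ih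
      · simp only [h, h', if_false]; linear_combination ih

omit [Finite α] in
theorem tot_xxz (x z : α) (hxz : x ≠ z) (w : List α) :
    cz x w ^ 3 * cz z w = 3 * ev x (fun w => cz x w * cz x w * cz z w) w
      + 3 * ev x (fun w => cz x w * cz z w) w + ev x (cz z) w
      + ev z (fun w => cz x w * cz x w * cz x w) w := by
  induction w using List.reverseRecOn with
  | nil => simp [cz_nil, ev_nil]
  | append_singleton w a ih =>
    simp only [cz_append, ev_append]
    by_cases h : a = x
    · simp only [h, if_true, hxz, if_false]; linear_combination ih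
    · by_cases h' : a = z
      · simp only [h', if_true, hxz.symm, if_false]; linear_combination ih
      · simp only [h, h', if_false]; linear_combination ih

omit [Finite α] in
theorem tot_xzt (x z t : α) (hxz : x ≠ z) (hxt : x ≠ t) (hzt : z ≠ t) (w : List α) :
    cz x w ^ 2 * cz z w * cz t w = 2 * ev x (fun w => cz x w * cz z w * cz t w) w
      + ev x (fun w => cz z w * cz t w) w
      + ev z (fun w => cz x w * cz x w * cz t w) w
      + ev t (fun w => cz x w * cz x w * cz z w) w := by
  induction w using List.reverseRecOn with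
  | nil => simp [cz_nil, ev_nil]
  | append_singleton w a ih =>
    simp only [cz_append, ev_append]
    by_cases h : a = x
    · simp only [h, if_true, hxz, hxt, if_false]; linear_combination ih
    · by_cases h' : a = z
      · simp only [h', if_true, hxz.symm, hzt, if_false]; linear_combination ih
      · by_cases h'' : a = t
        · simp only [h'', if_true, hxt.symm, hzt.symm, if_false]; linear_combination ih
        · simp only [h, h', h'', if_false]; linear_combination ih

theorem cz_meas (x : α) : Meas (cz x) := (one_meas x).congr (fun w => (ev_one x w).symm)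

theorem p1_meas (x y : α) : Meas (ev x (cz y)) := by
  by_cases h : x = y
  · subst h
    apply Meas.of_mul 2 two_ne_zero
    refine ((((cz_meas x).pow 2)).sub (one_meas x)).congr (fun w => ?_)
    linear_combination -tot_x x w
  · exact (f1_meas x y h 1).congr (fun w => ev_congr x (fun v => by ring) w)

theorem pxx_meas (x : α) : Meas (ev x (fun w => cz x w * cz x w)) := by
  apply Meas.of_mul 3 (by norm_num)
  refine ((((cz_meas x).pow 3).sub ((p1_meas x x).smul 3)).sub (one_meas x)).congr (fun w => ?_)
  linear_combination -tot_xx x w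

theorem pxz_meas (x z : α) (h : x ≠ z) : Meas (ev x (fun w => cz x w * cz z w)) := by
  apply Meas.of_mul 2 two_ne_zero
  refine (((((cz_meas x).pow 2).mul (cz_meas z)).sub (p1_meas x z)).sub
    (m2_meas z x x h.symm h.symm)).congr (fun w => ?_)
  linear_combination -tot_xz x z h w

theorem p2_meas (x y z : α) : Meas (ev x (fun w => cz y w * cz z w)) := by
  by_cases hy : x = y
  · subst hy
    by_cases hz : x = z
    · subst hz
      exact pxx_meas x
    · exact pxz_meas x z hz
  · by_cases hz : x = z
    · subst hz
      exact (pxz_meas x y hy).congr (fun w => ev_congr x (fun v => by ring) w)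
    · exact m2_meas x y z hy hz

theorem pxxx_meas (x : α) : Meas (ev x (fun w => cz x w * cz x w * cz x w)) := by
  apply Meas.of_mul 4 (by norm_num)
  refine (((((cz_meas x).pow 4).sub ((p2_meas x x x).smul 6)).sub ((p1_meas x x).smul 4)).sub
    (one_meas x)).congr (fun w => ?_)
  linear_combination -tot_xxx x w

theorem pxxz_meas (x z : α) (h : x ≠ z) :
    Meas (ev x (fun w => cz x w * cz x w * cz z w)) := by
  apply Meas.of_mul 3 (by norm_num)
  refine ((((((cz_meas x).pow 3).mul (cz_meas z)).sub ((p2_meas x x z).smul 3)).sub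
    (p1_meas x z)).sub (m3_meas z x x x h.symm h.symm h.symm)).congr (fun w => ?_)
  linear_combination -tot_xxz x z h w

theorem pxzz_meas (x z : α) (h : x ≠ z) :
    Meas (ev x (fun w => cz x w * cz z w * cz z w)) := by
  apply Meas.of_mul 3 (by norm_num)
  refine ((((mv_meas x z h 3).add ((pxxx_meas x).smul (-1))).add ((pxxz_meas x z h).smul 3)).add
    (f1_meas x z h 3)).congr (fun w => ?_)
  simp only [← ev_smul, ← ev_add]
  exact ev_congr x (fun v => by ring) w

theorem pxzt_meas (x z t : α) (hz : x ≠ z) (ht : x ≠ t) :
    Meas (ev x (fun w => cz x w * cz z w * cz t w)) := by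
  by_cases h : z = t
  · subst h
    exact pxzz_meas x z hz
  · apply Meas.of_mul 2 two_ne_zero
    refine (((((((cz_meas x).pow 2).mul (cz_meas z)).mul (cz_meas t)).sub (p2_meas x z t)).sub
      (m3_meas z x x t hz.symm hz.symm h)).sub
      (m3_meas t x x z ht.symm ht.symm (Ne.symm h))).congr (fun w => ?_)
    linear_combination -tot_xzt x z t hz ht h w

theorem px2_meas (x z t : α) : Meas (ev x (fun w => cz x w * cz z w * cz t w)) := by
  by_cases hz : x = z
  · subst hz
    by_cases ht : x = t
    · subst ht
      exact pxxx_meas x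
    · exact pxxz_meas x t ht
  · by_cases ht : x = t
    · subst ht
      exact (pxxz_meas x z hz).congr (fun w => ev_congr x (fun v => by ring) w)
    · exact pxzt_meas x z t hz ht

theorem p3_meas (x y z t : α) : Meas (ev x (fun w => cz y w * cz z w * cz t w)) := by
  by_cases hy : x = y
  · subst hy
    exact px2_meas x z t
  · by_cases hz : x = z
    · subst hz
      exact (px2_meas x y t).congr (fun w => ev_congr x (fun v => by ring) w)
    · by_cases ht : x = t
      · subst ht
        exact (px2_meas x y z).congr (fun w => ev_congr x (fun v => by ring) w)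
      · exact m3_meas x y z t hy hz ht

theorem polyCount (x : α) (l : List α) (hl : l.length ≤ 3) :
    Meas (ev x (fun w => (l.map (fun y => (w.count y : ℤ))).prod)) := by
  match l, hl with
  | [], _ => simpa using one_meas x
  | [y], _ =>
    exact (p1_meas x y).congr (fun w => ev_congr x (fun v => by simp [cz]) w)
  | [y, z], _ =>
    exact (p2_meas x y z).congr (fun w => ev_congr x (fun v => by simp [cz]) w)
  | [y, z, t], _ =>
    exact (p3_meas x y z t).congr (fun w => ev_congr x (fun v => by simp [cz, mul_assoc]) w)
  | _ :: _ :: _ :: _ :: _, h => simp at h; omega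

end Pool.Agent.H643R2.SH
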