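import Pool.Agent.H643R2.SH.Auto
import Pool.Agent.H643R2.SH.Meas

/-! # Counting letters at a level, arbitrary steps modulo a prime -/

namespace Pool.Agent.H643R2.SH

set_option linter.unusedSectionVars false

variable {α : Type}

namespace PrimeC

/-! ### General facts on counting and counter-freeness -/

section general
variable {Q : Type} (δ : Q → α → Q)

/-- integer valued counts are measurable -/
theorem meas_cnt [Finite α] [Finite Q] (mk : Q → α → Bool) (qs : Q)
    (hmk : ∀ q a, mk q a = true → δ q a = qs) (h : CounterFree (unmarked δ mk)) (q : Q) :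
    Meas (fun w => (cnt δ mk q w : ℤ)) := by
  intro m hm r
  have hm' : (0 : ℤ) < m := by exact_mod_cast hm
  have e : {w : List α | (cnt δ mk q w : ℤ) ≡ r [ZMOD (m : ℤ)]} =
      ⋃ q' : Q, {w : List α | cnt δ mk q w % m = (r % m).toNat ∧ w.foldl δ q = q'} := by
    ext w
    rw [Set.mem_ofPred_eq, Set.mem_iUnion]
    have h1 : (cnt δ mk q w : ℤ) ≡ r [ZMOD (m : ℤ)] ↔ cnt δ mk q w % m = (r % m).toNat := by
      have h2 : 0 ≤ r % m := Int.emod_nonneg _ hm'.ne'
      unfold Int.ModEq
      omega
    constructor
    · intro hw
      exact ⟨w.foldl δ q, h1.1 hw, rfl⟩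
    · rintro ⟨q', hw, _⟩
      exact h1.2 hw
  rw [e]
  exact HeightLE.iUnion fun q' => cnt_height δ mk qs hmk h m hm _ q q'

theorem cnt_le {mk mk' : Q → α → Bool} (hmm : ∀ q a, mk q a = true → mk' q a = true) (q : Q)
    (w : List α) : cnt δ mk q w ≤ cnt δ mk' q w := by
  induction w generalizing q with
  | nil => simp [cnt]
  | cons a w ih =>
    simp only [cnt]
    have := ih (δ q a)
    by_cases h : mk q a = true
    · simp only [h, hmm q a h, if_true]; omega
    · simp only [h, Bool.false_eq_true, if_false]; omega

theorem flat_add (w : List α) (i j : ℕ) : (List.replicate (i + j) w).flatten =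
    (List.replicate i w).flatten ++ (List.replicate j w).flatten := by
  rw [List.replicate_add, List.flatten_append]

theorem flat_one (w : List α) : (List.replicate 1 w).flatten = w := by simp

theorem cnt_prefix {mk : Q → α → Bool} {q : Q} {u v : List α} (h : cnt δ mk q (u ++ v) = 0) :
    cnt δ mk q u = 0 ∧ cnt δ mk (u.foldl δ q) v = 0 := by
  rw [cnt_append] at h
  omega

theorem counterFree_iff {mk : Q → α → Bool} : CounterFree (unmarked δ mk) ↔
    ∀ (w : List α) (q : Q) (k : ℕ), 0 < k → cnt δ mk q (List.replicate k w).flatten = 0 →
      (List.replicate k w).flatten.foldl δ q = q → w.foldl δ q = q := by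
  unfold CounterFree
  simp only [prun_unmarked]
  constructor
  · intro h w q k hk h1 h2
    exact (h w q k hk ⟨h1, h2⟩).2
  · rintro h w q k hk ⟨h1, h2⟩
    refine ⟨?_, h w q k hk h1 h2⟩
    obtain ⟨j, rfl⟩ : ∃ j, k = 1 + j := ⟨k - 1, by omega⟩
    rw [flat_add, flat_one] at h1
    exact (cnt_prefix δ h1).1

theorem counterFree_mono {mk mk' : Q → α → Bool} (hmm : ∀ q a, mk q a = true → mk' q a = true)
    (h : CounterFree (unmarked δ mk)) : CounterFree (unmarked δ mk') := by
  rw [counterFree_iff] at h ⊢
  intro w q k hk h1 h2
  refine h w q k hk ?_ h2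
  have := cnt_le δ hmm q (List.replicate k w).flatten
  omega

theorem cnt_add {mk mk1 mk2 : Q → α → Bool}
    (h : ∀ q a, (if mk q a then 1 else 0) = (if mk1 q a then 1 else 0) + (if mk2 q a then 1 else 0))
    (q : Q) (w : List α) : cnt δ mk q w = cnt δ mk1 q w + cnt δ mk2 q w := by
  induction w generalizing q with
  | nil => simp [cnt]
  | cons a w ih =>
    simp only [cnt]
    rw [ih, h]
    ring

/-- counting at the states given by a predicate -/
theorem cnt_eq_ev [DecidableEq α] (x : α) (P : Q → Bool) (q : Q) (w : List α) :
    ((cnt δ (fun q a => P q && decide (a = x)) q w : ℕ) : ℤ) =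
      ev x (fun w => if P (w.foldl δ q) then 1 else 0) w := by
  induction w using List.reverseRecOn with
  | nil => simp [cnt, ev_nil]
  | append_singleton w a ih =>
    rw [cnt_append, ev_append, ← ih]
    push_cast
    congr 1
    simp only [cnt, add_zero]
    by_cases h1 : a = x
    · rw [if_pos h1]
      by_cases hP : P (w.foldl δ q) = true
      · simp [h1, hP]
      · simp [h1, hP]
    · simp [h1]

end general

theorem meas_count [Finite α] [DecidableEq α] (x : α) : Meas (fun w => (w.count x : ℤ)) := by
  have h1 := meas_cnt (Q := Unit) (fun _ (_ : α) => ()) (fun _ a => decide (a = x)) ()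
    (fun _ _ _ => rfl) ((counterFree_iff _).2 fun w q k _ _ _ => rfl) ()
  refine h1.congr fun w => ?_
  induction w using List.reverseRecOn with
  | nil => simp [cnt]
  | append_singleton w a ih =>
    rw [cnt_append, List.count_append]
    push_cast
    rw [ih]
    congr 1
    simp only [cnt, add_zero]
    by_cases h : a = x
    · simp [h]
    · simp [h]

section prime
variable [DecidableEq α] {p : ℕ} [hpf : Fact p.Prime] (e : α → ZMod p)

theorem sum_flat (w : List α) (k : ℕ) :
    ((List.replicate k w).flatten.map e).sum = (k : ZMod p) * (w.map e).sum := by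
  induction k with
  | zero => simp
  | succ k ih =>
    rw [flat_add, flat_one, List.map_append, List.sum_append, ih]
    push_cast
    ring

/-- solving `i b = c` with `i < p` -/
theorem exists_mul {b : ZMod p} (hb : b ≠ 0) (c : ZMod p) : ∃ i : ℕ, i < p ∧ (i : ZMod p) * b = c := by
  refine ⟨(c / b).val, ZMod.val_lt _, ?_⟩
  rw [ZMod.natCast_zmod_val]
  field_simp

theorem le_of_mul {b : ZMod p} (hb : b ≠ 0) {k : ℕ} (hk : 0 < k) (h : (k : ZMod p) * b = 0) :
    p ≤ k := by
  have h1 : (k : ZMod p) = 0 := by
    rcases mul_eq_zero.1 h with h | h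
    · exact h
    · exact absurd h hb
  rw [ZMod.natCast_eq_zero_iff] at h1
  exact Nat.le_of_dvd hk h1

/-! ### The event letter has step `0` -/

/-- the level automaton -/
def dl (q : ZMod p) (a : α) : ZMod p := q + e a

theorem foldl_dl (q : ZMod p) (w : List α) : w.foldl (dl e) q = q + (w.map e).sum := by
  induction w generalizing q with
  | nil => simp
  | cons a w ih =>
    simp only [List.foldl_cons, List.map_cons, List.sum_cons]
    rw [ih, dl]
    ring

theorem avoid (s q : ZMod p) (w : List α)
    (h : cnt (dl e) (fun q a => decide (q ≠ s ∧ q + e a = s)) q w = 0) (hq : q ≠ s) :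
    w.foldl (dl e) q ≠ s := by
  induction w generalizing q with
  | nil => exact hq
  | cons a w ih =>
    simp only [cnt] at h
    rw [List.foldl_cons]
    apply ih
    · omega
    · intro h1
      have h2 : decide (q ≠ s ∧ q + e a = s) = true := decide_eq_true ⟨hq, h1⟩
      simp only [h2, if_true] at h
      omega

theorem cf_fix (s : ZMod p) :
    CounterFree (unmarked (dl e) (fun q a => decide (q ≠ s ∧ q + e a = s))) := by
  rw [counterFree_iff]
  intro w q k hk h1 h2
  rw [foldl_dl, sum_flat] at h2
  rw [foldl_dl]
  by_cases hb : (w.map e).sum = 0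
  · rw [hb, add_zero]
  exfalso
  have h3 : (k : ZMod p) * (w.map e).sum = 0 := by
    have := h2
    rwa [add_eq_left] at this
  have hpk := le_of_mul hb hk h3
  by_cases hq : q = s
  · obtain ⟨j, rfl⟩ : ∃ j, k = 1 + j := ⟨k - 1, by omega⟩
    rw [flat_add, flat_one] at h1
    have h4 := (cnt_prefix _ h1).2
    have h5 : w.foldl (dl e) q ≠ s := by
      rw [foldl_dl, hq]
      intro h
      exact hb (by rwa [add_eq_left] at h)
    apply avoid e s _ _ h4 h5
    rw [foldl_dl, foldl_dl, sum_flat, ← hq]
    push_cast at h3
    linear_combination h3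
  · obtain ⟨i, hi, hib⟩ := exists_mul hb (s - q)
    obtain ⟨j, rfl⟩ : ∃ j, k = i + j := ⟨k - i, by omega⟩
    rw [flat_add] at h1
    apply avoid e s _ _ (cnt_prefix _ h1).1 hq
    rw [foldl_dl, sum_flat, hib]
    ring

theorem count_fix [Finite α] (x : α) (hx : e x = 0) (s : ZMod p) :
    Meas (ev x (fun w => if (w.map e).sum = s then 1 else 0)) := by
  have h1 := meas_cnt (dl e) (fun q a => decide (q ≠ s ∧ q + e a = s)) s
    (fun q a h => (of_decide_eq_true h).2) (cf_fix e s) 0
  have h2 := meas_cnt (dl e) (fun q a => decide (q + e a = s ∧ (q ≠ s ∨ a = x))) s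
    (fun q a h => (of_decide_eq_true h).1)
    (counterFree_mono _ (fun q a h => by
      have := of_decide_eq_true h
      exact decide_eq_true ⟨this.2, Or.inl this.1⟩) (cf_fix e s)) 0
  refine (h2.sub h1).congr fun w => ?_
  have h3 := cnt_eq_ev (dl e) x (fun q => decide (q = s)) (0 : ZMod p) w
  have h4 := cnt_add (dl e) (mk := fun q a => decide (q + e a = s ∧ (q ≠ s ∨ a = x)))
    (mk1 := fun q a => decide (q ≠ s ∧ q + e a = s))
    (mk2 := fun q a => decide (q = s) && decide (a = x)) (by
      intro q a
      by_cases hq : q = s <;> by_cases ha : a = x <;> by_cases hs : q + e a = s <;>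
        simp_all) (0 : ZMod p) w
  rw [h4]
  push_cast
  rw [h3]
  rw [add_sub_cancel_left]
  apply ev_congr
  intro w
  rw [foldl_dl, zero_add]
  simp

/-! ### Moving letters -/

/-- last moving letter -/
def lm (w : List α) : Option α := (w.filter (fun a => decide (e a ≠ 0))).getLast?

/-- first moving letter -/
def fm (w : List α) : Option α := (w.filter (fun a => decide (e a ≠ 0))).head?

theorem lm_append_fix (w : List α) (a : α) (h : e a = 0) : lm e (w ++ [a]) = lm e w := by
  simp [lm, h]

theorem lm_append_mov (w : List α) (a : α) (h : e a ≠ 0) : lm e (w ++ [a]) = some a := by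
  simp [lm, h]

theorem fm_append_fix (w : List α) (a : α) (h : e a = 0) : fm e (w ++ [a]) = fm e w := by
  simp [fm, h]

theorem filter_nil_of_lm {w : List α} (h : lm e w = none) : ∀ a ∈ w, e a = 0 := by
  rw [lm, List.getLast?_eq_none_iff, List.filter_eq_nil_iff] at h
  intro a ha
  have := h a ha
  simpa using this

theorem sum_of_fix {w : List α} (h : ∀ a ∈ w, e a = 0) : (w.map e).sum = 0 := by
  apply List.sum_eq_zero
  intro c hc
  obtain ⟨a, ha, rfl⟩ := List.mem_map.1 hc
  exact h a ha

theorem fm_append_mov (w : List α) (a : α) (h : e a ≠ 0) :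
    fm e (w ++ [a]) = if lm e w = none then some a else fm e w := by
  by_cases h1 : lm e w = none
  · rw [if_pos h1]
    have h2 : w.filter (fun a => decide (e a ≠ 0)) = [] := by
      rwa [lm, List.getLast?_eq_none_iff] at h1
    rw [fm, List.filter_append, h2]
    simp [h]
  · rw [if_neg h1]
    have h2 : w.filter (fun a => decide (e a ≠ 0)) ≠ [] := by
      intro h3
      apply h1
      rw [lm, h3]
      rfl
    rw [fm, fm, List.filter_append, List.head?_append]
    cases h3 : (w.filter (fun a => decide (e a ≠ 0))).head? with
    | none => rw [List.head?_eq_none_iff] at h3; exact absurd h3 h2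
    | some b => rfl

theorem mov_of_lm {w : List α} {a : α} (h : lm e w = some a) : e a ≠ 0 := by
  have h1 : a ∈ w.filter (fun a => decide (e a ≠ 0)) := List.mem_of_getLast? h
  have := (List.mem_filter.1 h1).2
  simpa using this

/-! ### The automaton for pairs of moving letters -/

/-- the level of a state; the extra state `none` is a copy of the level `t` -/
def lev (t : ZMod p) (q : Option (ZMod p)) : ZMod p := q.getD t

/-- transitions: the extra state `none` is the level `t` when the last moving letter is `y` -/
def dp (y : α) (t : ZMod p) (q : Option (ZMod p)) (a : α) : Option (ZMod p) :=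
  if e a = 0 then q else if lev t q + e a = t ∧ a = y then none else some (lev t q + e a)

theorem lev_dp (y : α) (t : ZMod p) (q : Option (ZMod p)) (a : α) :
    lev t (dp e y t q a) = lev t q + e a := by
  unfold dp
  split_ifs with h1 h2
  · rw [h1, add_zero]
  · rw [h2.1]; rfl
  · rfl

theorem lev_foldl (y : α) (t : ZMod p) (q : Option (ZMod p)) (w : List α) :
    lev t (w.foldl (dp e y t) q) = lev t q + (w.map e).sum := by
  induction w generalizing q with
  | nil => simp
  | cons a w ih =>
    simp only [List.foldl_cons, List.map_cons, List.sum_cons]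
    rw [ih, lev_dp]
    ring

theorem foldl_fix (y : α) (t : ZMod p) (q : Option (ZMod p)) (w : List α) (h : ∀ a ∈ w, e a = 0) :
    w.foldl (dp e y t) q = q := by
  induction w generalizing q with
  | nil => rfl
  | cons a w ih =>
    rw [List.foldl_cons]
    have h1 : dp e y t q a = q := by
      unfold dp
      rw [if_pos (h a List.mem_cons_self)]
    rw [h1]
    exact ih q fun b hb => h b (List.mem_cons_of_mem _ hb)

/-- after a moving letter the state depends on the level only -/
theorem foldl_lev (y : α) (t : ZMod p) (q q' : Option (ZMod p)) (w : List α)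
    (h : ∃ a ∈ w, e a ≠ 0) (hq : lev t q = lev t q') :
    w.foldl (dp e y t) q = w.foldl (dp e y t) q' := by
  induction w generalizing q q' with
  | nil => simp at h
  | cons a w ih =>
    rw [List.foldl_cons, List.foldl_cons]
    by_cases ha : e a = 0
    · have h1 : ∀ q, dp e y t q a = q := fun q => by unfold dp; rw [if_pos ha]
      rw [h1, h1]
      apply ih _ _ _ hq
      obtain ⟨b, hb, hb'⟩ := h
      rcases List.mem_cons.1 hb with rfl | hb
      · exact absurd ha hb'
      · exact ⟨b, hb, hb'⟩
    · have h1 : dp e y t q a = dp e y t q' a := by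
        unfold dp
        rw [if_neg ha, if_neg ha, hq]
      rw [h1]

/-- the extra state is entered by `y` only -/
theorem none_back {y z : α} (hyz : y ≠ z) (t : ZMod p) (q : Option (ZMod p)) (v : List α)
    (hv : ∀ a ∈ v, e a ≠ 0 → a = z) (h : v.foldl (dp e y t) q = none) :
    q = none ∧ ∀ a ∈ v, e a = 0 := by
  induction v generalizing q with
  | nil => exact ⟨h, by simp⟩
  | cons a v ih =>
    rw [List.foldl_cons] at h
    obtain ⟨h1, h2⟩ := ih _ (fun b hb => hv b (List.mem_cons_of_mem _ hb)) h
    by_cases ha : e a = 0
    · have h3 : dp e y t q a = q := by unfold dp; rw [if_pos ha]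
      rw [h3] at h1
      refine ⟨h1, fun b hb => ?_⟩
      rcases List.mem_cons.1 hb with rfl | hb
      · exact ha
      · exact h2 b hb
    · exfalso
      have haz := hv a List.mem_cons_self ha
      unfold dp at h1
      rw [if_neg ha, if_neg (fun h => hyz (h.2.symm.trans haz))] at h1
      exact absurd h1 (by simp)

/-- marks: all entries to `t + e z`, except reading `z` in the extra state -/
def mk1 (z : α) (t : ZMod p) (q : Option (ZMod p)) (a : α) : Bool :=
  decide (e a ≠ 0 ∧ lev t q + e a = t + e z ∧ ¬ (q = none ∧ a = z))

theorem cf_pair {y z : α} (hyz : y ≠ z) (t : ZMod p) :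
    CounterFree (unmarked (dp e y t) (mk1 e z t)) := by
  rw [counterFree_iff]
  intro w q k hk h1 h2
  have h3 : (k : ZMod p) * (w.map e).sum = 0 := by
    have := lev_foldl e y t q (List.replicate k w).flatten
    rw [h2, sum_flat] at this
    rwa [left_eq_add] at this
  by_cases hb : (w.map e).sum = 0
  · by_cases hm : ∃ a ∈ w, e a ≠ 0
    · obtain ⟨j, rfl⟩ : ∃ j, k = j + 1 := ⟨k - 1, by omega⟩
      rw [flat_add, flat_one, List.foldl_append] at h2
      conv_rhs => rw [← h2]
      apply foldl_lev e y t _ _ w hm
      rw [lev_foldl, sum_flat, hb]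
      ring
    · push Not at hm
      exact foldl_fix e y t q w hm
  · exfalso
    have hpk := le_of_mul hb hk h3
    -- all moving letters of `w` are `z`
    have hA : ∀ u1 u2 : List α, ∀ a, w = u1 ++ a :: u2 → e a ≠ 0 →
        a = z ∧ ∃ i : ℕ, i < k ∧ ((List.replicate i w).flatten ++ u1).foldl (dp e y t) q = none := by
      intro u1 u2 a hw ha
      obtain ⟨i, hi, hib⟩ := exists_mul hb (t + e z - (lev t q + (u1.map e).sum + e a))
      obtain ⟨j, hj⟩ : ∃ j, k = (i + 1) + j := ⟨k - (i + 1), by omega⟩
      rw [hj, flat_add, flat_add, flat_one] at h1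
      have h4 := (cnt_prefix _ h1).1
      have h5 : (List.replicate i w).flatten ++ w =
          ((List.replicate i w).flatten ++ u1) ++ a :: u2 := by
        rw [List.append_assoc, ← hw]
      rw [h5] at h4
      have h6 := (cnt_prefix _ h4).2
      set q2 := ((List.replicate i w).flatten ++ u1).foldl (dp e y t) q with hq2
      simp only [cnt] at h6
      have h7 : lev t q2 + e a = t + e z := by
        rw [hq2, lev_foldl, List.map_append, List.sum_append, sum_flat, hib]
        ring
      have h8 : mk1 e z t q2 a = false := by
        by_contra hcon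
        rw [Bool.not_eq_false] at hcon
        rw [hcon] at h6
        simp at h6
      unfold mk1 at h8
      rw [decide_eq_false_iff_not] at h8
      have h9 : q2 = none ∧ a = z := by
        by_contra hcon
        exact h8 ⟨ha, h7, hcon⟩
      exact ⟨h9.2, i, by omega, h9.1⟩
    have hall : ∀ a ∈ w, e a ≠ 0 → a = z := by
      intro a ha ha'
      obtain ⟨u1, u2, hw⟩ := List.append_of_mem ha
      exact (hA u1 u2 a hw ha').1
    have hflat : ∀ i : ℕ, ∀ a ∈ (List.replicate i w).flatten, a ∈ w := by
      intro i a ha
      rw [List.mem_flatten] at ha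
      obtain ⟨l, hl, hal⟩ := ha
      rw [List.eq_of_mem_replicate hl] at hal
      exact hal
    -- there is a moving letter
    have hex : ∃ a ∈ w, e a ≠ 0 := by
      by_contra hcon
      push Not at hcon
      exact hb (sum_of_fix e hcon)
    obtain ⟨a, ha, ha'⟩ := hex
    obtain ⟨u1, u2, hw⟩ := List.append_of_mem ha
    obtain ⟨_, i, _, hi⟩ := hA u1 u2 a hw ha'
    have hq := (none_back e hyz t q _ (by
      intro b hb' hbe
      rcases List.mem_append.1 hb' with h | h
      · exact hall b (hflat i b h) hbe
      · exact hall b (by rw [hw]; exact List.mem_append_left _ h) hbe) hi).1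
    rw [hq] at h2
    have hfix := (none_back e hyz t none _ (fun b hb' hbe => hall b (hflat k b hb') hbe) h2).2
    apply ha'
    apply hfix
    rw [List.mem_flatten]
    exact ⟨w, List.mem_replicate.2 ⟨hk.ne', rfl⟩, ha⟩

theorem foldl_none (y : α) (hy : e y ≠ 0) (t : ZMod p) (w : List α) :
    w.foldl (dp e y t) (some 0) = none ↔ (w.map e).sum = t ∧ lm e w = some y := by
  induction w using List.reverseRecOn with
  | nil => simp [lm]
  | append_singleton w a ih =>
    have hl : lev t (w.foldl (dp e y t) (some 0)) = (w.map e).sum := by
      rw [lev_foldl]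
      simp [lev]
    rw [List.foldl_append, List.map_append, List.sum_append, List.foldl_cons, List.foldl_nil]
    simp only [List.map_cons, List.map_nil, List.sum_singleton]
    by_cases ha : e a = 0
    · rw [lm_append_fix e w a ha, ha, add_zero, ← ih]
      unfold dp
      rw [if_pos ha]
    · rw [lm_append_mov e w a ha]
      unfold dp
      rw [if_neg ha]
      change (if lev t (w.foldl (dp e y t) (some 0)) + e a = t ∧ a = y then none else
        some (lev t (w.foldl (dp e y t) (some 0)) + e a)) = none ↔ _
      rw [hl]
      constructor
      · intro h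
        split_ifs at h with h1
        exact ⟨h1.1, by rw [h1.2]⟩
      · rintro ⟨h1, h2⟩
        rw [if_pos ⟨h1, Option.some.inj h2⟩]

/-- the number of `z` read at level `t` with previous moving letter `y` -/
theorem pair_meas [Finite α] {y z : α} (hy : e y ≠ 0) (hz : e z ≠ 0) (hyz : y ≠ z) (t : ZMod p) :
    Meas (ev z (fun w => if (w.map e).sum = t ∧ lm e w = some y then 1 else 0)) := by
  have hmk : ∀ q a, (e a ≠ 0 ∧ lev t q + e a = t + e z) → dp e y t q a = some (t + e z) := by
    rintro q a ⟨h1, h2⟩
    unfold dp
    rw [if_neg h1, h2, if_neg]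
    rintro ⟨h3, _⟩
    rw [add_eq_left] at h3
    exact hz h3
  have hcf := cf_pair e hyz t
  have h1 := meas_cnt (dp e y t) (mk1 e z t) (some (t + e z)) (fun q a h => by
    have := of_decide_eq_true h
    exact hmk q a ⟨this.1, this.2.1⟩) hcf (some 0)
  have h2 := meas_cnt (dp e y t) (fun q a => decide (e a ≠ 0 ∧ lev t q + e a = t + e z))
    (some (t + e z)) (fun q a h => hmk q a (of_decide_eq_true h))
    (counterFree_mono _ (fun q a h => by
      have := of_decide_eq_true h
      exact decide_eq_true ⟨this.1, this.2.1⟩) hcf) (some 0)
  refine (h2.sub h1).congr fun w => ?_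
  have h3 := cnt_eq_ev (dp e y t) z (fun q => q.isNone) (some (0 : ZMod p)) w
  have h4 := cnt_add (dp e y t) (mk := fun q a => decide (e a ≠ 0 ∧ lev t q + e a = t + e z))
    (mk1 := mk1 e z t) (mk2 := fun q a => q.isNone && decide (a = z)) (by
      intro q a
      unfold mk1
      by_cases hq : q = none
      · subst hq
        by_cases ha : a = z
        · subst ha
          simp [hz, lev]
        · simp [ha]
      · have hq' : q.isNone = false := by
          cases q with
          | none => exact absurd rfl hq
          | some _ => rfl
        simp [hq, hq']) (some (0 : ZMod p)) w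
  rw [h4]
  push_cast
  rw [h3, add_sub_cancel_left]
  apply ev_congr
  intro w
  have h5 := foldl_none e y hy t w
  by_cases h6 : (w.map e).sum = t ∧ lm e w = some y
  · rw [if_pos h6, h5.2 h6]
    rfl
  · rw [if_neg h6]
    have h7 : w.foldl (dp e y t) (some 0) ≠ none := fun h => h6 (h5.1 h)
    cases h8 : w.foldl (dp e y t) (some 0) with
    | none => exact absurd h8 h7
    | some _ => rfl

/-! ### The languages at the ends -/

/-- all words -/
def uL (α : Type) : Language α := (Set.univ : Set (List α))

/-- one letter -/
def cL (a : α) : Language α := ({[a]} : Set (List α))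

/-- the words without moving letters -/
def fL : Language α := ({w : List α | ∀ a ∈ w, e a = 0} : Set (List α))

theorem mem_uL (w : List α) : w ∈ uL α := trivial

theorem mem_cL (a : α) (w : List α) : w ∈ cL a ↔ w = [a] := Iff.rfl

theorem mem_fL (w : List α) : w ∈ fL e ↔ ∀ a ∈ w, e a = 0 := Iff.rfl

theorem fixL [Finite α] : HeightLE 1 (fL e) := by
  have h1 : HeightLE 1 {w : List α | ∃ a, e a ≠ 0 ∧ w ∈ (uL α * cL a * uL α)} :=
    HeightLE.biUnion _ fun a _ => ((HeightLE.univ 1).mul (HeightLE.char 1 a)).mul (HeightLE.univ 1)
  have h2 := h1.compl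
  have e1 : fL e = ({w : List α | ∃ a, e a ≠ 0 ∧
      w ∈ (uL α * cL a * uL α)} : Set (List α))ᶜ := by
    ext w
    change w ∈ fL e ↔ ¬ (∃ a, e a ≠ 0 ∧ w ∈ (uL α * cL a * uL α))
    rw [mem_fL]
    constructor
    · rintro h ⟨a, ha, hw⟩
      rw [Language.mem_mul] at hw
      obtain ⟨u, hu, v, _, rfl⟩ := hw
      rw [Language.mem_mul] at hu
      obtain ⟨u', _, a', ha', rfl⟩ := hu
      rw [mem_cL] at ha'
      subst ha'
      exact ha (h a (by simp))
    · intro h a ha
      by_contra hcon
      apply h
      obtain ⟨u, v, rfl⟩ := List.append_of_mem ha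
      refine ⟨a, hcon, ?_⟩
      rw [Language.mem_mul]
      refine ⟨u ++ [a], ?_, v, trivial, by simp⟩
      rw [Language.mem_mul]
      exact ⟨u, trivial, [a], rfl, rfl⟩
  rw [e1]
  exact h2

theorem lmL [Finite α] (x : α) (hx : e x ≠ 0) : HeightLE 1 {w : List α | lm e w = some x} := by
  have h1 : HeightLE 1 (uL α * cL x * fL e) :=
    ((HeightLE.univ 1).mul (HeightLE.char 1 x)).mul (fixL e)
  have e1 : ({w : List α | lm e w = some x} : Set (List α)) = uL α * cL x * fL e := by
    ext w
    change lm e w = some x ↔ w ∈ uL α * cL x * fL e
    constructor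
    · intro h
      rw [Language.mem_mul]
      induction w using List.reverseRecOn with
      | nil => simp [lm] at h
      | append_singleton w a ih =>
        by_cases ha : e a = 0
        · rw [lm_append_fix e w a ha] at h
          obtain ⟨u, hu, v, hv, rfl⟩ := ih h
          refine ⟨u, hu, v ++ [a], ?_, by simp⟩
          intro b hb
          rcases List.mem_append.1 hb with hb | hb
          · exact hv b hb
          · rw [List.mem_singleton.1 hb]; exact ha
        · rw [lm_append_mov e w a ha] at h
          have := Option.some.inj h
          subst this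
          refine ⟨w ++ [a], ?_, [], ?_, by simp⟩
          · rw [Language.mem_mul]
            exact ⟨w, trivial, [a], rfl, rfl⟩
          · intro b hb
            simp at hb
    · intro h
      rw [Language.mem_mul] at h
      obtain ⟨u, hu, v, hv, rfl⟩ := h
      rw [Language.mem_mul] at hu
      obtain ⟨u', _, a', ha', rfl⟩ := hu
      rw [mem_cL] at ha'
      subst ha'
      rw [mem_fL] at hv
      have h2 : v.filter (fun a => decide (e a ≠ 0)) = [] := by
        rw [List.filter_eq_nil_iff]
        intro a ha
        simp [hv a ha]
      simp only [lm, List.filter_append, h2, List.append_nil]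
      simp [hx]
  rw [e1]
  exact h1

theorem fmL [Finite α] (x : α) (hx : e x ≠ 0) : HeightLE 1 {w : List α | fm e w = some x} := by
  have h1 : HeightLE 1 (fL e * cL x * uL α) :=
    ((fixL e).mul (HeightLE.char 1 x)).mul (HeightLE.univ 1)
  have e1 : ({w : List α | fm e w = some x} : Set (List α)) = fL e * cL x * uL α := by
    ext w
    change fm e w = some x ↔ w ∈ fL e * cL x * uL α
    constructor
    · intro h
      rw [Language.mem_mul]
      induction w with
      | nil => simp [fm] at h
      | cons a w ih =>
        by_cases ha : e a = 0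
        · have h' : fm e w = some x := by
            simpa [fm, ha] using h
          obtain ⟨u, hu, v, hv, rfl⟩ := ih h'
          refine ⟨a :: u, ?_, v, hv, by simp⟩
          rw [Language.mem_mul] at hu ⊢
          obtain ⟨u1, hu1, u2, hu2, rfl⟩ := hu
          refine ⟨a :: u1, ?_, u2, hu2, by simp⟩
          intro b hb
          rcases List.mem_cons.1 hb with rfl | hb
          · exact ha
          · exact hu1 b hb
        · have h' : a = x := by
            simpa [fm, ha] using h
          subst h'
          refine ⟨[a], ?_, w, trivial, by simp⟩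
          rw [Language.mem_mul]
          refine ⟨[], ?_, [a], rfl, rfl⟩
          intro b hb
          simp at hb
    · intro h
      rw [Language.mem_mul] at h
      obtain ⟨u, hu, v, hv, rfl⟩ := h
      rw [Language.mem_mul] at hu
      obtain ⟨u', hu', a', ha', rfl⟩ := hu
      rw [mem_cL] at ha'
      subst ha'
      rw [mem_fL] at hu'
      have h2 : u'.filter (fun a => decide (e a ≠ 0)) = [] := by
        rw [List.filter_eq_nil_iff]
        intro a ha
        simp [hu' a ha]
      simp only [fm, List.filter_append, h2, List.nil_append]
      simp [hx]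
  rw [e1]
  exact h1

theorem sum_eq_count [Fintype α] (w : List α) :
    (w.map e).sum = ∑ a, (w.count a : ZMod p) * e a := by
  induction w using List.reverseRecOn with
  | nil => simp
  | append_singleton w a ih =>
    rw [List.map_append, List.sum_append, ih]
    simp only [List.count_append, Nat.cast_add, add_mul, Finset.sum_add_distrib]
    congr 1
    rw [Finset.sum_eq_single a]
    · simp
    · intro b _ hb
      simp [Ne.symm hb]
    · simp

theorem levL [Finite α] (t : ZMod p) : HeightLE 1 {w : List α | (w.map e).sum = t} := by
  have := Fintype.ofFinite α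
  apply Meas.determined (f := fun (a : α) w => (w.count a : ℤ)) (fun a => meas_count a) p
    hpf.out.pos
  intro w w' h
  have h1 : (w.map e).sum = (w'.map e).sum := by
    rw [sum_eq_count, sum_eq_count]
    apply Finset.sum_congr rfl
    intro a _
    congr 1
    have := (ZMod.intCast_eq_intCast_iff _ _ p).2 (h a)
    simpa using this
  rw [Set.mem_ofPred_eq, Set.mem_ofPred_eq, h1]

/-! ### The difference identity -/

theorem diff_identity [Fintype α] (x : α) (hx : e x ≠ 0) (s t : ZMod p) (ht : t = s + e x)
    (w : List α) :
    ev x (fun w => if (w.map e).sum = s then 1 else 0) w -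
      ev x (fun w => if (w.map e).sum = t then 1 else 0) w =
    (∑ y : α, if e y ≠ 0 ∧ y ≠ x then
      ev y (fun w => if (w.map e).sum = t ∧ lm e w = some x then 1 else 0) w -
      ev x (fun w => if (w.map e).sum = t ∧ lm e w = some y then 1 else 0) w else 0) +
    (if (w.map e).sum = t ∧ lm e w = some x then 1 else 0) -
    (if fm e w = some x ∧ t = 0 then 1 else 0) := by
  induction w using List.reverseRecOn with
  | nil => simp [ev_nil, lm, fm]
  | append_singleton w a ih =>
    simp only [ev_append]
    have hsplit : (∑ y : α, if e y ≠ 0 ∧ y ≠ x then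
        (ev y (fun w => if (w.map e).sum = t ∧ lm e w = some x then 1 else 0) w +
          (if a = y then (if (w.map e).sum = t ∧ lm e w = some x then (1 : ℤ) else 0) else 0)) -
        (ev x (fun w => if (w.map e).sum = t ∧ lm e w = some y then 1 else 0) w +
          (if a = x then (if (w.map e).sum = t ∧ lm e w = some y then (1 : ℤ) else 0) else 0)) else 0) =
        (∑ y : α, if e y ≠ 0 ∧ y ≠ x then
          ev y (fun w => if (w.map e).sum = t ∧ lm e w = some x then 1 else 0) w -
          ev x (fun w => if (w.map e).sum = t ∧ lm e w = some y then 1 else 0) w else 0) +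
        ((∑ y : α, if e y ≠ 0 ∧ y ≠ x then
          (if a = y then (if (w.map e).sum = t ∧ lm e w = some x then (1 : ℤ) else 0) else 0) else 0) -
        (∑ y : α, if e y ≠ 0 ∧ y ≠ x then
          (if a = x then (if (w.map e).sum = t ∧ lm e w = some y then (1 : ℤ) else 0) else 0)
          else 0)) := by
      rw [← Finset.sum_sub_distrib, ← Finset.sum_add_distrib]
      apply Finset.sum_congr rfl
      intro y _
      by_cases hy : e y ≠ 0 ∧ y ≠ x
      · simp only [if_pos hy]; ring
      · simp only [if_neg hy]; ring
    rw [hsplit]
    have hsum : ((w ++ [a]).map e).sum = (w.map e).sum + e a := by simp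
    rw [hsum]
    by_cases ha : e a = 0
    · -- a fixing letter
      have hax : a ≠ x := fun h => hx (h ▸ ha)
      have z1 : (∑ y : α, if e y ≠ 0 ∧ y ≠ x then
          (if a = y then (if (w.map e).sum = t ∧ lm e w = some x then (1 : ℤ) else 0) else 0)
          else 0) = 0 := by
        apply Finset.sum_eq_zero
        intro y _
        by_cases hay : a = y
        · subst hay
          simp [ha]
        · simp [hay]
      have z2 : (∑ y : α, if e y ≠ 0 ∧ y ≠ x then
          (if a = x then (if (w.map e).sum = t ∧ lm e w = some y then (1 : ℤ) else 0) else 0)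
          else 0) = 0 := by
        apply Finset.sum_eq_zero
        intro y _
        simp [hax]
      rw [z1, z2, lm_append_fix e w a ha, fm_append_fix e w a ha, ha, add_zero, if_neg hax,
        if_neg hax]
      linarith
    · rw [lm_append_mov e w a ha, fm_append_mov e w a ha]
      by_cases hax : a = x
      · subst hax
        have z1 : (∑ y : α, if e y ≠ 0 ∧ y ≠ a then
            (if a = y then (if (w.map e).sum = t ∧ lm e w = some a then (1 : ℤ) else 0) else 0)
            else 0) = 0 := by
          apply Finset.sum_eq_zero
          intro y _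
          by_cases hay : y = a
          · simp [hay]
          · simp [Ne.symm hay]
        rw [z1]
        have hst : ((w.map e).sum + e a = t) ↔ ((w.map e).sum = s) := by
          rw [ht]
          exact add_left_inj _
        simp only [if_true, hst, and_true, zero_sub]
        rcases hlm : lm e w with _ | y
        · -- no moving letter so far
          have hfix := filter_nil_of_lm e hlm
          have hs0 := sum_of_fix e hfix
          have hfm : fm e w = none := by
            rw [fm, List.head?_eq_none_iff]
            rwa [lm, List.getLast?_eq_none_iff] at hlm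
          rw [hlm, hfm] at ih
          simp only [hs0, reduceCtorEq, and_false, if_false, false_and] at ih ⊢
          simp only [ite_self, Finset.sum_const_zero, if_true, true_and]
          have h0t : ((0 : ZMod p) = t) ↔ (t = 0) := eq_comm
          simp only [h0t]
          linarith
        · have hy := mov_of_lm e hlm
          rw [hlm] at ih
          have z2 : (∑ y' : α, if e y' ≠ 0 ∧ y' ≠ a then
              (if (w.map e).sum = t ∧ some y = some y' then (1 : ℤ) else 0) else 0) =
              (if (w.map e).sum = t ∧ y ≠ a then 1 else 0) := by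
            rw [Finset.sum_eq_single y]
            · by_cases hya : y = a
              · simp [hya]
              · simp [hy, hya]
            · intro y' _ hy'
              have : ¬ (some y = some y') := fun h => hy' (Option.some.inj h).symm
              simp [this]
            · simp
          rw [z2]
          simp only [reduceCtorEq, if_false]
          by_cases hya : y = a
          · subst hya
            simp only [ne_eq, not_true_eq_false, and_false, if_false, and_true] at ih ⊢
            linarith
          · have h7 : ¬ (some y = some a) := fun h => hya (Option.some.inj h)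
            simp only [h7, and_false, if_false, ne_eq, hya, not_false_eq_true, and_true] at ih ⊢
            linarith
      · have z1 : (∑ y : α, if e y ≠ 0 ∧ y ≠ x then
            (if a = y then (if (w.map e).sum = t ∧ lm e w = some x then (1 : ℤ) else 0) else 0)
            else 0) = (if (w.map e).sum = t ∧ lm e w = some x then (1 : ℤ) else 0) := by
          rw [Finset.sum_eq_single a]
          · simp [ha, hax]
          · intro y _ hy
            simp [Ne.symm hy]
          · simp
        have z2 : (∑ y : α, if e y ≠ 0 ∧ y ≠ x then
            (if a = x then (if (w.map e).sum = t ∧ lm e w = some y then (1 : ℤ) else 0) else 0)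
            else 0) = 0 := by
          apply Finset.sum_eq_zero
          intro y _
          simp [hax]
        rw [z1, z2, if_neg hax, if_neg hax]
        have h8 : ¬ (some a = some x) := fun h => hax (Option.some.inj h)
        have h9 : ((if lm e w = none then some a else fm e w) = some x) ↔ fm e w = some x := by
          by_cases h10 : lm e w = none
          · rw [if_pos h10]
            have hfm : fm e w = none := by
              rw [fm, List.head?_eq_none_iff]
              rwa [lm, List.getLast?_eq_none_iff] at h10
            rw [hfm]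
            simp [hax]
          · rw [if_neg h10]
        simp only [h8, and_false, if_false, h9]
        linarith

theorem diff_step [Finite α] (x : α) (hx : e x ≠ 0) (s : ZMod p) :
    Meas (fun w => ev x (fun w => if (w.map e).sum = s then 1 else 0) w -
      ev x (fun w => if (w.map e).sum = s + e x then 1 else 0) w) := by
  classical
  have := Fintype.ofFinite α
  set t := s + e x with ht
  have h1 : Meas (fun w => ∑ y : α, if e y ≠ 0 ∧ y ≠ x then
      ev y (fun w => if (w.map e).sum = t ∧ lm e w = some x then 1 else 0) w -
      ev x (fun w => if (w.map e).sum = t ∧ lm e w = some y then 1 else 0) w else 0) := by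
    apply Meas.sum
    intro y _
    by_cases hy : e y ≠ 0 ∧ y ≠ x
    · simp only [if_pos hy]
      exact (pair_meas e hx hy.1 (Ne.symm hy.2) t).sub (pair_meas e hy.1 hx hy.2 t)
    · simp only [if_neg hy]
      exact Meas.const 0
  have h2 : Meas (fun w => if (w.map e).sum = t ∧ lm e w = some x then 1 else 0) := by
    have h3 : HeightLE 1 (({w : List α | (w.map e).sum = t} : Language α) ⊓
      ({w : List α | lm e w = some x} : Language α)) := (levL e t).inter (lmL e x hx)
    have h4 := Meas.indicator (L := ({w : List α | (w.map e).sum = t} ∩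
      {w : List α | lm e w = some x} : Set (List α))) h3
    refine h4.congr fun w => ?_
    rfl
  have h5 : Meas (fun w => if fm e w = some x ∧ t = 0 then 1 else 0) := by
    by_cases h0 : t = 0
    · have h6 := Meas.indicator (fmL e x hx)
      refine h6.congr fun w => ?_
      simp only [h0, and_true]
      rfl
    · simp only [h0, and_false, if_false]
      exact Meas.const 0
  refine ((h1.add h2).sub h5).congr fun w => ?_
  exact diff_identity e x hx s t ht w

theorem diff_all [Finite α] (x : α) (hx : e x ≠ 0) (s t : ZMod p) :
    Meas (fun w => ev x (fun w => if (w.map e).sum = s then 1 else 0) w -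
      ev x (fun w => if (w.map e).sum = t then 1 else 0) w) := by
  have key : ∀ k : ℕ, Meas (fun w => ev x (fun w => if (w.map e).sum = s then 1 else 0) w -
      ev x (fun w => if (w.map e).sum = s + (k : ZMod p) * e x then 1 else 0) w) := by
    intro k
    induction k with
    | zero =>
      simp only [Nat.cast_zero, zero_mul, add_zero, sub_self]
      exact Meas.const 0
    | succ k ih =>
      refine (ih.add (diff_step e x hx (s + (k : ZMod p) * e x))).congr fun w => ?_
      have e1 : s + ((k + 1 : ℕ) : ZMod p) * e x = s + (k : ZMod p) * e x + e x := by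
        push_cast; ring
      rw [e1]
      ring
  obtain ⟨i, _, hi⟩ := exists_mul hx (t - s)
  have h1 := key i
  rw [hi] at h1
  have e1 : s + (t - s) = t := by ring
  rw [e1] at h1
  exact h1

theorem count_mov [Finite α] (x : α) (hx : e x ≠ 0) (s : ZMod p) :
    Meas (ev x (fun w => if (w.map e).sum = s then 1 else 0)) := by
  have hp0 : (p : ℤ) ≠ 0 := by exact_mod_cast hpf.out.ne_zero
  apply Meas.of_mul (p : ℤ) hp0
  have h1 : Meas (fun w => ∑ t : ZMod p, (ev x (fun w => if (w.map e).sum = s then 1 else 0) w -
      ev x (fun w => if (w.map e).sum = t then 1 else 0) w)) :=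
    Meas.sum _ fun t _ => diff_all e x hx s t
  refine (h1.add (meas_count x)).congr fun w => ?_
  rw [Finset.sum_sub_distrib]
  have h2 : ev x (fun w => ∑ t : ZMod p, if (w.map e).sum = t then (1 : ℤ) else 0) w =
      (w.count x : ℤ) := by
    rw [← ev_one]
    apply ev_congr
    intro w
    simp
  rw [ev_sum] at h2
  rw [h2, Finset.sum_const, Finset.card_univ, ZMod.card, nsmul_eq_mul]
  ring

end prime

end PrimeC

/-- TASK D3 (file Prime.lean). Arbitrary steps modulo a prime. -/
theorem primeCount [Finite α] [DecidableEq α] (p : ℕ) [Fact p.Prime] (e : α → ZMod p) (x : α)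
    (s : ZMod p) :
    Meas (ev x (fun w => if (w.map e).sum = s then 1 else 0)) := by
  by_cases hx : e x = 0
  · exact PrimeC.count_fix e x hx s
  · exact PrimeC.count_mov e x hx s

end Pool.Agent.H643R2.SH
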