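import Pool.Agent.H643R2.SH.Defs

/-! # Schützenberger's theorem (aperiodic implies star-free), by local divisors -/

namespace Pool.Agent.H643R2.SH

namespace Schutz

/-! ### Local divisors -/

/-- The local divisor `c M ∩ M c`. -/
def LD {M : Type} [Monoid M] (c : M) : Type := {z : M // (∃ s, z = c * s) ∧ ∃ t, z = t * c}

namespace LD

variable {M : Type} [Monoid M] {c : M}

instance [Finite M] : Finite (LD c) := Subtype.finite

/-- a left factor: `z = lf z * c` -/
noncomputable def lf (z : LD c) : M := z.2.2.choose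

theorem lf_spec (z : LD c) : z.1 = lf z * c := z.2.2.choose_spec

/-- the product `(s c) ∘ (c t) = s c t` -/
noncomputable def mul (z₁ z₂ : LD c) : LD c :=
  ⟨lf z₁ * z₂.1, by
    obtain ⟨⟨s, hs⟩, t, ht⟩ := z₂.2
    obtain ⟨s₁, hs₁⟩ := z₁.2.1
    refine ⟨⟨s₁ * s, ?_⟩, ⟨lf z₁ * t, ?_⟩⟩
    · rw [hs, ← mul_assoc, ← lf_spec, hs₁, mul_assoc]
    · rw [ht, mul_assoc]⟩

theorem mul_right (z₁ z₂ : LD c) (t : M) (ht : z₂.1 = c * t) : (mul z₁ z₂).1 = z₁.1 * t := by
  show lf z₁ * z₂.1 = _
  rw [ht, ← mul_assoc, ← lf_spec]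

theorem mul_left (z₁ z₂ : LD c) (s : M) (hs : z₁.1 = s * c) : (mul z₁ z₂).1 = s * z₂.1 := by
  obtain ⟨t, ht⟩ := z₂.2.1
  rw [mul_right z₁ z₂ t ht, hs, ht, mul_assoc]

noncomputable instance : Monoid (LD c) where
  mul := mul
  one := ⟨c, ⟨1, (mul_one c).symm⟩, ⟨1, (one_mul c).symm⟩⟩
  mul_assoc := by
    intro z₁ z₂ z₃
    obtain ⟨t, ht⟩ := z₃.2.1
    apply Subtype.ext
    show (mul (mul z₁ z₂) z₃).1 = (mul z₁ (mul z₂ z₃)).1
    rw [mul_right _ _ t ht, mul_left z₁ (mul z₂ z₃) _ (lf_spec z₁), mul_right z₂ z₃ t ht,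
      mul_left z₁ z₂ _ (lf_spec z₁), mul_assoc]
  one_mul := by
    intro z
    apply Subtype.ext
    show (mul _ z).1 = z.1
    rw [mul_left _ z 1 (one_mul c).symm, one_mul]
  mul_one := by
    intro z
    apply Subtype.ext
    show (mul z _).1 = z.1
    rw [mul_right z _ 1 (mul_one c).symm, mul_one]

theorem one_val : (1 : LD c).1 = c := rfl

theorem mul_val (z₁ z₂ : LD c) (t : M) (ht : z₂.1 = c * t) : (z₁ * z₂).1 = z₁.1 * t :=
  mul_right z₁ z₂ t ht

theorem pow_val (z : LD c) (s : M) (hs : z.1 = c * s) (n : ℕ) : (z ^ n).1 = c * s ^ n := by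
  induction n with
  | zero => rw [pow_zero, pow_zero, mul_one]; rfl
  | succ n ih => rw [pow_succ, mul_val _ _ s hs, ih, pow_succ, mul_assoc]

theorem aperiodic (hM : ∀ x : M, ∃ n : ℕ, x ^ (n + 1) = x ^ n) (z : LD c) :
    ∃ n : ℕ, z ^ (n + 1) = z ^ n := by
  obtain ⟨s, hs⟩ := z.2.1
  obtain ⟨n, hn⟩ := hM s
  refine ⟨n, Subtype.ext ?_⟩
  rw [pow_val z s hs, pow_val z s hs, hn]

theorem card_lt [Finite M] (hM : ∀ x : M, ∃ n : ℕ, x ^ (n + 1) = x ^ n) (hc : c ≠ 1) :
    Nat.card (LD c) < Nat.card M := by
  apply Finite.card_subtype_lt (x := (1 : M))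
  rintro ⟨-, t, ht⟩
  obtain ⟨n, hn⟩ := hM c
  apply hc
  have h1 : ∀ n : ℕ, t ^ n * c ^ n = 1 := by
    intro n
    induction n with
    | zero => simp
    | succ n ih =>
      calc t ^ (n + 1) * c ^ (n + 1) = t ^ n * (t * c) * c ^ n := by
            rw [pow_succ, pow_succ']
            simp only [mul_assoc]
        _ = 1 := by rw [← ht, mul_one, ih]
  calc c = t ^ n * c ^ n * c := by rw [h1, one_mul]
    _ = t ^ n * c ^ (n + 1) := by rw [pow_succ, mul_assoc]
    _ = 1 := by rw [hn, h1]

end LD

/-! ### Concatenation of sets of words -/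

variable {α : Type}

/-- the concatenation of two sets of words -/
def cc (A B : Set (List α)) : Set (List α) := {w | ∃ a ∈ A, ∃ b ∈ B, a ++ b = w}

theorem cc_height {h : ℕ} {A B : Set (List α)} (hA : HeightLE h A) (hB : HeightLE h B) :
    HeightLE h (cc A B : Set (List α)) := by
  have h1 := HeightLE.mul hA hB
  have e : (cc A B : Set (List α)) = @HMul.hMul (Language α) (Language α) (Language α) _ A B := by
    apply Set.ext
    intro w
    show (∃ a ∈ A, ∃ b ∈ B, a ++ b = w) ↔
      w ∈ @HMul.hMul (Language α) (Language α) (Language α) _ A B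
    rw [Language.mem_mul]
    rfl
  rw [e]
  exact h1

theorem compl_height {h : ℕ} {A : Set (List α)} (hA : HeightLE h A) : HeightLE h (Aᶜ) :=
  HeightLE.compl hA

theorem inter_height {h : ℕ} {A B : Set (List α)} (hA : HeightLE h A) (hB : HeightLE h B) :
    HeightLE h (A ∩ B : Set (List α)) :=
  HeightLE.inter hA hB

theorem union_height {h : ℕ} {A B : Set (List α)} (hA : HeightLE h A) (hB : HeightLE h B) :
    HeightLE h (A ∪ B : Set (List α)) :=
  HeightLE.union hA hB

/-- induction principle for star-free languages, as sets of words -/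
theorem sf_induction {β : Type} (P : Set (List β) → Prop) (h0 : P ∅) (h1 : P {[]})
    (hc : ∀ b, P {[b]}) (hu : ∀ A B, P A → P B → P (A ∪ B))
    (hi : ∀ A B, P A → P B → P (A ∩ B)) (hm : ∀ A B, P A → P B → P (cc A B))
    (hn : ∀ A, P A → P (Aᶜ)) (L : Set (List β)) (hL : HeightLE 0 L) : P L := by
  obtain ⟨E, hE, rfl⟩ := hL
  induction E with
  | zero => exact h0
  | one => exact h1
  | char a => exact hc a
  | union E F ihE ihF =>
    have hh : max E.height F.height ≤ 0 := hE
    exact hu _ _ (ihE ((le_max_left _ _).trans hh)) (ihF ((le_max_right _ _).trans hh))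
  | inter E F ihE ihF =>
    have hh : max E.height F.height ≤ 0 := hE
    exact hi _ _ (ihE ((le_max_left _ _).trans hh)) (ihF ((le_max_right _ _).trans hh))
  | cat E F ihE ihF =>
    have hh : max E.height F.height ≤ 0 := hE
    have h := hm _ _ (ihE ((le_max_left _ _).trans hh)) (ihF ((le_max_right _ _).trans hh))
    have e : cc (E.lang : Set (List β)) (F.lang : Set (List β)) = (GRE.cat E F).lang := by
      apply Set.ext
      intro w
      show (∃ a ∈ E.lang, ∃ b ∈ F.lang, a ++ b = w) ↔ w ∈ E.lang * F.lang
      rw [Language.mem_mul]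
    rw [← e]
    exact h
  | compl E ihE => exact hn _ (ihE hE)
  | star E ihE =>
    exfalso
    have : E.height + 1 ≤ 0 := hE
    omega

/-! ### Words without the letter `c` -/

/-- words without the letter `c` -/
def Free (c : α) : Set (List α) := {w | c ∉ w}

theorem free_height (c : α) : HeightLE 0 (Free c : Set (List α)) := by
  have h := compl_height (cc_height (cc_height (HeightLE.univ (α := α) 0) (HeightLE.char 0 c))
    (HeightLE.univ 0))
  have e : (Free c : Set (List α)) = (cc (cc Set.univ {[c]}) Set.univ)ᶜ := by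
    ext w
    show c ∉ w ↔ ¬ _
    rw [not_iff_not]
    constructor
    · intro hc
      obtain ⟨s, t, rfl⟩ := List.append_of_mem hc
      exact ⟨s ++ [c], ⟨s, Set.mem_univ s, [c], rfl, rfl⟩, t, Set.mem_univ t, by simp⟩
    · rintro ⟨a, ⟨a', -, b', hb', rfl⟩, b, -, rfl⟩
      have hb'' : b' = [c] := hb'
      subst hb''
      simp
  rw [e]
  exact h

/-- star-free languages over the alphabet without `c` -/
theorem map_height (c : α) (L : Set (List {b : α // b ≠ c})) (hL : HeightLE 0 L) :
    HeightLE 0 ((List.map Subtype.val) '' L) := by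
  have hinj : Function.Injective (List.map (Subtype.val : {b : α // b ≠ c} → α)) :=
    List.map_injective_iff.mpr Subtype.val_injective
  refine sf_induction (fun L => HeightLE 0 ((List.map Subtype.val) '' L)) ?_ ?_ ?_ ?_ ?_ ?_ ?_ L hL
  · show HeightLE 0 ((List.map Subtype.val) '' ∅)
    rw [Set.image_empty]
    exact HeightLE.empty 0
  · show HeightLE 0 ((List.map Subtype.val) '' {[]})
    rw [Set.image_singleton]
    exact HeightLE.nil 0
  · intro b
    show HeightLE 0 ((List.map Subtype.val) '' {[b]})
    rw [Set.image_singleton]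
    exact HeightLE.char 0 b.val
  · intro A B hA hB
    show HeightLE 0 ((List.map Subtype.val) '' (A ∪ B))
    rw [Set.image_union]
    exact union_height hA hB
  · intro A B hA hB
    show HeightLE 0 ((List.map Subtype.val) '' (A ∩ B))
    rw [Set.image_inter hinj]
    exact inter_height hA hB
  · intro A B hA hB
    have e : (List.map Subtype.val) '' (cc A B) =
        cc ((List.map Subtype.val) '' A) ((List.map Subtype.val) '' B) := by
      ext w
      constructor
      · rintro ⟨v, ⟨a, ha, b, hb, rfl⟩, rfl⟩
        exact ⟨_, ⟨a, ha, rfl⟩, _, ⟨b, hb, rfl⟩, by rw [List.map_append]⟩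
      · rintro ⟨_, ⟨a, ha, rfl⟩, _, ⟨b, hb, rfl⟩, rfl⟩
        exact ⟨a ++ b, ⟨a, ha, b, hb, rfl⟩, by rw [List.map_append]⟩
    show HeightLE 0 ((List.map Subtype.val) '' (cc A B))
    rw [e]
    exact cc_height hA hB
  · intro A hA
    have e : (List.map Subtype.val) '' (Aᶜ) = ((List.map Subtype.val) '' A)ᶜ ∩ Free c := by
      ext w
      constructor
      · rintro ⟨v, hv, rfl⟩
        refine ⟨?_, ?_⟩
        · rintro ⟨v', hv', he⟩
          have := hinj he
          subst this
          exact hv hv'
        · show c ∉ List.map Subtype.val v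
          intro hc
          rw [List.mem_map] at hc
          obtain ⟨b, -, hb⟩ := hc
          exact b.2 hb
      · rintro ⟨h2, h3⟩
        have h3' : c ∉ w := h3
        refine ⟨w.attach.map (fun x => ⟨x.1, fun he => h3' (he ▸ x.2)⟩), ?_, ?_⟩
        · intro hE'
          apply h2
          refine ⟨_, hE', ?_⟩
          rw [List.map_map]
          simp [Function.comp_def]
        · rw [List.map_map]
          simp [Function.comp_def]
    show HeightLE 0 ((List.map Subtype.val) '' (Aᶜ))
    rw [e]
    exact inter_height (compl_height hA) (free_height c)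

/-! ### Words ending in `c` and their blocks -/

/-- the value of a word -/
def val {M : Type} [Monoid M] (g : α → M) (w : List α) : M := (w.map g).prod

theorem val_nil {M : Type} [Monoid M] (g : α → M) : val g [] = 1 := rfl

theorem val_cons {M : Type} [Monoid M] (g : α → M) (a : α) (w : List α) :
    val g (a :: w) = g a * val g w := by
  simp [val]

theorem val_append {M : Type} [Monoid M] (g : α → M) (v w : List α) :
    val g (v ++ w) = val g v * val g w := by
  simp [val]

/-- empty words and words ending in `c` -/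
def W (c : α) : Set (List α) := {w | w = [] ∨ ∃ v, w = v ++ [c]}

theorem W_nil (c : α) : [] ∈ W c := Or.inl rfl

theorem W_append {c : α} {v w : List α} (hv : v ∈ W c) (hw : w ∈ W c) : v ++ w ∈ W c := by
  rcases hw with rfl | ⟨w', rfl⟩
  · rw [List.append_nil]
    exact hv
  · exact Or.inr ⟨v ++ w', by rw [List.append_assoc]⟩

theorem W_snoc (c : α) (v : List α) : v ++ [c] ∈ W c := Or.inr ⟨v, rfl⟩

/-- first block of a nonempty word of `W` -/
theorem W_cases {c : α} {w : List α} (hw : w ∈ W c) (hne : w ≠ []) :
    ∃ u w', c ∉ u ∧ w = u ++ c :: w' ∧ w' ∈ W c := by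
  have hcw : c ∈ w := by
    rcases hw with h | ⟨v, rfl⟩
    · exact absurd h hne
    · simp
  obtain ⟨u, w', h1, h2⟩ := List.eq_append_cons_of_mem hcw
  refine ⟨u, w', h2, h1, ?_⟩
  rcases hw with h | ⟨v, hv⟩
  · exact absurd h hne
  · rcases List.eq_nil_or_concat w' with h | ⟨w'', b, h⟩
    · exact Or.inl h
    · rw [List.concat_eq_append] at h
      refine Or.inr ⟨w'', ?_⟩
      subst h
      have h3 : (u ++ c :: w'') ++ [b] = v ++ [c] := by
        rw [← hv, h1]
        simp
      have h4 := List.append_inj' h3 rfl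
      have h5 : b = c := by simpa using h4.2
      rw [h5]

/-- last block of a word -/
theorem W_last (c : α) (w : List α) : ∃ w' v, w' ∈ W c ∧ c ∉ v ∧ w = w' ++ v := by
  induction w with
  | nil => exact ⟨[], [], W_nil c, by simp, rfl⟩
  | cons a w ih =>
    obtain ⟨w', v, hw, hv, rfl⟩ := ih
    rcases hw with rfl | ⟨w'', rfl⟩
    · by_cases hac : a = c
      · subst hac
        exact ⟨[a], v, W_snoc a [], hv, rfl⟩
      · refine ⟨[], a :: v, W_nil c, ?_, rfl⟩
        intro h
        rcases List.mem_cons.mp h with h | h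
        · exact hac h.symm
        · exact hv h
    · exact ⟨(a :: w'') ++ [c], v, W_snoc c _, hv, by simp⟩

open Classical in
/-- the values of the blocks of a word (with an accumulator) -/
noncomputable def sigAux {M : Type} [Monoid M] (g : α → M) (c : α) : M → List α → List M
  | _, [] => []
  | acc, a :: w => if a = c then acc :: sigAux g c 1 w else sigAux g c (acc * g a) w

/-- the values of the blocks of a word -/
noncomputable def sig {M : Type} [Monoid M] (g : α → M) (c : α) (w : List α) : List M :=
  sigAux g c 1 w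

section

variable {M : Type} [Monoid M] (g : α → M) (c : α)

theorem sig_nil : sig g c [] = [] := rfl

theorem sigAux_block (u : List α) (hu : c ∉ u) (w : List α) (acc : M) :
    sigAux g c acc (u ++ c :: w) = (acc * val g u) :: sig g c w := by
  induction u generalizing acc with
  | nil => simp [sigAux, val, sig]
  | cons a u ih =>
    rw [List.mem_cons, not_or] at hu
    have ha : a ≠ c := fun h => hu.1 h.symm
    rw [List.cons_append]
    simp only [sigAux, if_neg ha]
    rw [ih hu.2, val_cons, mul_assoc]

theorem sig_block (u : List α) (hu : c ∉ u) (w : List α) :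
    sig g c (u ++ c :: w) = val g u :: sig g c w := by
  have := sigAux_block g c u hu w 1
  rw [one_mul] at this
  exact this

/-- induction principle for words of `W` -/
theorem W_induction (P : List α → Prop) (h0 : P [])
    (h1 : ∀ u w, c ∉ u → w ∈ W c → P w → P (u ++ c :: w)) (w : List α) (hw : w ∈ W c) : P w := by
  induction hn : w.length using Nat.strong_induction_on generalizing w with
  | _ n ih =>
    by_cases hne : w = []
    · rw [hne]
      exact h0
    · obtain ⟨u, w', hu, he, hw'⟩ := W_cases hw hne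
      subst he
      refine h1 u w' hu hw' (ih w'.length ?_ w' hw' rfl)
      rw [← hn]
      simp
      omega

theorem sig_append (v w : List α) (hv : v ∈ W c) :
    sig g c (v ++ w) = sig g c v ++ sig g c w := by
  refine W_induction c (fun v => sig g c (v ++ w) = sig g c v ++ sig g c w) rfl ?_ v hv
  intro u v hu _ ih
  show sig g c ((u ++ c :: v) ++ w) = sig g c (u ++ c :: v) ++ sig g c w
  rw [List.append_assoc, List.cons_append, sig_block g c u hu, sig_block g c u hu, ih,
    List.cons_append]

theorem sig_split (w : List α) (hw : w ∈ W c) (τ₁ τ₂ : List M) (h : sig g c w = τ₁ ++ τ₂) :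
    ∃ w₁ w₂, w₁ ∈ W c ∧ w₂ ∈ W c ∧ w = w₁ ++ w₂ ∧ sig g c w₁ = τ₁ ∧ sig g c w₂ = τ₂ := by
  revert τ₁
  refine W_induction c (fun w => ∀ τ₁ : List M, sig g c w = τ₁ ++ τ₂ →
    ∃ w₁ w₂, w₁ ∈ W c ∧ w₂ ∈ W c ∧ w = w₁ ++ w₂ ∧ sig g c w₁ = τ₁ ∧ sig g c w₂ = τ₂) ?_ ?_ w hw
  · intro τ₁ h
    rw [sig_nil] at h
    have h' := List.append_eq_nil_iff.mp h.symm
    exact ⟨[], [], W_nil c, W_nil c, rfl, h'.1.symm, h'.2.symm⟩
  · intro u w hu hw ih τ₁ h
    rw [sig_block g c u hu] at h
    cases τ₁ with
    | nil =>
      rw [List.nil_append] at h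
      refine ⟨[], u ++ c :: w, W_nil c, ?_, rfl, rfl, ?_⟩
      · have := W_append (W_snoc c u) hw
        simpa using this
      · rw [sig_block g c u hu, h]
    | cons t τ₁ =>
      rw [List.cons_append] at h
      obtain ⟨h3, h4⟩ := List.cons.inj h
      obtain ⟨w₁, w₂, h5, h6, h7, h8, h9⟩ := ih τ₁ h4
      refine ⟨u ++ c :: w₁, w₂, ?_, h6, ?_, ?_, h9⟩
      · have := W_append (W_snoc c u) h5
        simpa using this
      · rw [h7]
        simp
      · rw [sig_block g c u hu, h3, h8]

theorem val_sig (w : List α) (hw : w ∈ W c) :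
    val g w = ((sig g c w).map (fun t => t * g c)).prod := by
  refine W_induction c (fun w => val g w = ((sig g c w).map (fun t => t * g c)).prod) rfl ?_ w hw
  intro u w hu _ ih
  show val g (u ++ c :: w) = ((sig g c (u ++ c :: w)).map (fun t => t * g c)).prod
  rw [sig_block g c u hu, val_append, val_cons, ih, List.map_cons, List.prod_cons, mul_assoc]

/-- the language `W` is star-free -/
theorem W_height : HeightLE 0 (W c : Set (List α)) := by
  have h := union_height (HeightLE.nil (α := α) 0)
    (cc_height (HeightLE.univ (α := α) 0) (HeightLE.char 0 c))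
  have e : W c = {[]} ∪ cc Set.univ {[c]} := by
    ext w
    constructor
    · rintro (h | ⟨v, rfl⟩)
      · exact Or.inl h
      · exact Or.inr ⟨v, Set.mem_univ v, [c], rfl, rfl⟩
    · rintro (h | ⟨v, -, b, hb, rfl⟩)
      · exact Or.inl h
      · have hb' : b = [c] := hb
        subst hb'
        exact Or.inr ⟨v, rfl⟩
  rw [e]
  exact h

/-- inverse images of star-free languages under the block map -/
theorem inv_height (hF : ∀ t : M, HeightLE 0 ({w | c ∉ w ∧ val g w = t} : Set (List α)))
    (K : Set (List M)) (hK : HeightLE 0 K) :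
    HeightLE 0 ({w | w ∈ W c ∧ sig g c w ∈ K} : Set (List α)) := by
  refine sf_induction (fun K => HeightLE 0 ({w | w ∈ W c ∧ sig g c w ∈ K} : Set (List α)))
    ?_ ?_ ?_ ?_ ?_ ?_ ?_ K hK
  · have e : ({w | w ∈ W c ∧ sig g c w ∈ (∅ : Set (List M))} : Set (List α)) = ∅ := by
      ext w
      simp
    show HeightLE 0 ({w | w ∈ W c ∧ sig g c w ∈ (∅ : Set (List M))} : Set (List α))
    rw [e]
    exact HeightLE.empty 0
  · have e : ({w | w ∈ W c ∧ sig g c w ∈ ({[]} : Set (List M))} : Set (List α)) = {[]} := by
      ext w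
      constructor
      · rintro ⟨h1, h2⟩
        by_contra hne
        have hne' : w ≠ [] := hne
        obtain ⟨u, w', hu, he, hw'⟩ := W_cases h1 hne'
        subst he
        rw [sig_block g c u hu] at h2
        simp at h2
      · intro h
        have h' : w = [] := h
        subst h'
        exact ⟨W_nil c, rfl⟩
    show HeightLE 0 ({w | w ∈ W c ∧ sig g c w ∈ ({[]} : Set (List M))} : Set (List α))
    rw [e]
    exact HeightLE.nil 0
  · intro t
    have e : ({w | w ∈ W c ∧ sig g c w ∈ ({[t]} : Set (List M))} : Set (List α)) =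
        cc {w | c ∉ w ∧ val g w = t} {[c]} := by
      ext w
      constructor
      · rintro ⟨h1, h2⟩
        have h2' : sig g c w = [t] := h2
        have hne : w ≠ [] := by
          rintro rfl
          rw [sig_nil] at h2'
          simp at h2'
        obtain ⟨u, w', hu, he, hw'⟩ := W_cases h1 hne
        subst he
        rw [sig_block g c u hu] at h2'
        obtain ⟨h3, h4⟩ := List.cons.inj h2'
        have h5 : w' = [] := by
          by_contra hne'
          obtain ⟨u', w'', hu', he', -⟩ := W_cases hw' hne'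
          subst he'
          rw [sig_block g c u' hu'] at h4
          simp at h4
        subst h5
        exact ⟨u, ⟨hu, h3⟩, [c], rfl, rfl⟩
      · rintro ⟨u, ⟨hu, hv⟩, b, hb, rfl⟩
        have hb' : b = [c] := hb
        subst hb'
        refine ⟨W_snoc c u, ?_⟩
        show sig g c (u ++ [c]) = [t]
        rw [sig_block g c u hu, sig_nil, hv]
    show HeightLE 0 ({w | w ∈ W c ∧ sig g c w ∈ ({[t]} : Set (List M))} : Set (List α))
    rw [e]
    exact cc_height (hF t) (HeightLE.char 0 c)
  · intro A B hA hB
    have e : ({w | w ∈ W c ∧ sig g c w ∈ A ∪ B} : Set (List α)) =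
        {w | w ∈ W c ∧ sig g c w ∈ A} ∪ {w | w ∈ W c ∧ sig g c w ∈ B} := by
      ext w
      constructor
      · rintro ⟨h1, h2 | h2⟩
        · exact Or.inl ⟨h1, h2⟩
        · exact Or.inr ⟨h1, h2⟩
      · rintro (⟨h1, h2⟩ | ⟨h1, h2⟩)
        · exact ⟨h1, Or.inl h2⟩
        · exact ⟨h1, Or.inr h2⟩
    show HeightLE 0 ({w | w ∈ W c ∧ sig g c w ∈ A ∪ B} : Set (List α))
    rw [e]
    exact union_height hA hB
  · intro A B hA hB
    have e : ({w | w ∈ W c ∧ sig g c w ∈ A ∩ B} : Set (List α)) =
        {w | w ∈ W c ∧ sig g c w ∈ A} ∩ {w | w ∈ W c ∧ sig g c w ∈ B} := by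
      ext w
      constructor
      · rintro ⟨h1, h2, h3⟩
        exact ⟨⟨h1, h2⟩, h1, h3⟩
      · rintro ⟨⟨h1, h2⟩, -, h3⟩
        exact ⟨h1, h2, h3⟩
    show HeightLE 0 ({w | w ∈ W c ∧ sig g c w ∈ A ∩ B} : Set (List α))
    rw [e]
    exact inter_height hA hB
  · intro A B hA hB
    have e : ({w | w ∈ W c ∧ sig g c w ∈ cc A B} : Set (List α)) =
        cc {w | w ∈ W c ∧ sig g c w ∈ A} {w | w ∈ W c ∧ sig g c w ∈ B} := by
      ext w
      constructor
      · rintro ⟨h1, a, ha, b, hb, h2⟩
        obtain ⟨w₁, w₂, h3, h4, h5, h6, h7⟩ := sig_split g c w h1 a b h2.symm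
        exact ⟨w₁, ⟨h3, by rw [h6]; exact ha⟩, w₂, ⟨h4, by rw [h7]; exact hb⟩, h5.symm⟩
      · rintro ⟨w₁, ⟨h1, h2⟩, w₂, ⟨h3, h4⟩, rfl⟩
        exact ⟨W_append h1 h3, _, h2, _, h4, (sig_append g c w₁ w₂ h1).symm⟩
    show HeightLE 0 ({w | w ∈ W c ∧ sig g c w ∈ cc A B} : Set (List α))
    rw [e]
    exact cc_height hA hB
  · intro A hA
    have e : ({w | w ∈ W c ∧ sig g c w ∈ Aᶜ} : Set (List α)) =
        W c ∩ {w | w ∈ W c ∧ sig g c w ∈ A}ᶜ := by
      ext w
      constructor
      · rintro ⟨h1, h2⟩
        exact ⟨h1, fun h => h2 h.2⟩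
      · rintro ⟨h1, h2⟩
        exact ⟨h1, fun h => h2 ⟨h1, h⟩⟩
    show HeightLE 0 ({w | w ∈ W c ∧ sig g c w ∈ Aᶜ} : Set (List α))
    rw [e]
    exact inter_height (W_height c) (compl_height hA)

/-- the letters of the local divisor -/
def psi (d : M) (t : M) : LD d := ⟨d * t * d, ⟨t * d, by rw [mul_assoc]⟩, ⟨d * t, rfl⟩⟩

theorem psi_prod (d : M) (τ : List M) :
    ((τ.map (psi d)).prod).1 = d * (τ.map (fun t => t * d)).prod := by
  induction τ with
  | nil =>
    rw [List.map_nil, List.map_nil, List.prod_nil, List.prod_nil, mul_one]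
    rfl
  | cons t τ ih =>
    rw [List.map_cons, List.map_cons, List.prod_cons, List.prod_cons,
      LD.mul_val _ _ _ ih]
    show d * t * d * _ = _
    simp only [mul_assoc]

end

/-! ### The theorem -/

theorem main (n : ℕ) : ∀ (M : Type) [Monoid M] [Finite M], Nat.card M = n →
    (∀ x : M, ∃ n : ℕ, x ^ (n + 1) = x ^ n) → ∀ (k : ℕ) (α : Type) [Finite α],
      Nat.card α = k → ∀ (g : α → M) (m : M),
        HeightLE 0 ({w | val g w = m} : Set (List α)) := by
  induction n using Nat.strong_induction_on with
  | _ n ihn =>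
  intro M _ _ hcM hM k
  induction k using Nat.strong_induction_on with
  | _ k ihk =>
  intro α _ hcα g m
  by_cases hg : ∀ a, g a = 1
  · have hv : ∀ w, val g w = 1 := by
      intro w
      induction w with
      | nil => rfl
      | cons a w ih => rw [val_cons, ih, hg, one_mul]
    by_cases hm : m = 1
    · have e : ({w | val g w = m} : Set (List α)) = Set.univ := by
        ext w
        simp [hv, hm]
      rw [e]
      exact HeightLE.univ 0
    · have e : ({w | val g w = m} : Set (List α)) = ∅ := by
        ext w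
        simp [hv, Ne.symm hm]
      rw [e]
      exact HeightLE.empty 0
  · push Not at hg
    obtain ⟨c, hc⟩ := hg
    -- the free part
    have hF : ∀ t : M, HeightLE 0 ({w | c ∉ w ∧ val g w = t} : Set (List α)) := by
      intro t
      have hlt : Nat.card {b : α // b ≠ c} < k := by
        rw [← hcα]
        exact Finite.card_subtype_lt (x := c) (by simp)
      have h1 := ihk _ hlt {b : α // b ≠ c} rfl (fun b => g b.1) t
      have h2 := map_height c _ h1
      have e : ({w | c ∉ w ∧ val g w = t} : Set (List α)) =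
          (List.map Subtype.val) '' ({w | val (fun b : {b : α // b ≠ c} => g b.1) w = t}) := by
        ext w
        constructor
        · rintro ⟨h3, h4⟩
          refine ⟨w.attach.map (fun x => ⟨x.1, fun he => h3 (he ▸ x.2)⟩), ?_, ?_⟩
          · show val _ _ = t
            rw [← h4]
            unfold val
            rw [List.map_map]
            congr 1
            conv_rhs => rw [← List.attach_map_subtype_val w, List.map_map]
            rfl
          · rw [List.map_map]
            simp [Function.comp_def]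
        · rintro ⟨v, hv, rfl⟩
          refine ⟨?_, ?_⟩
          · intro hc'
            rw [List.mem_map] at hc'
            obtain ⟨b, -, hb⟩ := hc'
            exact b.2 hb
          · have hv' : val (fun b : {b : α // b ≠ c} => g b.1) v = t := hv
            rw [← hv']
            unfold val
            rw [List.map_map]
            rfl
      rw [e]
      exact h2
    -- the part between the first and the last occurrence of `c`
    have hV : ∀ y : M, HeightLE 0
        ({w | ∃ w', w' ∈ W c ∧ w = c :: w' ∧ val g w = y} : Set (List α)) := by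
      intro y
      have hK : HeightLE 0 ({τ | ((τ.map (psi (g c))).prod).1 = y} : Set (List M)) := by
        by_cases hy : (∃ s, y = g c * s) ∧ ∃ t, y = t * g c
        · have hlt : Nat.card (LD (g c)) < n := by
            rw [← hcM]
            exact LD.card_lt hM hc
          have h1 := ihn _ hlt (LD (g c)) rfl (LD.aperiodic hM) (Nat.card M) M rfl
            (psi (g c)) ⟨y, hy⟩
          have e : ({τ | ((τ.map (psi (g c))).prod).1 = y} : Set (List M)) =
              {τ | val (psi (g c)) τ = ⟨y, hy⟩} := by
            ext τ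
            constructor
            · intro h
              exact Subtype.ext h
            · intro h
              have h' : val (psi (g c)) τ = ⟨y, hy⟩ := h
              show (val (psi (g c)) τ).1 = y
              rw [h']
          rw [e]
          exact h1
        · have e : ({τ | ((τ.map (psi (g c))).prod).1 = y} : Set (List M)) = ∅ := by
            ext τ
            constructor
            · intro h
              exfalso
              apply hy
              have h' : ((τ.map (psi (g c))).prod).1 = y := h
              rw [← h']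
              exact ((τ.map (psi (g c))).prod).2
            · intro h
              exact h.elim
          rw [e]
          exact HeightLE.empty 0
      have h2 := cc_height (HeightLE.char 0 c) (inv_height g c hF _ hK)
      have e : ({w | ∃ w', w' ∈ W c ∧ w = c :: w' ∧ val g w = y} : Set (List α)) =
          cc {[c]} {w | w ∈ W c ∧ sig g c w ∈
            ({τ | ((τ.map (psi (g c))).prod).1 = y} : Set (List M))} := by
        ext w
        constructor
        · rintro ⟨w', h3, rfl, h4⟩
          refine ⟨[c], rfl, w', ⟨h3, ?_⟩, rfl⟩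
          show ((List.map (psi (g c)) (sig g c w')).prod).1 = y
          rw [psi_prod, ← val_sig g c w' h3, ← h4, val_cons]
        · rintro ⟨a, ha, w', ⟨h3, h4⟩, rfl⟩
          have ha' : a = [c] := ha
          subst ha'
          refine ⟨w', h3, rfl, ?_⟩
          have h4' : ((List.map (psi (g c)) (sig g c w')).prod).1 = y := h4
          rw [psi_prod, ← val_sig g c w' h3] at h4'
          show val g (c :: w') = y
          rw [val_cons, h4']
      rw [e]
      exact h2
    -- the whole language
    have hU := union_height (hF m) (HeightLE.biUnion (h := 0) (ι := M × M × M)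
      (L := fun p => cc (cc {w | c ∉ w ∧ val g w = p.1}
        {w | ∃ w', w' ∈ W c ∧ w = c :: w' ∧ val g w = p.2.1}) {w | c ∉ w ∧ val g w = p.2.2})
      (fun p => p.1 * p.2.1 * p.2.2 = m)
      (fun p _ => cc_height (cc_height (hF p.1) (hV p.2.1)) (hF p.2.2)))
    have e : ({w | val g w = m} : Set (List α)) = {w | c ∉ w ∧ val g w = m} ∪
        {w | ∃ p : M × M × M, p.1 * p.2.1 * p.2.2 = m ∧ w ∈ cc (cc {w | c ∉ w ∧ val g w = p.1}
        {w | ∃ w', w' ∈ W c ∧ w = c :: w' ∧ val g w = p.2.1}) {w | c ∉ w ∧ val g w = p.2.2}} := by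
      ext w
      constructor
      · intro hw
        have hw' : val g w = m := hw
        by_cases hcw : c ∈ w
        · right
          obtain ⟨u, w₁, h1, h2⟩ := List.eq_append_cons_of_mem hcw
          obtain ⟨w', v, h3, h4, h5⟩ := W_last c w₁
          refine ⟨(val g u, val g (c :: w'), val g v), ?_, ?_⟩
          · show val g u * val g (c :: w') * val g v = m
            rw [← val_append, ← val_append, ← hw', h1, h5]
            simp
          · refine ⟨u ++ c :: w', ⟨u, ⟨h2, rfl⟩, c :: w', ⟨w', h3, rfl, rfl⟩, rfl⟩, v,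
              ⟨h4, rfl⟩, ?_⟩
            rw [h1, h5]
            simp
        · exact Or.inl ⟨hcw, hw'⟩
      · rintro (⟨-, h⟩ | ⟨⟨x, y, z⟩, hp, a, ⟨u, ⟨-, h1⟩, b, ⟨w', -, -, h2⟩, rfl⟩, v, ⟨-, h3⟩, rfl⟩)
        · exact h
        · show val g _ = m
          rw [val_append, val_append, h1, h2, h3]
          exact hp
    rw [e]
    exact hU

end Schutz

variable {α : Type}

theorem starFree_of_aperiodic [Finite α] {M : Type} [Monoid M] [Finite M]
    (hM : ∀ x : M, ∃ n : ℕ, x ^ (n + 1) = x ^ n)
    (f : FreeMonoid α →* M) (m : M) :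
    HeightLE 0 {w : List α | f (FreeMonoid.ofList w) = m} := by
  have h := Schutz.main _ M rfl hM _ α rfl (fun a => f (FreeMonoid.of a)) m
  have e : {w : List α | f (FreeMonoid.ofList w) = m} =
      {w | Schutz.val (fun a => f (FreeMonoid.of a)) w = m} := by
    ext w
    have : f (FreeMonoid.ofList w) = Schutz.val (fun a => f (FreeMonoid.of a)) w := by
      induction w with
      | nil => exact map_one f
      | cons a w ih =>
        rw [Schutz.val_cons, ← ih, ← map_mul]
        rfl
    show f (FreeMonoid.ofList w) = m ↔ Schutz.val _ w = m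
    rw [this]
  rw [e]
  exact h

end Pool.Agent.H643R2.SH
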