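import Pool.Agent.H643R2.SH.Defs

/-! Statements to be proved (this file is only a plan; do not import it). -/

namespace Pool.Agent.H643R2.SH

variable {α : Type}

/-- TASK A (file Schutz.lean). -/
theorem starFree_of_aperiodic [Finite α] {M : Type} [Monoid M] [Finite M]
    (hM : ∀ x : M, ∃ n : ℕ, x ^ (n + 1) = x ^ n) (f : FreeMonoid α →* M) (m : M) :
    HeightLE 0 {w : List α | f (FreeMonoid.ofList w) = m} := by
  sorry

/-- TASK B1 (file Auto.lean), uses A. -/
theorem starFree_prun [Finite α] {Q : Type} [Finite Q] (δ : Q → α → Option Q)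
    (h : CounterFree δ) (q q' : Q) : HeightLE 0 {w : List α | prun δ q w = some q'} := by
  sorry

/-- TASK B2 (file Auto.lean), uses B1. -/
theorem cnt_height [Finite α] {Q : Type} [Finite Q] (δ : Q → α → Q) (mk : Q → α → Bool) (qs : Q)
    (hmk : ∀ q a, mk q a = true → δ q a = qs) (h : CounterFree (unmarked δ mk))
    (m : ℕ) (hm : 0 < m) (r : ℕ) (q q' : Q) :
    HeightLE 1 {w : List α | cnt δ mk q w % m = r ∧ w.foldl δ q = q'} := by
  sorry

/-- TASK C (file Meas.lean): ring of measurable functions. -/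
theorem Meas.const (c : ℤ) : Meas (fun _ : List α => c) := by sorry

theorem Meas.add {f g : List α → ℤ} (hf : Meas f) (hg : Meas g) : Meas (fun w => f w + g w) := by
  sorry

theorem Meas.neg {f : List α → ℤ} (hf : Meas f) : Meas (fun w => - f w) := by
  sorry

theorem Meas.mul {f g : List α → ℤ} (hf : Meas f) (hg : Meas g) : Meas (fun w => f w * g w) := by
  sorry

theorem Meas.of_mul {f : List α → ℤ} (D : ℤ) (hD : D ≠ 0) (hf : Meas (fun w => D * f w)) :
    Meas f := by
  sorry

theorem Meas.sum {ι : Type*} (s : Finset ι) {f : ι → List α → ℤ} (hf : ∀ i ∈ s, Meas (f i)) :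
    Meas (fun w => ∑ i ∈ s, f i w) := by
  sorry

theorem Meas.indicator {L : Set (List α)} [DecidablePred (· ∈ L)] (hL : HeightLE 1 L) :
    Meas (fun w => if w ∈ L then 1 else 0) := by
  sorry

theorem Meas.determined {ι : Type*} [Finite ι] {f : ι → List α → ℤ} (hf : ∀ i, Meas (f i))
    (m : ℕ) (hm : 0 < m) (L : Set (List α))
    (hL : ∀ w w', (∀ i, f i w ≡ f i w' [ZMOD (m : ℤ)]) → (w ∈ L ↔ w' ∈ L)) :
    HeightLE 1 L := by
  sorry

/-- TASK D1 (file Cyc.lean). Steps in `{-1,0,1}`, event letter `x` of step `0`. -/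
theorem stepCount [Finite α] [DecidableEq α] (l : α → ℤ)
    (hl : ∀ a, l a = -1 ∨ l a = 0 ∨ l a = 1) (x : α) (hx : l x = 0) (N : ℕ) (hN : 0 < N)
    (s : ZMod N) :
    Meas (ev x (fun w => if (((w.map l).sum : ℤ) : ZMod N) = s then 1 else 0)) := by
  sorry

/-- TASK D2 (file Cyc.lean). One letter `x` of step `+1`, one letter `z` of step `-1`. -/
theorem movingCount [Finite α] [DecidableEq α] (x z : α) (hxz : x ≠ z) (N : ℕ) (hN : 0 < N)
    (s : ZMod N) :
    Meas (ev x (fun w => if (((w.count x : ℤ) - (w.count z : ℤ) : ℤ) : ZMod N) = s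
      then 1 else 0)) := by
  sorry

/-- TASK D3 (file Prime.lean). Arbitrary steps modulo a prime. -/
theorem primeCount [Finite α] [DecidableEq α] (p : ℕ) [Fact p.Prime] (e : α → ZMod p) (x : α)
    (s : ZMod p) :
    Meas (ev x (fun w => if (w.map e).sum = s then 1 else 0)) := by
  sorry

/-- TASK E (file Poly.lean), uses C, D1, D2. -/
theorem polyCount [Finite α] [DecidableEq α] (x : α) (l : List α) (hl : l.length ≤ 3) :
    Meas (ev x (fun w => (l.map (fun y => (w.count y : ℤ))).prod)) := by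
  sorry

/-- TASK F (file Nilp.lean), uses C only: group theory of metabelian nilpotent groups. -/
theorem nilp_of_polyCount [Finite α] [DecidableEq α] {G : Type} [Group G] [Finite G] (k : ℕ)
    (hk : 1 ≤ k)
    (hab : ∀ a ∈ commutator G, ∀ b ∈ commutator G, a * b = b * a)
    (hnil : (⊤ : Subgroup G).lowerCentralSeries (k + 1) = ⊥)
    (hE : ∀ (x : α) (l : List α), l.length ≤ k →
      Meas (ev x (fun w => (l.map (fun y => (w.count y : ℤ))).prod)))
    (φ : FreeMonoid α →* G) (g : G) :
    HeightLE 1 {w : List α | φ (FreeMonoid.ofList w) = g} := by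
  sorry

/-- TASK G (file Elem.lean), uses C, D3. -/
theorem elem_of_primeCount [Finite α] [DecidableEq α] {G : Type} [Group G] [Finite G] (p : ℕ)
    [Fact p.Prime] (A : Subgroup G) [A.Normal] (hab : ∀ a ∈ A, ∀ b ∈ A, a * b = b * a)
    (hcomm : ∀ g h : G, g * h * g⁻¹ * h⁻¹ ∈ A) (hpow : ∀ g : G, g ^ p ∈ A)
    (hE : ∀ (e : α → ZMod p) (x : α) (s : ZMod p),
      Meas (ev x (fun w => if (w.map e).sum = s then 1 else 0)))
    (φ : FreeMonoid α →* G) (g : G) :
    HeightLE 1 {w : List α | φ (FreeMonoid.ofList w) = g} := by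
  sorry

end Pool.Agent.H643R2.SH
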